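import Pool.Agent.Helper53.Segs

set_option autoImplicit false

namespace Pool.Agent.Helper53

open OnePoint

/-- determinant -/
def dt (u v : V) : ℤ := u.1 * v.2 - u.2 * v.1

/-- A list of integer vectors continuing `u` to a unimodular chain ending at infinity. -/
def ChFrom : V → List V → Prop
  | u, [] => u.2 = 1
  | u, u' :: L => dt u' u = 1 ∧ 0 < u'.2 ∧ ChFrom u' L

/-- `h` maps the first chain to the second one linearly. -/
def LinFrom (h : HC) : V → List V → V → List V → Prop
  | u, [], w, [] => Seg h u (1, 0) w (1, 0)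
  | u, u' :: L, w, w' :: L' => Seg h u u' w w' ∧ LinFrom h u' L w' L'
  | _, [], _, _ :: _ => False
  | _, _ :: _, _, [] => False

def Kf : ℤ → ℕ → List V
  | _, 0 => []
  | m, (n + 1) => (m, 1) :: Kf (m + 1) n

theorem LinFrom.length {h : HC} : ∀ {L L' : List V} {u w : V}, LinFrom h u L w L' →
    L.length = L'.length
  | [], [], _, _, _ => rfl
  | [], _ :: _, _, _, hl => hl.elim
  | _ :: _, [], _, _, hl => hl.elim
  | _ :: L, _ :: L', _, _, hl => by
    have := LinFrom.length (L := L) (L' := L') hl.2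
    simp [this]

theorem LinFrom.comp {h k : HC} : ∀ {L L' L'' : List V} {u w z : V}, LinFrom h u L w L' →
    LinFrom k w L' z L'' → LinFrom (k * h) u L z L''
  | [], [], [], _, _, _, h1, h2 => Seg.comp h1 h2
  | [], [], _ :: _, _, _, _, _, h2 => h2.elim
  | [], _ :: _, _, _, _, _, h1, _ => h1.elim
  | _ :: _, [], _, _, _, _, h1, _ => h1.elim
  | _ :: _, _ :: _, [], _, _, _, _, h2 => h2.elim
  | _ :: _, _ :: _, _ :: _, _, _, _, h1, h2 => ⟨Seg.comp h1.1 h2.1, LinFrom.comp h1.2 h2.2⟩

theorem LinFrom.inv {h : HC} : ∀ {L L' : List V} {u w : V}, LinFrom h u L w L' →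
    LinFrom h⁻¹ w L' u L
  | [], [], _, _, h1 => Seg.inv h1
  | [], _ :: _, _, _, h1 => h1.elim
  | _ :: _, [], _, _, h1 => h1.elim
  | _ :: _, _ :: _, _, _, h1 => ⟨Seg.inv h1.1, LinFrom.inv h1.2⟩

theorem LinFrom.agree {h k : HC} : ∀ {L L' : List V} {u w : V}, ChFrom u L →
    LinFrom h u L w L' → LinFrom k u L w L' →
    h ∞ = k ∞ ∧ ∀ t : ℝ, 0 ≤ (u.2 : ℝ) * t - u.1 → h (t : Cir) = k (t : Cir)
  | [], [], u, w, hc, h1, h2 => by
    constructor
    · have e1 := Seg.eval_right h1
      have e2 := Seg.eval_right h2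
      simp only [Int.cast_one, Int.cast_zero, pt_zero] at e1 e2
      rw [e1, e2]
    · intro t ht
      refine Seg.agree h1 h2 (by simp) ht ?_
      have : u.2 = 1 := hc
      simp [this]
  | [], _ :: _, _, _, _, h1, _ => h1.elim
  | _ :: _, [], _, _, _, h1, _ => h1.elim
  | u' :: L, w' :: L', u, w, hc, h1, h2 => by
    obtain ⟨a1, a2⟩ := LinFrom.agree (L := L) (L' := L') hc.2.2 h1.2 h2.2
    refine ⟨a1, fun t ht => ?_⟩
    rcases le_total 0 ((u'.2 : ℝ) * t - u'.1) with h | h
    · exact a2 t h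
    · refine Seg.agree h1.1 h2.1 (by linarith) ht ?_
      have hd : dt u' u = 1 := hc.1
      unfold dt at hd
      have : (u'.1 : ℝ) * u.2 - u'.2 * u.1 = 1 := by exact_mod_cast hd
      linarith

/-- Two homeomorphisms with the same linear behaviour on a chain are equal. -/
theorem eq_of_lin {h k : HC} {L L' : List V} (hc : ChFrom (-1, 0) L)
    (h1 : LinFrom h (-1, 0) L (-1, 0) L') (h2 : LinFrom k (-1, 0) L (-1, 0) L') : h = k := by
  obtain ⟨a1, a2⟩ := LinFrom.agree hc h1 h2
  ext z
  induction z using OnePoint.rec with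
  | infty => exact a1
  | coe t => exact a2 t (by simp)

theorem LinFrom.insert {h : HC} {u u' : V} {B : List V} : ∀ {A Q : List V} {x y : V},
    LinFrom h x (A ++ u :: u' :: B) y Q →
    ∃ A' w w' B', Q = A' ++ w :: w' :: B' ∧
      LinFrom h x (A ++ u :: (u.1 + u'.1, u.2 + u'.2) :: u' :: B) y
        (A' ++ w :: (w.1 + w'.1, w.2 + w'.2) :: w' :: B')
  | [], [], _, _, hl => hl.elim
  | [], [_], _, _, hl => hl.2.elim
  | [], w :: w' :: B', x, y, hl => by
    refine ⟨[], w, w', B', rfl, hl.1, ?_, ?_, hl.2.2⟩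
    · exact hl.2.1.sub' 1 0 1 1 _ _ _ _ (by norm_num) (by norm_num) (by simp) (by simp)
        (by simp) (by simp)
    · exact hl.2.1.sub' 1 1 0 1 _ _ _ _ (by norm_num) (by norm_num) (by simp) (by simp)
        (by simp) (by simp)
  | _ :: _, [], _, _, hl => hl.elim
  | a :: A, q :: Q, x, y, hl => by
    obtain ⟨A', w, w', B', e, hl'⟩ := LinFrom.insert (A := A) (Q := Q) hl.2
    exact ⟨q :: A', w, w', B', by simp [e], hl.1, hl'⟩

/-- the conjugate of `XX` at the integer `i` -/
noncomputable def Xi (i : ℤ) : HC := tau ^ i * XX * (tau ^ i)⁻¹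

theorem seg_tau_zpow (i : ℤ) (u u' : V) :
    Seg (tau ^ i) u u' (u.1 + i * u.2, u.2) (u'.1 + i * u'.2, u'.2) := by
  have hpos : ∀ n : ℕ, ∀ u u' : V,
      Seg (tau ^ n) u u' (u.1 + n * u.2, u.2) (u'.1 + n * u'.2, u'.2) := by
    intro n
    induction n with
    | zero => intro u u'; simpa using Seg.one u u'
    | succ n ih =>
      intro u u'
      have := (ih u u').comp (seg_tau _ _)
      rw [← pow_succ'] at this
      convert this using 2 <;> push_cast <;> ring
  rcases i with n | n
  · simpa using hpos n u u'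
  · rw [zpow_negSucc]
    refine Seg.inv ?_
    have := hpos (n + 1) (u.1 + (Int.negSucc n) * u.2, u.2) (u'.1 + (Int.negSucc n) * u'.2, u'.2)
    simp only [Int.negSucc_eq] at this ⊢
    convert this using 2 <;> push_cast <;> ring

theorem seg_Xi {i : ℤ} {u u' w w' : V}
    (h : Seg XX (u.1 - i * u.2, u.2) (u'.1 - i * u'.2, u'.2) (w.1 - i * w.2, w.2)
      (w'.1 - i * w'.2, w'.2)) : Seg (Xi i) u u' w w' := by
  have h1 : Seg (tau ^ i)⁻¹ u u' (u.1 - i * u.2, u.2) (u'.1 - i * u'.2, u'.2) := by
    refine Seg.inv ?_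
    have := seg_tau_zpow i (u.1 - i * u.2, u.2) (u'.1 - i * u'.2, u'.2)
    simpa using this
  have h2 : Seg (tau ^ i) (w.1 - i * w.2, w.2) (w'.1 - i * w'.2, w'.2) w w' := by
    have := seg_tau_zpow i (w.1 - i * w.2, w.2) (w'.1 - i * w'.2, w'.2)
    simpa using this
  have := (h1.comp h).comp h2
  rw [← mul_assoc] at this
  exact this

/-- translation part -/
theorem lin_Xi_trans (i : ℤ) : ∀ (l : ℕ) (p : ℤ), i + 1 ≤ p →
    LinFrom (Xi i) (p, 1) (Kf (p + 1) l) (p + 1, 1) (Kf (p + 2) l)
  | 0, p, hp => by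
    refine seg_Xi ?_
    obtain ⟨n, hn⟩ := Int.eq_ofNat_of_zero_le (sub_nonneg.mpr hp)
    refine segX4' 1 n 0 1 (by omega) (by omega) ?_ ?_ ?_ ?_ <;> ext <;> simp <;> omega
  | l + 1, p, hp => by
    refine ⟨seg_Xi ?_, ?_⟩
    · obtain ⟨n, hn⟩ := Int.eq_ofNat_of_zero_le (sub_nonneg.mpr hp)
      refine segX4' 1 n 1 (n + 1) (by omega) (by omega) ?_ ?_ ?_ ?_ <;> ext <;> simp <;> omega
    · have := lin_Xi_trans i l (p + 1) (by omega)
      convert this using 2 <;> ring_nf

theorem Kf_cons {m : ℤ} {n : ℕ} {w : V} {R : List V} (h : Kf m n = w :: R) :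
    w = (m, 1) ∧ ∃ n', n = n' + 1 ∧ R = Kf (m + 1) n' := by
  cases n with
  | zero => simp [Kf] at h
  | succ n' =>
    simp only [Kf, List.cons.injEq] at h
    exact ⟨h.1.symm, n', rfl, h.2.symm⟩

theorem lin_Xi (A' : List V) : ∀ (m : ℤ) (n : ℕ) (w w' : V) (B' : List V) (x : V),
    (x = (-1, 0) ∨ x = (m - 1, 1)) → Kf m n = A' ++ w :: w' :: B' →
    LinFrom (Xi (m + A'.length)) x (A' ++ w :: (w.1 + w'.1, w.2 + w'.2) :: w' :: B') x
      (Kf m (n + 1)) := by
  have hid : ∀ (i m : ℤ) (x : V), (x = (-1, 0) ∨ x = (m - 1, 1)) → m ≤ i →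
      Seg (Xi i) x (m, 1) x (m, 1) := by
    intro i m x hx hmi
    refine seg_Xi ?_
    obtain ⟨k, hk⟩ := Int.eq_ofNat_of_zero_le (sub_nonneg.mpr hmi)
    rcases hx with rfl | rfl
    · refine segX1' 1 0 k 1 (by omega) (by omega) ?_ ?_ <;> ext <;> simp <;> omega
    · refine segX1' (k + 1) 1 k 1 (by omega) (by omega) ?_ ?_ <;> ext <;> simp <;> omega
  induction A' with
  | nil =>
    intro m n w w' B' x hx hK
    simp only [List.nil_append] at hK
    obtain ⟨hw, n', hn, hR⟩ := Kf_cons hK
    obtain ⟨hw', n'', hn', hR'⟩ := Kf_cons hR.symm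
    subst hw hw' hR' hn' hn
    simp only [List.nil_append, List.length_nil, Nat.cast_zero, add_zero]
    refine ⟨hid m m x hx le_rfl, seg_Xi ?_, seg_Xi ?_, ?_⟩
    · have := segX2
      convert this using 2 <;> ring
    · have := segX3
      convert this using 2 <;> ring
    · have := lin_Xi_trans m n'' (m + 1) le_rfl
      convert this using 2
      ring
  | cons a A' ih =>
    intro m n w w' B' x hx hK
    simp only [List.cons_append] at hK
    obtain ⟨ha, n', hn, hR⟩ := Kf_cons hK
    subst ha hn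
    have := ih (m + 1) n' w w' B' (m, 1) (Or.inr (by simp)) hR.symm
    have e : m + ((((m, 1) : V) :: A').length : ℤ) = m + 1 + A'.length := by
      simp only [List.length_cons]; push_cast; ring
    rw [e]
    exact ⟨hid _ _ _ hx (by omega), this⟩

/-! ### ears -/

theorem det_lemma {u v u' : V} (h1 : dt v u = 1) (h2 : dt u' v = 1) :
    u.1 + u'.1 = dt u' u * v.1 ∧ u.2 + u'.2 = dt u' u * v.2 := by
  unfold dt at *
  constructor
  · linear_combination (-u'.1) * h1 - u.1 * h2
  · linear_combination (-u'.2) * h1 - u.2 * h2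

theorem ear_aux : ∀ (L : List V) (u v : V), 0 < u.2 → dt v u = 1 → u.2 < v.2 → ChFrom v L →
    ∃ A p q B, u :: v :: L = A ++ p :: (p.1 + q.1, p.2 + q.2) :: q :: B
  | [], u, v, hu, _, huv, hc => by
    exfalso
    have : v.2 = 1 := hc
    omega
  | u' :: L, u, v, hu, hd, huv, hc => by
    obtain ⟨hd', hu', hc'⟩ := hc
    rcases lt_trichotomy u'.2 v.2 with hlt | heq | hgt
    · refine ⟨[], u, u', L, ?_⟩
      obtain ⟨e1, e2⟩ := det_lemma hd hd'
      have hc1 : dt u' u = 1 := by
        have h1 : 0 < dt u' u := by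
          by_contra hcon
          push Not at hcon
          have : dt u' u * v.2 ≤ 0 := mul_nonpos_of_nonpos_of_nonneg hcon (by omega)
          omega
        have h2 : dt u' u < 2 := by
          by_contra hcon
          push Not at hcon
          have : 2 * v.2 ≤ dt u' u * v.2 := mul_le_mul_of_nonneg_right hcon (by omega)
          omega
        omega
      rw [hc1, one_mul] at e1 e2
      simp only [List.nil_append]
      congr 2
      ext
      · exact e1.symm
      · exact e2.symm
    · exfalso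
      unfold dt at hd'
      rw [heq] at hd'
      have hdvd : v.2 ∣ 1 := ⟨u'.1 - v.1, by linarith⟩
      have := Int.le_of_dvd one_pos hdvd
      omega
    · obtain ⟨A, p, q, B, e⟩ := ear_aux L v u' (by omega) hd' hgt hc'
      exact ⟨u :: A, p, q, B, by rw [e]; rfl⟩

theorem ear : ∀ (L : List V) (u : V), u.2 = 1 → ChFrom u L →
    (∀ z ∈ L, z.2 = 1) ∨ ∃ A p q B, u :: L = A ++ p :: (p.1 + q.1, p.2 + q.2) :: q :: B
  | [], _, _, _ => Or.inl (by simp)
  | v :: L, u, hu, hc => by
    obtain ⟨hd, hv, hc'⟩ := hc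
    rcases (show 1 ≤ v.2 by omega).eq_or_lt with h | h
    · rcases ear L v h.symm hc' with h1 | ⟨A, p, q, B, e⟩
      · left
        intro z hz
        rcases List.mem_cons.mp hz with rfl | hz
        · exact h.symm
        · exact h1 z hz
      · right
        exact ⟨u :: A, p, q, B, by rw [e]; rfl⟩
    · right
      exact ear_aux L u v (by omega) hd (by omega) hc'

theorem all_int : ∀ (L : List V) (p : ℤ), ChFrom (p, 1) L → (∀ z ∈ L, z.2 = 1) →
    L = Kf (p + 1) L.length
  | [], _, _, _ => rfl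
  | v :: L, p, hc, hz => by
    obtain ⟨hd, _, hc'⟩ := hc
    have hv2 : v.2 = 1 := hz v (by simp)
    have hv1 : v.1 = p + 1 := by
      unfold dt at hd
      simp only at hd
      rw [hv2] at hd
      linarith
    have hv : v = (p + 1, 1) := Prod.ext hv1 hv2
    subst hv
    have := all_int L (p + 1) hc' (fun z hzz => hz z (by simp [hzz]))
    simp only [List.length_cons, Kf]
    rw [← this]

theorem ch_remove {p q : V} {B : List V} : ∀ (A : List V) (x : V),
    ChFrom x (A ++ p :: (p.1 + q.1, p.2 + q.2) :: q :: B) → ChFrom x (A ++ p :: q :: B)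
  | [], x, h => by
    obtain ⟨h1, h2, h3, _, _, h6, h7⟩ := h
    refine ⟨h1, h2, ?_, h6, h7⟩
    unfold dt at h3 ⊢
    simp only at h3
    linarith
  | a :: A, x, h => ⟨h.1, h.2.1, ch_remove A a h.2.2⟩

theorem lin_tau_zpow (k : ℤ) : ∀ (n : ℕ) (m : ℤ) (x y : V),
    (x = (-1, 0) ∧ y = (-1, 0)) ∨ (x = (m - 1, 1) ∧ y = (m + k - 1, 1)) →
    LinFrom (tau ^ k) x (Kf m n) y (Kf (m + k) n)
  | 0, m, x, y, h => by
    have := seg_tau_zpow k x (1, 0)
    rcases h with ⟨rfl, rfl⟩ | ⟨rfl, rfl⟩
    · simpa [LinFrom, Kf] using this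
    · simp only [LinFrom, Kf]
      convert this using 2 <;> simp <;> ring
  | n + 1, m, x, y, h => by
    refine ⟨?_, ?_⟩
    · have := seg_tau_zpow k x (m, 1)
      rcases h with ⟨rfl, rfl⟩ | ⟨rfl, rfl⟩
      · simpa using this
      · convert this using 2 <;> simp <;> ring
    · have e : m + k + 1 = m + 1 + k := by ring
      rw [e]
      exact lin_tau_zpow k n (m + 1) (m, 1) (m + k, 1) (Or.inr (by constructor <;> ext <;> simp; ring))

/-- Normal form theorem: every chain can be mapped to the standard one. -/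
theorem normal_form : ∀ (n : ℕ) (L : List V), L.length = n → ChFrom (-1, 0) L →
    ∃ h ∈ Subgroup.closure {tau, XX}, LinFrom h (-1, 0) L (-1, 0) (Kf 0 n) := by
  intro n
  induction n with
  | zero =>
    intro L hL hc
    rw [List.length_eq_zero_iff] at hL
    subst hL
    simp [ChFrom] at hc
  | succ n ih =>
    intro L hL hc
    have htau : tau ∈ Subgroup.closure {tau, XX} := Subgroup.subset_closure (by simp)
    have hXX : XX ∈ Subgroup.closure {tau, XX} := Subgroup.subset_closure (by simp)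
    cases L with
    | nil => simp at hL
    | cons v L =>
      obtain ⟨hd, hv, hc'⟩ := hc
      have hv2 : v.2 = 1 := by
        unfold dt at hd
        simp only at hd
        linarith
      rcases ear L v hv2 hc' with hall | ⟨A, p, q, B, e⟩
      · -- all vertices are integers
        have hLL : v :: L = Kf v.1 (n + 1) := by
          have hv' : v = (v.1, 1) := Prod.ext rfl hv2
          rw [hv'] at hc'
          have := all_int L v.1 hc' hall
          have hn : L.length = n := by simpa using hL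
          rw [hn] at this
          rw [Kf, ← this, ← hv']
        refine ⟨tau ^ (-v.1), Subgroup.zpow_mem _ htau _, ?_⟩
        rw [hLL]
        have := lin_tau_zpow (-v.1) (n + 1) v.1 (-1, 0) (-1, 0) (Or.inl ⟨rfl, rfl⟩)
        rwa [add_neg_cancel] at this
      · have hc1 : ChFrom (-1, 0) (A ++ p :: (p.1 + q.1, p.2 + q.2) :: q :: B) := by
          rw [← e]; exact ⟨hd, hv, hc'⟩
        have hc2 := ch_remove A _ hc1
        have hlen : (A ++ p :: q :: B).length = n := by
          have h1 : (v :: L).length = n + 1 := hL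
          rw [e] at h1
          simp only [List.length_append, List.length_cons] at h1 ⊢
          omega
        obtain ⟨h, hh, hlin⟩ := ih _ hlen hc2
        obtain ⟨A', w, w', B', eK, hlin'⟩ := hlin.insert
        have hx := lin_Xi A' 0 n w w' B' (-1, 0) (Or.inl rfl) eK
        refine ⟨Xi (0 + A'.length) * h, ?_, ?_⟩
        · refine Subgroup.mul_mem _ ?_ hh
          unfold Xi
          exact Subgroup.mul_mem _ (Subgroup.mul_mem _ (Subgroup.zpow_mem _ htau _) hXX)
            (Subgroup.inv_mem _ (Subgroup.zpow_mem _ htau _))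
        · rw [e]
          exact hlin'.comp hx

end Pool.Agent.Helper53
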