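import Mathlib

set_option autoImplicit false

namespace Pool.Agent.Helper53

open OnePoint

/-- The circle. -/
abbrev Cir := OnePoint ℝ

/-- Its homeomorphism group. -/
abbrev HC := Cir ≃ₜ Cir

/-- The point of the circle with homogeneous coordinates `x`, `y`. -/
noncomputable def pt (x y : ℝ) : Cir := if y = 0 then ∞ else ((x / y : ℝ) : Cir)

theorem pt_zero (x : ℝ) : pt x 0 = ∞ := by simp [pt]

theorem pt_ne {x y : ℝ} (h : y ≠ 0) : pt x y = ((x / y : ℝ) : Cir) := by simp [pt, h]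

theorem pt_one (x : ℝ) : pt x 1 = (x : Cir) := by simp [pt]

theorem pt_smul {c : ℝ} (hc : c ≠ 0) (x y : ℝ) : pt (c * x) (c * y) = pt x y := by
  unfold pt
  by_cases h : y = 0
  · simp [h]
  · rw [if_neg h, if_neg (mul_ne_zero hc h), mul_div_mul_left _ _ hc]

theorem pt_neg (x y : ℝ) : pt (-x) (-y) = pt x y := by
  have := pt_smul (c := -1) (by norm_num) x y
  simpa using this

theorem pt_eq_coe_iff {x y t : ℝ} : pt x y = (t : Cir) ↔ y ≠ 0 ∧ x = t * y := by
  unfold pt
  by_cases h : y = 0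
  · simp [h]
  · simp [h, div_eq_iff h]

theorem pt_eq_infty_iff {x y : ℝ} : pt x y = ∞ ↔ y = 0 := by
  unfold pt
  by_cases h : y = 0
  · simp [h]
  · simp [h]

/-- Integer vectors. -/
abbrev V := ℤ × ℤ

/-- `h` maps the cone of `u`, `u'` linearly to the cone of `w`, `w'`. -/
def Seg (h : HC) (u u' w w' : V) : Prop :=
  ∀ x y : ℝ, 0 ≤ x → 0 ≤ y → 0 < x + y →
    h (pt (x * u.1 + y * u'.1) (x * u.2 + y * u'.2)) =
      pt (x * w.1 + y * w'.1) (x * w.2 + y * w'.2)

theorem Seg.comp {h k : HC} {u u' w w' z z' : V} (h1 : Seg h u u' w w') (h2 : Seg k w w' z z') :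
    Seg (k * h) u u' z z' := by
  intro x y hx hy hxy
  rw [Homeomorph.mul_apply, h1 x y hx hy hxy, h2 x y hx hy hxy]

theorem Seg.inv {h : HC} {u u' w w' : V} (h1 : Seg h u u' w w') : Seg h⁻¹ w w' u u' := by
  intro x y hx hy hxy
  rw [← h1 x y hx hy hxy, Homeomorph.inv_apply, Homeomorph.symm_apply_apply]

theorem Seg.one (u u' : V) : Seg 1 u u' u u' := by
  intro x y _ _ _
  rfl

/-- sub-cone -/
theorem Seg.sub {h : HC} {u u' w w' : V} (h1 : Seg h u u' w w') (a b a' b' : ℕ)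
    (hab : 0 < a + b) (hab' : 0 < a' + b') :
    Seg h ((a : ℤ) * u.1 + b * u'.1, (a : ℤ) * u.2 + b * u'.2)
      ((a' : ℤ) * u.1 + b' * u'.1, (a' : ℤ) * u.2 + b' * u'.2)
      ((a : ℤ) * w.1 + b * w'.1, (a : ℤ) * w.2 + b * w'.2)
      ((a' : ℤ) * w.1 + b' * w'.1, (a' : ℤ) * w.2 + b' * w'.2) := by
  intro x y hx hy hxy
  have ha : (0 : ℝ) ≤ a := Nat.cast_nonneg a
  have hb : (0 : ℝ) ≤ b := Nat.cast_nonneg b
  have ha' : (0 : ℝ) ≤ a' := Nat.cast_nonneg a'
  have hb' : (0 : ℝ) ≤ b' := Nat.cast_nonneg b'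
  have hab1 : (0 : ℝ) < a + b := by exact_mod_cast hab
  have hab1' : (0 : ℝ) < a' + b' := by exact_mod_cast hab'
  have key := h1 (x * a + y * a') (x * b + y * b') (by positivity) (by positivity) (by
    rcases hx.lt_or_eq with h0 | h0
    · have : 0 < x * (a + b) := mul_pos h0 hab1
      have : 0 ≤ y * (a' + b') := mul_nonneg hy hab1'.le
      nlinarith
    · have hy0 : 0 < y := by linarith
      have : 0 < y * (a' + b') := mul_pos hy0 hab1'
      rw [← h0]
      nlinarith)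
  push_cast
  have e1 : x * ((a : ℝ) * u.1 + b * u'.1) + y * ((a' : ℝ) * u.1 + b' * u'.1) =
    (x * a + y * a') * u.1 + (x * b + y * b') * u'.1 := by ring
  have e2 : x * ((a : ℝ) * u.2 + b * u'.2) + y * ((a' : ℝ) * u.2 + b' * u'.2) =
    (x * a + y * a') * u.2 + (x * b + y * b') * u'.2 := by ring
  have e3 : x * ((a : ℝ) * w.1 + b * w'.1) + y * ((a' : ℝ) * w.1 + b' * w'.1) =
    (x * a + y * a') * w.1 + (x * b + y * b') * w'.1 := by ring
  have e4 : x * ((a : ℝ) * w.2 + b * w'.2) + y * ((a' : ℝ) * w.2 + b' * w'.2) =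
    (x * a + y * a') * w.2 + (x * b + y * b') * w'.2 := by ring
  rw [e1, e2, e3, e4]
  exact key

theorem Seg.sub' {h : HC} {u u' w w' : V} (h1 : Seg h u u' w w') (a b a' b' : ℕ)
    (v v' z z' : V)
    (hab : 0 < a + b) (hab' : 0 < a' + b')
    (e1 : v = ((a : ℤ) * u.1 + b * u'.1, (a : ℤ) * u.2 + b * u'.2))
    (e2 : v' = ((a' : ℤ) * u.1 + b' * u'.1, (a' : ℤ) * u.2 + b' * u'.2))
    (e3 : z = ((a : ℤ) * w.1 + b * w'.1, (a : ℤ) * w.2 + b * w'.2))
    (e4 : z' = ((a' : ℤ) * w.1 + b' * w'.1, (a' : ℤ) * w.2 + b' * w'.2)) :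
    Seg h v v' z z' := by
  subst e1 e2 e3 e4
  exact h1.sub a b a' b' hab hab'

theorem Seg.neg_left {h : HC} {u u' w w' : V} (h1 : Seg h u u' w w') :
    Seg h (-u.1, -u.2) (-u'.1, -u'.2) w w' := by
  intro x y hx hy hxy
  rw [← h1 x y hx hy hxy]
  congr 1
  rw [← pt_neg]
  push_cast
  congr 1 <;> ring

theorem Seg.neg_right {h : HC} {u u' w w' : V} (h1 : Seg h u u' w w') :
    Seg h u u' (-w.1, -w.2) (-w'.1, -w'.2) := by
  intro x y hx hy hxy
  rw [h1 x y hx hy hxy, ← pt_neg]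
  push_cast
  congr 1 <;> ring

theorem Seg.eval_left {h : HC} {u u' w w' : V} (h1 : Seg h u u' w w') :
    h (pt u.1 u.2) = pt w.1 w.2 := by
  have := h1 1 0 (by norm_num) (by norm_num) (by norm_num)
  simpa using this

theorem Seg.eval_right {h : HC} {u u' w w' : V} (h1 : Seg h u u' w w') :
    h (pt u'.1 u'.2) = pt w'.1 w'.2 := by
  have := h1 0 1 (by norm_num) (by norm_num) (by norm_num)
  simpa using this

/-- A real number in the closed interval given by two vectors lies in their cone. -/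
theorem cone_real {u u' : V} {t : ℝ} (h1 : 0 ≤ (u'.1 : ℝ) - u'.2 * t) (h2 : 0 ≤ u.2 * t - u.1)
    (hD : 0 < (u'.1 : ℝ) * u.2 - u'.2 * u.1) :
    ∃ x y : ℝ, 0 ≤ x ∧ 0 ≤ y ∧ 0 < x + y ∧
      pt (x * u.1 + y * u'.1) (x * u.2 + y * u'.2) = (t : Cir) := by
  refine ⟨(u'.1 : ℝ) - u'.2 * t, u.2 * t - u.1, h1, h2, ?_, ?_⟩
  · rcases h1.lt_or_eq with h | h
    · linarith
    · rcases h2.lt_or_eq with h' | h'
      · linarith
      · exfalso
        have : (u'.1 : ℝ) * u.2 - u'.2 * u.1 = 0 := by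
          linear_combination (-(u.2 : ℝ)) * h - (u'.2 : ℝ) * h'
        linarith
  · rw [pt_eq_coe_iff]
    constructor
    · have : ((u'.1 : ℝ) - u'.2 * t) * u.2 + (u.2 * t - u.1) * u'.2 =
        (u'.1 : ℝ) * u.2 - u'.2 * u.1 := by ring
      rw [this]
      exact hD.ne'
    · ring

/-- two homeomorphisms with the same behaviour on a cone agree there. -/
theorem Seg.agree {h k : HC} {u u' w w' : V} (h1 : Seg h u u' w w') (h2 : Seg k u u' w w')
    {t : ℝ} (c1 : 0 ≤ (u'.1 : ℝ) - u'.2 * t) (c2 : 0 ≤ u.2 * t - u.1)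
    (hD : 0 < (u'.1 : ℝ) * u.2 - u'.2 * u.1) : h (t : Cir) = k (t : Cir) := by
  obtain ⟨x, y, hx, hy, hxy, e⟩ := cone_real c1 c2 hD
  rw [← e, h1 x y hx hy hxy, h2 x y hx hy hxy]

/-! ### homeomorphisms of the circle from order automorphisms of the line -/

/-- The extension of an order automorphism of the line by fixing infinity. -/
def io : (ℝ ≃o ℝ) →* HC where
  toFun f := f.toHomeomorph.onePointCongr
  map_one' := by
    ext z
    induction z using OnePoint.rec <;> rfl
  map_mul' f g := by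
    ext z
    induction z using OnePoint.rec <;> rfl

theorem io_coe (f : ℝ ≃o ℝ) (t : ℝ) : io f (t : Cir) = (f t : Cir) := rfl

theorem io_infty (f : ℝ ≃o ℝ) : io f ∞ = ∞ := rfl

/-- nice functions on a set -/
def Nice (f : ℝ → ℝ) (I : Set ℝ) : Prop := StrictMonoOn f I ∧ ContinuousOn f I

/-- gluing -/
noncomputable def glue (c : ℝ) (f g : ℝ → ℝ) : ℝ → ℝ := fun t => if t ≤ c then f t else g t

theorem nice_glue {c : ℝ} {f g : ℝ → ℝ} {I : Set ℝ} (hI : IsClosed I) (hc : c ∈ I)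
    (hf : Nice f (I ∩ Set.Iic c)) (hg : Nice g (I ∩ Set.Ici c)) (hfg : f c = g c) :
    Nice (glue c f g) I := by
  have e1 : Set.EqOn (glue c f g) f (I ∩ Set.Iic c) := by
    intro t ht
    simp only [glue, if_pos (Set.mem_Iic.mp ht.2)]
  have e2 : Set.EqOn (glue c f g) g (I ∩ Set.Ici c) := by
    intro t ht
    rcases (Set.mem_Ici.mp ht.2).lt_or_eq with h | h
    · simp only [glue, if_neg (not_le.mpr h)]
    · subst h
      simp [glue, hfg]
  have hU : (I ∩ Set.Iic c) ∪ (I ∩ Set.Ici c) = I := by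
    ext t
    simp only [Set.mem_union, Set.mem_inter_iff, Set.mem_Iic, Set.mem_Ici]
    constructor
    · rintro (h | h) <;> exact h.1
    · intro h
      rcases le_total t c with h' | h'
      · exact Or.inl ⟨h, h'⟩
      · exact Or.inr ⟨h, h'⟩
  rw [← hU]
  constructor
  · refine StrictMonoOn.union (c := c) (hf.1.congr e1.symm) (hg.1.congr e2.symm) ?_ ?_
    · exact ⟨⟨hc, Set.mem_Iic.mpr le_rfl⟩, fun t ht => ht.2⟩
    · exact ⟨⟨hc, Set.mem_Ici.mpr le_rfl⟩, fun t ht => ht.2⟩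
  · exact ContinuousOn.union_of_isClosed (hf.2.congr e1) (hg.2.congr e2)
      (hI.inter isClosed_Iic) (hI.inter isClosed_Ici)

/-- Moebius functions are nice where the denominator is positive. -/
theorem nice_moebius {a b c d : ℝ} {I : Set ℝ} (hdet : 0 < a * d - b * c)
    (hI : ∀ t ∈ I, 0 < c * t + d) : Nice (fun t => (a * t + b) / (c * t + d)) I := by
  constructor
  · intro x hx y hy hxy
    simp only
    rw [div_lt_div_iff₀ (hI x hx) (hI y hy)]
    have : (a * y + b) * (c * x + d) - (a * x + b) * (c * y + d) = (a * d - b * c) * (y - x) := by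
      ring
    have h2 : 0 < (a * d - b * c) * (y - x) := mul_pos hdet (sub_pos.mpr hxy)
    linarith
  · refine ContinuousOn.div (by fun_prop) (by fun_prop) fun t ht => (hI t ht).ne'

theorem Nice.congr {f g : ℝ → ℝ} {I : Set ℝ} (h : Nice f I) (e : Set.EqOn g f I) : Nice g I :=
  ⟨h.1.congr e.symm, h.2.congr e⟩

/-- An order automorphism from a nice function which is a translation near both ends. -/
noncomputable def mkIso (f : ℝ → ℝ) (hf : Nice f Set.univ)
    (hs : Function.Surjective f) : ℝ ≃o ℝ :=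
  StrictMono.orderIsoOfSurjective f (by
    intro x y hxy
    exact hf.1 (Set.mem_univ x) (Set.mem_univ y) hxy) hs

theorem mkIso_apply (f : ℝ → ℝ) (hf : Nice f Set.univ) (hs : Function.Surjective f) (t : ℝ) :
    mkIso f hf hs t = f t := rfl

theorem surj_of_nice {f : ℝ → ℝ} (hf : Nice f Set.univ) {A B α β : ℝ}
    (h1 : ∀ t, t ≤ A → f t = t + α) (h2 : ∀ t, B ≤ t → f t = t + β) :
    Function.Surjective f := by
  have hc : Continuous f := continuousOn_univ.mp hf.2
  refine hc.surjective ?_ ?_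
  · have : Filter.Tendsto (fun t : ℝ => t + β) Filter.atTop Filter.atTop :=
      Filter.tendsto_atTop_add_const_right _ _ Filter.tendsto_id
    refine this.congr' ?_
    filter_upwards [Filter.eventually_ge_atTop B] with t ht
    exact (h2 t ht).symm
  · have : Filter.Tendsto (fun t : ℝ => t + α) Filter.atBot Filter.atBot :=
      Filter.tendsto_atBot_add_const_right _ _ Filter.tendsto_id
    refine this.congr' ?_
    filter_upwards [Filter.eventually_le_atBot A] with t ht
    exact (h1 t ht).symm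

end Pool.Agent.Helper53
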