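import Pool.Agent.Helper53.Segs

set_option autoImplicit false

namespace Pool.Agent.Helper53

open OnePoint

/-- support in a closed interval -/
def Sup (f : ℝ ≃o ℝ) (α β : ℝ) : Prop := ∀ t, t ≤ α ∨ β ≤ t → f t = t

theorem Sup.mul {f g : ℝ ≃o ℝ} {α β : ℝ} (hf : Sup f α β) (hg : Sup g α β) : Sup (f * g) α β := by
  intro t ht
  rw [RelIso.mul_apply, hg t ht, hf t ht]

theorem Sup.inv {f : ℝ ≃o ℝ} {α β : ℝ} (hf : Sup f α β) : Sup f⁻¹ α β := by
  intro t ht
  have := hf t ht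
  conv_lhs => rw [← this]
  rw [← RelIso.mul_apply, inv_mul_cancel]
  rfl

theorem Sup.mono {f : ℝ ≃o ℝ} {α β α' β' : ℝ} (hf : Sup f α β) (h1 : α' ≤ α) (h2 : β ≤ β') :
    Sup f α' β' := by
  intro t ht
  exact hf t (ht.imp (fun h => h.trans h1) (fun h => h2.trans h))

theorem Sup.comm {f g : ℝ ≃o ℝ} {α β γ δ : ℝ} (hf : Sup f α β) (hg : Sup g γ δ) (h : β ≤ γ) :
    Commute f g := by
  ext t
  rw [RelIso.mul_apply, RelIso.mul_apply]
  rcases le_total t β with h1 | h1
  · rw [hg t (Or.inl (h1.trans h))]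
    have : f t ≤ f β := f.monotone h1
    rw [hf β (Or.inr le_rfl)] at this
    rw [hg (f t) (Or.inl (this.trans h))]
  · rw [hf t (Or.inr h1)]
    rcases le_total t γ with h2 | h2
    · rw [hg t (Or.inl h2), hf t (Or.inr h1)]
    · have : g γ ≤ g t := g.monotone h2
      rw [hg γ (Or.inl le_rfl)] at this
      exact hf (g t) (Or.inr (h.trans this))

theorem Sup.conj {f : ℝ ≃o ℝ} {α β : ℝ} (hf : Sup f α β) :
    Sup (tauR * f * tauR⁻¹) (α + 1) (β + 1) := by
  intro t ht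
  rw [RelIso.mul_apply, RelIso.mul_apply, tauR_inv_apply, tauR_apply, hf]
  · ring
  · rcases ht with h | h
    · left; linarith
    · right; linarith

theorem Sup.conj_pow {f : ℝ ≃o ℝ} {α β : ℝ} (hf : Sup f α β) (n : ℕ) :
    Sup (tauR ^ n * f * (tauR ^ n)⁻¹) (α + n) (β + n) := by
  induction n with
  | zero => simpa using hf
  | succ n ih =>
    have := ih.conj
    have e : tauR ^ (n + 1) * f * (tauR ^ (n + 1))⁻¹ =
        tauR * (tauR ^ n * f * (tauR ^ n)⁻¹) * tauR⁻¹ := by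
      rw [pow_succ']; group
    rw [e]
    push_cast
    rw [← add_assoc, ← add_assoc]
    exact this

theorem rot_infty : rot ∞ = ((0 : ℝ) : Cir) := by
  have := segR1.eval_left
  simpa [pt] using this

theorem zone_conj {f : ℝ ≃o ℝ} {α β : ℝ} (hf : Sup f α β) (h0 : 0 ≤ α) (h1 : β ≤ 15) :
    rot * io f * rot⁻¹ = io (tauR * f * tauR⁻¹) := by
  rw [mul_inv_eq_iff_eq_mul]
  ext z
  rw [Homeomorph.mul_apply, Homeomorph.mul_apply]
  induction z using OnePoint.rec with
  | infty =>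
    rw [io_infty, rot_infty, io_coe, hf.conj 0 (Or.inl (by linarith))]
  | coe t =>
    rw [io_coe]
    by_cases ht : 0 ≤ t ∧ t ≤ 15
    · obtain ⟨ht0, ht1⟩ := ht
      have a0 : 0 ≤ f t := by
        have := f.monotone ht0
        rwa [hf 0 (Or.inl h0)] at this
      have a1 : f t ≤ 15 := by
        have := f.monotone ht1
        rwa [hf 15 (Or.inr h1)] at this
      rw [rot_zone a0 a1, rot_zone ht0 ht1, io_coe, RelIso.mul_apply, RelIso.mul_apply,
        tauR_inv_apply, tauR_apply]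
      simp
    · have ht' : t ≤ α ∨ β ≤ t := by
        by_contra hcon
        push Not at hcon
        exact ht ⟨by linarith, by linarith⟩
      rw [hf t ht']
      -- the image point is not in the zone
      cases hz : rot (t : Cir) using OnePoint.rec with
      | infty => rw [io_infty]
      | coe r =>
        rw [io_coe, hf.conj]
        by_contra hcon
        push Not at hcon
        have hr0 : 0 ≤ r - 1 := by linarith
        have hr1 : r - 1 ≤ 15 := by linarith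
        have : rot ((r - 1 : ℝ) : Cir) = rot (t : Cir) := by
          rw [rot_zone hr0 hr1, hz]
          simp
        have h2 := OnePoint.coe_injective (rot.injective this)
        exact ht ⟨by linarith, by linarith⟩

theorem zone_conj_pow {f : ℝ ≃o ℝ} {α β : ℝ} (hf : Sup f α β) (h0 : 0 ≤ α) (n : ℕ)
    (h1 : β + n ≤ 16) :
    rot ^ n * io f * (rot ^ n)⁻¹ = io (tauR ^ n * f * (tauR ^ n)⁻¹) := by
  induction n with
  | zero => simp
  | succ n ih =>
    have h1' : β + n ≤ 15 := by push_cast at h1; linarith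
    have e : rot ^ (n + 1) * io f * (rot ^ (n + 1))⁻¹ =
        rot * (rot ^ n * io f * (rot ^ n)⁻¹) * rot⁻¹ := by
      rw [pow_succ']; group
    have e' : tauR ^ (n + 1) * f * (tauR ^ (n + 1))⁻¹ =
        tauR * (tauR ^ n * f * (tauR ^ n)⁻¹) * tauR⁻¹ := by
      rw [pow_succ']; group
    rw [e, e', ih (by linarith)]
    exact zone_conj (hf.conj_pow n) (by positivity) h1'

/-- The elements `x j` of Thompson's group. -/
noncomputable def xj (j : ℕ) : ℝ ≃o ℝ := tauR ^ j * XR * (tauR ^ j)⁻¹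

theorem xj_left (j : ℕ) {t : ℝ} (h : t ≤ j) : xj j t = t := by
  have hinv : ∀ n : ℕ, ∀ t : ℝ, (tauR ^ n)⁻¹ t = t - n := by
    intro n
    induction n with
    | zero => intro t; simp
    | succ n ih =>
      intro t
      rw [pow_succ', mul_inv_rev, RelIso.mul_apply, tauR_inv_apply, ih]
      push_cast; ring
  have hpow : ∀ n : ℕ, ∀ t : ℝ, (tauR ^ n) t = t + n := by
    intro n
    induction n with
    | zero => intro t; simp
    | succ n ih =>
      intro t
      rw [pow_succ', RelIso.mul_apply, tauR_apply, ih]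
      push_cast; ring
  rw [xj, RelIso.mul_apply, RelIso.mul_apply, hinv, XR_apply, XF_1 (by linarith), hpow]
  ring

theorem xj_right (j : ℕ) {t : ℝ} (h : j + 1 ≤ t) : xj j t = t + 1 := by
  have hinv : ∀ n : ℕ, ∀ t : ℝ, (tauR ^ n)⁻¹ t = t - n := by
    intro n
    induction n with
    | zero => intro t; simp
    | succ n ih =>
      intro t
      rw [pow_succ', mul_inv_rev, RelIso.mul_apply, tauR_inv_apply, ih]
      push_cast; ring
  have hpow : ∀ n : ℕ, ∀ t : ℝ, (tauR ^ n) t = t + n := by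
    intro n
    induction n with
    | zero => intro t; simp
    | succ n ih =>
      intro t
      rw [pow_succ', RelIso.mul_apply, tauR_apply, ih]
      push_cast; ring
  rw [xj, RelIso.mul_apply, RelIso.mul_apply, hinv, XR_apply, XF_4 (by linarith), hpow]
  ring

/-- The basic relation. -/
theorem xj_rel {i j : ℕ} (hij : i < j) : xj i * xj j = xj (j + 1) * xj i := by
  ext t
  rw [RelIso.mul_apply, RelIso.mul_apply]
  have hij' : (i : ℝ) + 1 ≤ j := by exact_mod_cast hij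
  have hsucc : ∀ t, xj (j + 1) (t + 1) = xj j t + 1 := by
    intro t
    have e : xj (j + 1) = tauR * xj j * tauR⁻¹ := by
      rw [xj, xj, pow_succ']; group
    rw [e, RelIso.mul_apply, RelIso.mul_apply, tauR_inv_apply, tauR_apply]
    simp
  rcases le_total t ((i : ℝ) + 1) with h | h
  · rw [xj_left j (h.trans hij')]
    rw [xj_left (j + 1)]
    have := (xj i).monotone h
    rw [xj_right i le_rfl] at this
    push_cast
    linarith
  · rw [xj_right i h, hsucc]
    apply xj_right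
    have := (xj j).monotone h
    rw [xj_left j hij'] at this
    exact this

theorem sup_pair {i k : ℕ} (hik : i < k) : Sup ((xj k)⁻¹ * xj i) i (k + 1) := by
  intro t ht
  rw [RelIso.mul_apply]
  rcases ht with h | h
  · rw [xj_left i h]
    have hk : t ≤ k := h.trans (by exact_mod_cast hik.le)
    conv_lhs => rw [← xj_left k hk]
    rw [← RelIso.mul_apply, inv_mul_cancel]; rfl
  · have hi : (i : ℝ) + 1 ≤ t := by
      have : (i : ℝ) < k := by exact_mod_cast hik
      linarith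
    rw [xj_right i hi]
    rw [← xj_right k h, ← RelIso.mul_apply, inv_mul_cancel]; rfl

theorem conj_xj (n j : ℕ) : tauR ^ n * xj j * (tauR ^ n)⁻¹ = xj (j + n) := by
  rw [xj, xj, add_comm j n, pow_add]; group

theorem conj_pair (n i k : ℕ) : tauR ^ n * ((xj k)⁻¹ * xj i) * (tauR ^ n)⁻¹ =
    (xj (k + n))⁻¹ * xj (i + n) := by
  rw [← conj_xj n k, ← conj_xj n i]; group

theorem comm_uv : ((xj 9)⁻¹ * xj 6) * ((xj 7)⁻¹ * xj 9) * ((xj 9)⁻¹ * xj 6)⁻¹ *
    ((xj 7)⁻¹ * xj 9)⁻¹ = (xj 8)⁻¹ * xj 7 := by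
  have r1 : xj 6 * xj 9 = xj 10 * xj 6 := xj_rel (by norm_num)
  have r2 : xj 6 * xj 7 = xj 8 * xj 6 := xj_rel (by norm_num)
  have r3 : xj 8 * xj 9 = xj 10 * xj 8 := xj_rel (by norm_num)
  have e1 : xj 6 * (xj 7)⁻¹ = (xj 8)⁻¹ * xj 6 := by
    rw [mul_inv_eq_iff_eq_mul, mul_assoc, eq_inv_mul_iff_mul_eq, r2]
  have e2 : xj 6 * xj 9 * (xj 6)⁻¹ = xj 10 := by rw [r1]; group
  have e3 : (xj 8)⁻¹ * xj 10 * xj 8 = xj 9 := by rw [mul_assoc, ← r3]; group
  calc ((xj 9)⁻¹ * xj 6) * ((xj 7)⁻¹ * xj 9) * ((xj 9)⁻¹ * xj 6)⁻¹ * ((xj 7)⁻¹ * xj 9)⁻¹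
      = (xj 9)⁻¹ * (xj 6 * (xj 7)⁻¹) * xj 9 * (xj 6)⁻¹ * xj 9 * (xj 9)⁻¹ * xj 7 := by group
    _ = (xj 9)⁻¹ * (xj 8)⁻¹ * (xj 6 * xj 9 * (xj 6)⁻¹) * xj 7 := by rw [e1]; group
    _ = (xj 9)⁻¹ * ((xj 8)⁻¹ * xj 10 * xj 8) * (xj 8)⁻¹ * xj 7 := by rw [e2]; group
    _ = (xj 8)⁻¹ * xj 7 := by rw [e3]; group

theorem comm_general {G : Type*} [Group G] {u v B D : G} (h1 : Commute B u) (h2 : Commute B v)
    (h3 : Commute B D) (h4 : Commute D u) (h5 : Commute D v) :
    (u * B) * (v * D) * (u * B)⁻¹ * (v * D)⁻¹ = u * v * u⁻¹ * v⁻¹ := by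
  have a1 : (u * B) * (v * D) = u * v * (D * B) := by
    rw [mul_assoc, ← mul_assoc B v D, h2.eq, mul_assoc v B D, h3.eq]
    group
  have a2 : (u * B)⁻¹ * (v * D)⁻¹ = (D * B)⁻¹ * (u⁻¹ * v⁻¹) := by
    rw [← mul_inv_rev, ← mul_inv_rev, ← mul_inv_rev]
    congr 1
    rw [mul_assoc, ← mul_assoc D u B, h4.eq, ← mul_assoc, ← mul_assoc, mul_assoc _ D B]
  rw [mul_assoc, a2, a1]
  group

noncomputable def uu : ℝ ≃o ℝ := (xj 9)⁻¹ * xj 6
noncomputable def vv : ℝ ≃o ℝ := (xj 7)⁻¹ * xj 9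
noncomputable def vv' : ℝ ≃o ℝ := tauR ^ 6 * vv * (tauR ^ 6)⁻¹
noncomputable def um : ℝ ≃o ℝ := (xj 3)⁻¹ * xj 0
noncomputable def sm : ℝ ≃o ℝ := tauR ^ 4 * SR * (tauR ^ 4)⁻¹
noncomputable def ss : ℝ ≃o ℝ := tauR ^ 6 * sm * (tauR ^ 6)⁻¹

theorem sup_uu : Sup uu 6 10 := by
  have := sup_pair (i := 6) (k := 9) (by norm_num)
  norm_num at this
  exact this
theorem sup_vv : Sup vv 7 10 := by
  have := (sup_pair (i := 7) (k := 9) (by norm_num)).inv
  norm_num at this
  exact this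
theorem sup_vv' : Sup vv' 13 16 := by
  have := sup_vv.conj_pow 6
  norm_num at this
  exact this
theorem sup_um : Sup um 0 4 := by
  have := sup_pair (i := 0) (k := 3) (by norm_num)
  norm_num at this
  exact this
theorem sup_SR : Sup SR 0 2 := by
  intro t ht
  rcases ht with h | h
  · rw [SR_apply, SF_1 h]
  · rw [SR_apply, SF_4 h]
theorem sup_sm : Sup sm 4 6 := by
  have := sup_SR.conj_pow 4
  norm_num at this
  exact this
theorem sup_ss : Sup ss 10 12 := by
  have := sup_sm.conj_pow 6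
  norm_num at this
  exact this

/-- the second generator, on the line -/
noncomputable def b0 : ℝ ≃o ℝ := uu * (vv' * ss)
noncomputable def b1 : ℝ ≃o ℝ := vv * (um * sm)

theorem conj_b : rot ^ 6 * io b1 * (rot ^ 6)⁻¹ = io b0 := by
  have e1 : rot ^ 6 * io vv * (rot ^ 6)⁻¹ = io vv' :=
    zone_conj_pow sup_vv (by norm_num) 6 (by norm_num)
  have e2 : rot ^ 6 * io um * (rot ^ 6)⁻¹ = io uu := by
    rw [zone_conj_pow sup_um (by norm_num) 6 (by norm_num), um, conj_pair]; rfl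
  have e3 : rot ^ 6 * io sm * (rot ^ 6)⁻¹ = io ss :=
    zone_conj_pow sup_sm (by norm_num) 6 (by norm_num)
  have hc : Commute uu vv' := sup_uu.comm sup_vv' (by norm_num)
  calc rot ^ 6 * io b1 * (rot ^ 6)⁻¹ = (rot ^ 6 * io vv * (rot ^ 6)⁻¹) *
        ((rot ^ 6 * io um * (rot ^ 6)⁻¹) * (rot ^ 6 * io sm * (rot ^ 6)⁻¹)) := by
        rw [b1, map_mul, map_mul]; group
    _ = io (vv' * (uu * ss)) := by rw [e1, e2, e3, map_mul, map_mul]
    _ = io b0 := by rw [b0, ← mul_assoc, ← hc.eq, mul_assoc]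

theorem comm_b : b0 * b1 * b0⁻¹ * b1⁻¹ = (xj 8)⁻¹ * xj 7 := by
  rw [← comm_uv]
  have c1 : Commute vv' uu := (sup_uu.comm sup_vv' (by norm_num)).symm
  have c2 : Commute ss uu := (sup_uu.comm sup_ss (by norm_num)).symm
  have c3 : Commute vv' vv := (sup_vv.comm sup_vv' (by norm_num)).symm
  have c4 : Commute ss vv := (sup_vv.comm sup_ss (by norm_num)).symm
  have c5 : Commute vv' um := (sup_um.comm sup_vv' (by norm_num)).symm
  have c6 : Commute vv' sm := (sup_sm.comm sup_vv' (by norm_num)).symm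
  have c7 : Commute ss um := (sup_um.comm sup_ss (by norm_num)).symm
  have c8 : Commute ss sm := (sup_sm.comm sup_ss (by norm_num)).symm
  have d1 : Commute um uu := sup_um.comm sup_uu (by norm_num)
  have d2 : Commute sm uu := sup_sm.comm sup_uu (by norm_num)
  have d3 : Commute um vv := sup_um.comm sup_vv (by norm_num)
  have d4 : Commute sm vv := sup_sm.comm sup_vv (by norm_num)
  exact comm_general (c1.mul_left c2) (c3.mul_left c4)
    ((c5.mul_right c6).mul_left (c7.mul_right c8)) (d1.mul_left d2) (d3.mul_left d4)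

/-- The main group-theoretic statement. -/
theorem mem_closure :
    tau ∈ Subgroup.closure {rot, io b0} ∧ XX ∈ Subgroup.closure {rot, io b0} ∧
      io SR ∈ Subgroup.closure {rot, io b0} := by
  set H := Subgroup.closure {rot, io b0} with hH
  have hr : rot ∈ H := Subgroup.subset_closure (by simp)
  have hb : io b0 ∈ H := Subgroup.subset_closure (by simp)
  have hrn : ∀ n : ℕ, rot ^ n ∈ H := fun n => H.pow_mem hr n
  have hb1 : io b1 ∈ H := by
    have e : io b1 = (rot ^ 6)⁻¹ * io b0 * rot ^ 6 := by rw [← conj_b]; group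
    rw [e]
    exact H.mul_mem (H.mul_mem (H.inv_mem (hrn 6)) hb) (hrn 6)
  have hw : io ((xj 8)⁻¹ * xj 7) ∈ H := by
    rw [← comm_b, map_mul, map_mul, map_mul, map_inv, map_inv]
    exact H.mul_mem (H.mul_mem (H.mul_mem hb hb1) (H.inv_mem hb)) (H.inv_mem hb1)
  have h0 : io ((xj 1)⁻¹ * xj 0) ∈ H := by
    have hs : Sup ((xj 1)⁻¹ * xj 0) 0 2 := by
      have := sup_pair (i := 0) (k := 1) (by norm_num)
      norm_num at this
      exact this
    have e := zone_conj_pow hs le_rfl 7 (by norm_num)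
    rw [conj_pair] at e
    have e2 : io ((xj 1)⁻¹ * xj 0) = (rot ^ 7)⁻¹ * io ((xj 8)⁻¹ * xj 7) * rot ^ 7 := by
      rw [show (8 : ℕ) = 1 + 7 from rfl, show io ((xj (1 + 7))⁻¹ * xj 7) =
        io ((xj (1 + 7))⁻¹ * xj (0 + 7)) from rfl, ← e]; group
    rw [e2]
    exact H.mul_mem (H.mul_mem (H.inv_mem (hrn 7)) hw) (hrn 7)
  have hstep : ∀ n : ℕ, 2 + n ≤ 16 → io ((xj (1 + n))⁻¹ * xj (0 + n)) ∈ H := by
    intro n hn
    have hs : Sup ((xj 1)⁻¹ * xj 0) 0 2 := by
      have := sup_pair (i := 0) (k := 1) (by norm_num)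
      norm_num at this
      exact this
    have e := zone_conj_pow hs le_rfl n (by exact_mod_cast hn)
    rw [conj_pair] at e
    rw [← e]
    exact H.mul_mem (H.mul_mem (hrn n) h0) (H.inv_mem (hrn n))
  have h1 : io ((xj 2)⁻¹ * xj 1) ∈ H := hstep 1 (by norm_num)
  have h2 : io ((xj 3)⁻¹ * xj 2) ∈ H := hstep 2 (by norm_num)
  have hx : ∀ j : ℕ, io (xj j) = tau ^ j * XX * (tau ^ j)⁻¹ := by
    intro j
    rw [xj, map_mul, map_mul, map_inv, map_pow]; rfl
  have hc3 : c3 ∈ H := by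
    have e : c3 = io ((xj 2)⁻¹ * xj 1) * io ((xj 1)⁻¹ * xj 0) := by
      rw [← map_mul, show (xj 2)⁻¹ * xj 1 * ((xj 1)⁻¹ * xj 0) = (xj 2)⁻¹ * xj 0 by group,
        map_mul, map_inv, hx, hx, c3]
      simp [pow_succ, mul_assoc]
    rw [e]
    exact H.mul_mem h1 h0
  have hc4 : c4 ∈ H := by
    have e : c4 = io ((xj 3)⁻¹ * xj 2) * (io ((xj 2)⁻¹ * xj 1) * io ((xj 1)⁻¹ * xj 0)) := by
      rw [← map_mul, ← map_mul, show (xj 3)⁻¹ * xj 2 * ((xj 2)⁻¹ * xj 1 * ((xj 1)⁻¹ * xj 0)) =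
        (xj 3)⁻¹ * xj 0 by group, map_mul, map_inv, hx, hx, c4]
      simp [pow_succ, mul_assoc]
    rw [e]
    exact H.mul_mem h2 (H.mul_mem h1 h0)
  have ht : tau ∈ H := by
    have e : tau = (rot * rot)⁻¹ * c3⁻¹ * (rot * (rot * rot)) := by
      rw [← rel2]; group
    rw [e]
    exact H.mul_mem (H.mul_mem (H.inv_mem (H.mul_mem hr hr)) (H.inv_mem hc3))
      (H.mul_mem hr (H.mul_mem hr hr))
  have hX : XX ∈ H := by
    have e : XX = (rot * rot)⁻¹ * c4⁻¹ * (rot * (rot * rot)) := by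
      rw [← rel3]; group
    rw [e]
    exact H.mul_mem (H.mul_mem (H.inv_mem (H.mul_mem hr hr)) (H.inv_mem hc4))
      (H.mul_mem hr (H.mul_mem hr hr))
  refine ⟨ht, hX, ?_⟩
  have htn : ∀ n : ℕ, tau ^ n ∈ H := fun n => H.pow_mem ht n
  have hxj : ∀ j : ℕ, io (xj j) ∈ H := by
    intro j
    rw [hx]
    exact H.mul_mem (H.mul_mem (htn j) hX) (H.inv_mem (htn j))
  have htau : io tauR = tau := rfl
  have huu : io uu ∈ H := by
    rw [uu, map_mul, map_inv]
    exact H.mul_mem (H.inv_mem (hxj _)) (hxj _)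
  have hvv : io vv' ∈ H := by
    rw [vv', vv, map_mul, map_mul, map_mul, map_inv, map_inv, map_pow, htau]
    exact H.mul_mem (H.mul_mem (htn 6) (H.mul_mem (H.inv_mem (hxj _)) (hxj _)))
      (H.inv_mem (htn 6))
  have hss : io ss ∈ H := by
    have e : io ss = (io vv')⁻¹ * ((io uu)⁻¹ * io b0) := by
      rw [b0, map_mul, map_mul]; group
    rw [e]
    exact H.mul_mem (H.inv_mem hvv) (H.mul_mem (H.inv_mem huu) hb)
  have e : io SR = (tau ^ 10)⁻¹ * io ss * tau ^ 10 := by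
    rw [ss, sm, map_mul, map_mul, map_mul, map_mul, map_inv, map_inv, map_pow, map_pow, htau]
    group
  rw [e]
  exact H.mul_mem (H.mul_mem (H.inv_mem (htn 10)) hss) (htn 10)

end Pool.Agent.Helper53
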