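import Pool.Agent.Helper53.Circle

set_option autoImplicit false

namespace Pool.Agent.Helper53

open OnePoint Filter Topology

/-! ### the rotation of order two -/

noncomputable def gamFun (z : Cir) : Cir := z.elim (pt 0 1) (fun t => pt (-1) t)

theorem gamFun_infty : gamFun ∞ = ((0 : ℝ) : Cir) := by
  simp [gamFun, pt]

theorem gamFun_coe (t : ℝ) : gamFun (t : Cir) = pt (-1) t := rfl

theorem gamFun_pt (x y : ℝ) (h : x ≠ 0 ∨ y ≠ 0) : gamFun (pt x y) = pt (-y) x := by
  by_cases hy : y = 0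
  · subst hy
    have hx : x ≠ 0 := by simpa using h
    rw [pt_zero, gamFun_infty, pt_ne hx]
    simp
  · rw [pt_ne hy, gamFun_coe]
    have := pt_smul hy (-1) (x / y)
    rw [← this]
    congr 1
    · ring
    · field_simp

theorem gamFun_gamFun (z : Cir) : gamFun (gamFun z) = z := by
  induction z using OnePoint.rec with
  | infty => rw [gamFun_infty, gamFun_coe, pt_zero]
  | coe t =>
    rw [gamFun_coe, gamFun_pt _ _ (Or.inl (by norm_num)), ← pt_neg, neg_neg, neg_neg, pt_one]

theorem gamFun_continuous : Continuous gamFun := by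
  have hco : coclosedCompact ℝ = Bornology.cobounded ℝ := by
    rw [coclosedCompact_eq_cocompact, Metric.cobounded_eq_cocompact]
  rw [OnePoint.continuous_iff]
  constructor
  · rw [gamFun_infty, hco]
    have h1 : Tendsto (fun x : ℝ => ((-x⁻¹ : ℝ) : Cir)) (Bornology.cobounded ℝ)
        (𝓝 (((-0 : ℝ)) : Cir)) :=
      (OnePoint.continuous_coe.tendsto _).comp (tendsto_inv₀_cobounded.neg)
    rw [neg_zero] at h1
    refine h1.congr' ?_
    filter_upwards [Bornology.eventually_ne_cobounded (0 : ℝ)] with x hx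
    rw [gamFun_coe, pt_ne hx]
    congr 1
    field_simp
  · rw [continuous_iff_continuousAt]
    intro x
    by_cases hx : x = 0
    · subst hx
      rw [continuousAt_iff_punctured_nhds, gamFun_coe, pt_zero]
      have h0 : Tendsto (fun x : ℝ => -x⁻¹) (𝓝[≠] 0) (coclosedCompact ℝ) := by
        rw [hco]
        exact (Filter.tendsto_neg_cobounded).comp tendsto_inv₀_nhdsNE_zero
      have h1 : Tendsto (fun x : ℝ => ((-x⁻¹ : ℝ) : Cir)) (𝓝[≠] 0) (𝓝 ∞) :=
        OnePoint.tendsto_coe_infty.comp h0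
      refine h1.congr' ?_
      filter_upwards [self_mem_nhdsWithin] with y hy
      have hy' : y ≠ 0 := hy
      rw [gamFun_coe, pt_ne hy']
      congr 1
      field_simp
    · have h1 : ContinuousAt (fun x : ℝ => ((-x⁻¹ : ℝ) : Cir)) x :=
        OnePoint.continuous_coe.continuousAt.comp ((continuousAt_inv₀ hx).neg)
      refine h1.congr ?_
      filter_upwards [isOpen_ne.mem_nhds hx] with y hy
      have hy' : y ≠ 0 := hy
      rw [gamFun_coe, pt_ne hy']
      congr 1
      field_simp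

/-- The rotation `t ↦ -1/t`. -/
noncomputable def gam : HC where
  toFun := gamFun
  invFun := gamFun
  left_inv := gamFun_gamFun
  right_inv := gamFun_gamFun
  continuous_toFun := gamFun_continuous
  continuous_invFun := gamFun_continuous

theorem gam_pt (x y : ℝ) (h : x ≠ 0 ∨ y ≠ 0) : gam (pt x y) = pt (-y) x := gamFun_pt x y h

/-! ### translation -/

noncomputable def tauR : ℝ ≃o ℝ := OrderIso.addRight (1 : ℝ)

theorem tauR_apply (t : ℝ) : tauR t = t + 1 := rfl

theorem tauR_inv_apply (t : ℝ) : tauR⁻¹ t = t - 1 := by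
  have : tauR (tauR⁻¹ t) = t := by
    rw [← RelIso.mul_apply, mul_inv_cancel]; rfl
  rw [tauR_apply] at this
  linarith

/-! ### the map `X` -/

noncomputable def XF : ℝ → ℝ :=
  glue 0 (fun t => t) (glue (1/2) (fun t => (1 * t + 0) / ((-1) * t + 1))
    (glue 1 (fun t => (3 * t + (-1)) / (1 * t + 0)) (fun t => t + 1)))

theorem nice_id (I : Set ℝ) : Nice (fun t => t) I :=
  ⟨fun _ _ _ _ h => h, continuousOn_id⟩

theorem nice_add (c : ℝ) (I : Set ℝ) : Nice (fun t => t + c) I :=
  ⟨fun _ _ _ _ h => by simpa using h, by fun_prop⟩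

theorem XF_nice : Nice XF Set.univ := by
  refine nice_glue isClosed_univ (Set.mem_univ _) (nice_id _) ?_ ?_
  · rw [Set.univ_inter]
    refine nice_glue isClosed_Ici (by norm_num) ?_ ?_ ?_
    · refine nice_moebius (by norm_num) ?_
      rintro t ⟨h1, h2⟩
      simp only [Set.mem_Ici, Set.mem_Iic] at h1 h2
      linarith
    · refine nice_glue (isClosed_Ici.inter isClosed_Ici) (by norm_num) ?_ (nice_add _ _) ?_
      · refine nice_moebius (by norm_num) ?_
        rintro t ⟨⟨h1, h1'⟩, h2⟩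
        simp only [Set.mem_Ici, Set.mem_Iic] at h1 h1' h2
        linarith
      · norm_num
    · simp [glue]; norm_num
  · simp [glue]

theorem XF_1 {t : ℝ} (h : t ≤ 0) : XF t = t := by simp [XF, glue, h]
theorem XF_2 {t : ℝ} (h0 : 0 ≤ t) (h : t ≤ 1/2) : XF t = t / (1 - t) := by
  rcases h0.lt_or_eq with h1 | h1
  · simp only [XF, glue, if_neg (not_le.mpr h1), if_pos h]
    congr 1 <;> ring
  · subst h1
    simp [XF, glue]
theorem XF_3 {t : ℝ} (h0 : 1/2 ≤ t) (h : t ≤ 1) : XF t = (3 * t - 1) / t := by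
  rcases h0.lt_or_eq with h1 | h1
  · simp only [XF, glue, if_neg (not_le.mpr (lt_trans one_half_pos h1)), if_neg (not_le.mpr h1), if_pos h]
    congr 1 <;> ring
  · subst h1
    rw [XF_2 (by norm_num) le_rfl]
    norm_num
theorem XF_4 {t : ℝ} (h0 : 1 ≤ t) : XF t = t + 1 := by
  rcases h0.lt_or_eq with h1 | h1
  · have a1 : ¬ t ≤ 0 := by linarith
    have a2 : ¬ t ≤ 1/2 := by linarith
    simp only [XF, glue, if_neg a1, if_neg a2, if_neg (not_le.mpr h1)]
  · subst h1
    rw [XF_3 (by norm_num) le_rfl]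
    norm_num

noncomputable def XR : ℝ ≃o ℝ := mkIso XF XF_nice
  (surj_of_nice XF_nice (A := 0) (B := 1) (α := 0) (β := 1) (fun t ht => by rw [XF_1 ht, add_zero])
    (fun t ht => XF_4 ht))

theorem XR_apply (t : ℝ) : XR t = XF t := rfl

/-! ### the map `phi` -/

noncomputable def PF : ℝ → ℝ :=
  glue 0 (fun t => t + (-1)) (glue 15 (fun t => (0 * t + (-1)) / (1 * t + 1))
    (glue 16 (fun t => (1 * t + (-16)) / ((-15) * t + 241)) (fun t => t + (-16))))

theorem PF_nice : Nice PF Set.univ := by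
  refine nice_glue isClosed_univ (Set.mem_univ _) (nice_add _ _) ?_ ?_
  · rw [Set.univ_inter]
    refine nice_glue isClosed_Ici (by norm_num) ?_ ?_ ?_
    · refine nice_moebius (by norm_num) ?_
      rintro t ⟨h1, h2⟩
      simp only [Set.mem_Ici, Set.mem_Iic] at h1 h2
      linarith
    · refine nice_glue (isClosed_Ici.inter isClosed_Ici) (by norm_num) ?_ (nice_add _ _) ?_
      · refine nice_moebius (by norm_num) ?_
        rintro t ⟨⟨h1, h1'⟩, h2⟩
        simp only [Set.mem_Ici, Set.mem_Iic] at h1 h1' h2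
        linarith
      · norm_num
    · simp [glue]; norm_num
  · simp [glue]

theorem PF_1 {t : ℝ} (h : t ≤ 0) : PF t = t - 1 := by simp [PF, glue, h]; ring
theorem PF_2 {t : ℝ} (h0 : 0 ≤ t) (h : t ≤ 15) : PF t = -1 / (t + 1) := by
  rcases h0.lt_or_eq with h1 | h1
  · simp only [PF, glue, if_neg (not_le.mpr h1), if_pos h]
    congr 1 <;> ring
  · subst h1
    simp [PF, glue]
theorem PF_3 {t : ℝ} (h0 : 15 ≤ t) (h : t ≤ 16) : PF t = (t - 16) / (241 - 15 * t) := by
  rcases h0.lt_or_eq with h1 | h1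
  · have a1 : ¬ t ≤ 0 := by linarith
    simp only [PF, glue, if_neg a1, if_neg (not_le.mpr h1), if_pos h]
    congr 1 <;> ring
  · subst h1
    rw [PF_2 (by norm_num) le_rfl]
    norm_num
theorem PF_4 {t : ℝ} (h0 : 16 ≤ t) : PF t = t - 16 := by
  rcases h0.lt_or_eq with h1 | h1
  · have a1 : ¬ t ≤ 0 := by linarith
    have a2 : ¬ t ≤ 15 := by linarith
    simp only [PF, glue, if_neg a1, if_neg a2, if_neg (not_le.mpr h1)]
    ring
  · subst h1
    rw [PF_3 (by norm_num) le_rfl]
    norm_num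

noncomputable def PR : ℝ ≃o ℝ := mkIso PF PF_nice
  (surj_of_nice PF_nice (A := 0) (B := 16) (α := -1) (β := -16)
    (fun t ht => by rw [PF_1 ht, sub_eq_add_neg]) (fun t ht => by rw [PF_4 ht, sub_eq_add_neg]))

theorem PR_apply (t : ℝ) : PR t = PF t := rfl

/-! ### the map `s` -/

noncomputable def SF : ℝ → ℝ :=
  glue 0 (fun t => t) (glue 1 (fun t => (2 * t + 0) / (1 * t + 1))
    (glue 2 (fun t => (0 * t + 2) / ((-1) * t + 3)) (fun t => t)))

theorem SF_nice : Nice SF Set.univ := by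
  refine nice_glue isClosed_univ (Set.mem_univ _) (nice_id _) ?_ ?_
  · rw [Set.univ_inter]
    refine nice_glue isClosed_Ici (by norm_num) ?_ ?_ ?_
    · refine nice_moebius (by norm_num) ?_
      rintro t ⟨h1, h2⟩
      simp only [Set.mem_Ici, Set.mem_Iic] at h1 h2
      linarith
    · refine nice_glue (isClosed_Ici.inter isClosed_Ici) (by norm_num) ?_ (nice_id _) ?_
      · refine nice_moebius (by norm_num) ?_
        rintro t ⟨⟨h1, h1'⟩, h2⟩
        simp only [Set.mem_Ici, Set.mem_Iic] at h1 h1' h2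
        linarith
      · norm_num
    · simp [glue]; norm_num
  · simp [glue]

theorem SF_1 {t : ℝ} (h : t ≤ 0) : SF t = t := by simp [SF, glue, h]
theorem SF_2 {t : ℝ} (h0 : 0 ≤ t) (h : t ≤ 1) : SF t = 2 * t / (1 + t) := by
  rcases h0.lt_or_eq with h1 | h1
  · simp only [SF, glue, if_neg (not_le.mpr h1), if_pos h]
    congr 1 <;> ring
  · subst h1
    simp [SF, glue]
theorem SF_3 {t : ℝ} (h0 : 1 ≤ t) (h : t ≤ 2) : SF t = 2 / (3 - t) := by
  rcases h0.lt_or_eq with h1 | h1
  · have a1 : ¬ t ≤ 0 := by linarith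
    simp only [SF, glue, if_neg a1, if_neg (not_le.mpr h1), if_pos h]
    congr 1 <;> ring
  · subst h1
    rw [SF_2 (by norm_num) le_rfl]
    norm_num
theorem SF_4 {t : ℝ} (h0 : 2 ≤ t) : SF t = t := by
  rcases h0.lt_or_eq with h1 | h1
  · have a1 : ¬ t ≤ 0 := by linarith
    have a2 : ¬ t ≤ 1 := by linarith
    simp only [SF, glue, if_neg a1, if_neg a2, if_neg (not_le.mpr h1)]
  · subst h1
    rw [SF_3 (by norm_num) le_rfl]
    norm_num

noncomputable def SR : ℝ ≃o ℝ := mkIso SF SF_nice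
  (surj_of_nice SF_nice (A := 0) (B := 2) (α := 0) (β := 0) (fun t ht => by rw [SF_1 ht, add_zero])
    (fun t ht => by rw [SF_4 ht, add_zero]))

theorem SR_apply (t : ℝ) : SR t = SF t := rfl

/-- The rotation of order 18. -/
noncomputable def rot : HC := gam * io PR

end Pool.Agent.Helper53
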