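import Pool.Agent.Helper53.Chain

set_option autoImplicit false

namespace Pool.Agent.Helper53

open OnePoint Filter Topology Matrix

/-! ### refinement of chains -/

def Link : V → List V → V → Prop
  | u, [], u' => dt u' u = 1
  | u, m :: M, u' => dt m u = 1 ∧ 0 < m.2 ∧ Link m M u'

theorem Link.chFrom : ∀ {M : List V} {u : V}, Link u M (1, 0) → ChFrom u M
  | [], u, h => by
    change dt (1, 0) u = 1 at h
    unfold dt at h
    simpa [ChFrom] using h
  | _ :: _, _, h => ⟨h.1, h.2.1, Link.chFrom h.2.2⟩

theorem Link.append : ∀ {M : List V} {u u' : V} {R : List V}, Link u M u' → 0 < u'.2 →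
    ChFrom u' R → ChFrom u (M ++ u' :: R)
  | [], _, _, _, h, h1, h2 => ⟨h, h1, h2⟩
  | _ :: _, _, _, _, h, h1, h2 => ⟨h.1, h.2.1, Link.append h.2.2 h1 h2⟩

theorem Link.snoc : ∀ {M : List V} {u z u' : V}, Link u M z → 0 < z.2 → dt u' z = 1 →
    Link u (M ++ [z]) u'
  | [], _, _, _, h, h1, h2 => ⟨h, h1, h2⟩
  | _ :: _, _, _, _, h, h1, h2 => ⟨h.1, h.2.1, Link.snoc h.2.2 h1 h2⟩

theorem stern_brocot : ∀ (n : ℕ) (u u' : V) (x y : ℤ), x + y ≤ n → dt u' u = 1 → 0 ≤ u.2 →
    0 ≤ u'.2 → 0 < x → 0 < y → IsCoprime x y →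
    ∃ M : List V, (x * u.1 + y * u'.1, x * u.2 + y * u'.2) ∈ M ∧ Link u M u' := by
  intro n
  induction n with
  | zero => intro u u' x y h _ _ _ hx hy; push_cast at h; omega
  | succ n ih =>
    intro u u' x y hn hd hu hu' hx hy hco
    have hpos : 0 < u.2 + u'.2 := by
      rcases hu.lt_or_eq with h | h
      · omega
      · rcases hu'.lt_or_eq with h' | h'
        · omega
        · exfalso
          unfold dt at hd
          rw [← h, ← h'] at hd
          simp at hd
    rcases lt_trichotomy x y with hlt | heq | hgt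
    · obtain ⟨M, hM, hL⟩ := ih (u.1 + u'.1, u.2 + u'.2) u' x (y - x) (by push_cast at hn; omega)
        (by unfold dt at hd ⊢; simp only; linarith) hpos.le hu' hx (by omega)
        (by
          have := hco.add_mul_left_right (-1)
          simpa [sub_eq_add_neg, add_comm] using this)
      refine ⟨(u.1 + u'.1, u.2 + u'.2) :: M, ?_, ?_⟩
      · right
        have e : (x * u.1 + y * u'.1, x * u.2 + y * u'.2) =
          (x * (u.1 + u'.1) + (y - x) * u'.1, x * (u.2 + u'.2) + (y - x) * u'.2) := by
          ext <;> simp only <;> ring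
        rw [e]
        exact hM
      · refine ⟨?_, hpos, hL⟩
        unfold dt at hd ⊢
        simp only
        linarith
    · subst heq
      have hx1 : x = 1 := by
        have := isCoprime_self.mp hco
        rcases Int.isUnit_iff.mp this with h | h <;> omega
      subst hx1
      refine ⟨[(u.1 + u'.1, u.2 + u'.2)], by simp, ?_, hpos, ?_⟩
      · unfold dt at hd ⊢
        simp only
        linarith
      · change dt _ _ = 1
        unfold dt at hd ⊢
        simp only
        linarith
    · obtain ⟨M, hM, hL⟩ := ih u (u.1 + u'.1, u.2 + u'.2) (x - y) y (by push_cast at hn; omega)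
        (by unfold dt at hd ⊢; simp only; linarith) hu hpos.le (by omega) hy
        (by
          have := hco.add_mul_right_left (-1)
          simpa [sub_eq_add_neg, add_comm] using this)
      refine ⟨M ++ [(u.1 + u'.1, u.2 + u'.2)], ?_, ?_⟩
      · apply List.mem_append_left
        have e : (x * u.1 + y * u'.1, x * u.2 + y * u'.2) =
          ((x - y) * u.1 + y * (u.1 + u'.1), (x - y) * u.2 + y * (u.2 + u'.2)) := by
          ext <;> simp only <;> ring
        rw [e]
        exact hM
      · refine hL.snoc hpos ?_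
        unfold dt at hd ⊢
        simp only
        linarith

theorem decomp {u u' v : V} (hd : dt u' u = 1) :
    v = (dt u' v * u.1 + dt v u * u'.1, dt u' v * u.2 + dt v u * u'.2) := by
  unfold dt at *
  ext
  · simp only; linear_combination (-v.1) * hd
  · simp only; linear_combination (-v.2) * hd

theorem decomp_coprime {u u' v : V} (hd : dt u' u = 1) (hv : IsCoprime v.1 v.2) :
    IsCoprime (dt u' v) (dt v u) := by
  obtain ⟨a, b, hab⟩ := hv
  have h := decomp (v := v) hd
  have h1 : v.1 = dt u' v * u.1 + dt v u * u'.1 := congrArg Prod.fst h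
  have h2 : v.2 = dt u' v * u.2 + dt v u * u'.2 := congrArg Prod.snd h
  refine ⟨a * u.1 + b * u.2, a * u'.1 + b * u'.2, ?_⟩
  rw [← hab]
  conv_rhs => rw [h1, h2]
  ring

theorem chain_insert : ∀ (L : List V) (u v : V), ChFrom u L → 0 ≤ u.2 → IsCoprime v.1 v.2 →
    0 < v.2 → 0 < dt v u → ∃ L', ChFrom u L' ∧ (∀ z ∈ L, z ∈ L') ∧ v ∈ L'
  | [], u, v, hc, hu, hv, hv2, hvu => by
    have hd : dt (1, 0) u = 1 := by
      change u.2 = 1 at hc
      unfold dt; simp [hc]
    have hx : 0 < dt (1, 0) v := by unfold dt; simpa using hv2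
    obtain ⟨M, hM, hL⟩ := stern_brocot (dt (1, 0) v + dt v u).toNat u (1, 0) (dt (1, 0) v)
      (dt v u) (by omega) hd hu (by simp) hx hvu (decomp_coprime hd hv)
    rw [← decomp hd] at hM
    exact ⟨M, hL.chFrom, by simp, hM⟩
  | u' :: L, u, v, hc, hu, hv, hv2, hvu => by
    obtain ⟨hd, hu', hc'⟩ := hc
    rcases lt_trichotomy (dt u' v) 0 with hlt | heq | hgt
    · have hvu' : 0 < dt v u' := by unfold dt at *; linarith
      obtain ⟨L', h1, h2, h3⟩ := chain_insert L u' v hc' hu'.le hv hv2 hvu'
      refine ⟨u' :: L', ⟨hd, hu', h1⟩, ?_, by simp [h3]⟩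
      intro z hz
      rcases List.mem_cons.mp hz with rfl | hz
      · simp
      · simp [h2 z hz]
    · have hco := decomp_coprime hd hv
      rw [heq, isCoprime_zero_left] at hco
      have hy : dt v u = 1 := by
        rcases Int.isUnit_iff.mp hco with h | h <;> omega
      have hv' := decomp (v := v) hd
      rw [heq, hy] at hv'
      simp only [zero_mul, zero_add, one_mul] at hv'
      refine ⟨u' :: L, ⟨hd, hu', hc'⟩, fun z hz => hz, ?_⟩
      rw [hv']
      simp
    · obtain ⟨M, hM, hL⟩ := stern_brocot (dt u' v + dt v u).toNat u u' (dt u' v)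
        (dt v u) (by omega) hd hu hu'.le hgt hvu (decomp_coprime hd hv)
      rw [← decomp hd] at hM
      refine ⟨M ++ u' :: L, hL.append hu' hc', ?_, by simp [hM]⟩
      intro z hz
      exact List.mem_append_right _ hz

/-- the vector of a rational number -/
def vq (q : ℚ) : V := (q.num, (q.den : ℤ))

theorem vq_pos (q : ℚ) : 0 < (vq q).2 := by
  simp only [vq]
  exact_mod_cast q.pos

theorem vq_coprime (q : ℚ) : IsCoprime (vq q).1 (vq q).2 := by
  simp only [vq]
  rw [Int.isCoprime_iff_gcd_eq_one]
  have := q.reduced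
  simpa [Int.gcd, Nat.Coprime] using this

theorem vq_real (q : ℚ) : ((vq q).1 : ℝ) = (q : ℝ) * (vq q).2 := by
  simp only [vq]
  have h : (q.num : ℚ) = q * (q.den : ℤ) := by
    push_cast
    exact (Rat.mul_den_eq_num q).symm
  exact_mod_cast congrArg (fun x : ℚ => (x : ℝ)) h

theorem exists_chain (B : Finset ℚ) : ∃ L, ChFrom (-1, 0) L ∧ ∀ b ∈ B, vq b ∈ L := by
  classical
  induction B using Finset.induction_on with
  | empty => exact ⟨[(0, 1)], by simp [ChFrom, dt], by simp⟩
  | insert b B _ ih =>
    obtain ⟨L, hL, hB⟩ := ih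
    obtain ⟨L', h1, h2, h3⟩ := chain_insert L (-1, 0) (vq b) hL (by simp) (vq_coprime b)
      (vq_pos b) (by have := vq_pos b; unfold dt; simpa using this)
    refine ⟨L', h1, ?_⟩
    intro c hc
    rcases Finset.mem_insert.mp hc with rfl | hc
    · exact h3
    · exact h2 _ (hB c hc)

theorem chain_lt : ∀ (L : List V) (u z : V), ChFrom u L → 0 < u.2 → z ∈ L → 0 < dt z u
  | [], _, _, _, _, hz => by simp at hz
  | u' :: L, u, z, hc, hu, hz => by
    obtain ⟨hd, hu', hc'⟩ := hc
    rcases List.mem_cons.mp hz with rfl | hz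
    · omega
    · have h1 := chain_lt L u' z hc' hu' hz
      have hz2 : 0 < z.2 := by
        clear h1 hd
        induction L generalizing u' with
        | nil => simp at hz
        | cons a L ih =>
          rcases List.mem_cons.mp hz with rfl | hz
          · exact hc'.2.1
          · exact ih a (by simp [hz]) hc'.2.1 hc'.2.2 hz
      have key : dt z u * u'.2 = dt z u' * u.2 + dt u' u * z.2 := by unfold dt; ring
      have : 0 < dt z u * u'.2 := by
        rw [key, hd]
        have := mul_pos h1 hu
        omega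
      exact (mul_pos_iff_of_pos_right hu').mp this

end Pool.Agent.Helper53
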