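import Pool.Agent.Helper53.Elements

set_option autoImplicit false

namespace Pool.Agent.Helper53

open OnePoint

noncomputable def tau : HC := io tauR
noncomputable def XX : HC := io XR

theorem tau_pt (x y : ℝ) : tau (pt x y) = pt (x + y) y := by
  by_cases hy : y = 0
  · subst hy
    rw [pt_zero, pt_zero]
    rfl
  · rw [pt_ne hy, pt_ne hy]
    change ((x / y + 1 : ℝ) : Cir) = _
    congr 1
    field_simp

theorem seg_tau (u u' : V) : Seg tau u u' (u.1 + u.2, u.2) (u'.1 + u'.2, u'.2) := by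
  intro x y _ _ _
  rw [tau_pt]
  push_cast
  congr 1
  ring

theorem seg_tau' (u u' w w' : V) (h1 : w = (u.1 + u.2, u.2)) (h2 : w' = (u'.1 + u'.2, u'.2)) :
    Seg tau u u' w w' := by
  subst h1 h2
  exact seg_tau u u'

theorem seg_tau_inv (u u' w w' : V) (h1 : w = (u.1 - u.2, u.2)) (h2 : w' = (u'.1 - u'.2, u'.2)) :
    Seg tau⁻¹ u u' w w' := by
  subst h1 h2
  refine Seg.inv (seg_tau' _ _ _ _ ?_ ?_) <;> simp

/-- Proving that an extended order automorphism is linear on a cone. -/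
theorem seg_io {f : ℝ ≃o ℝ} {u u' w w' : V}
    (h : ∀ x y : ℝ, 0 ≤ x → 0 ≤ y → 0 < x + y →
      (x * u.2 + y * u'.2 = 0 ∧ x * w.2 + y * w'.2 = 0) ∨
      (x * u.2 + y * u'.2 ≠ 0 ∧ x * w.2 + y * w'.2 ≠ 0 ∧
        f ((x * u.1 + y * u'.1) / (x * u.2 + y * u'.2)) =
          (x * w.1 + y * w'.1) / (x * w.2 + y * w'.2))) :
    Seg (io f) u u' w w' := by
  intro x y hx hy hxy
  rcases h x y hx hy hxy with ⟨h1, h2⟩ | ⟨h1, h2, h3⟩
  · rw [h1, h2, pt_zero, pt_zero, io_infty]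
  · rw [pt_ne h1, pt_ne h2, io_coe, h3]

theorem segX1 : Seg XX (-1, 0) (0, 1) (-1, 0) (0, 1) := by
  refine seg_io fun x y hx hy hxy => ?_
  simp only [Int.cast_neg, Int.cast_one, Int.cast_zero, mul_zero, zero_add, mul_one, mul_neg,
    add_zero]
  rcases hy.lt_or_eq with h | h
  · right
    refine ⟨h.ne', h.ne', ?_⟩
    rw [XR_apply, XF_1]
    exact div_nonpos_of_nonpos_of_nonneg (by linarith) hy
  · left
    exact ⟨h.symm, h.symm⟩

theorem segX2 : Seg XX (0, 1) (1, 2) (0, 1) (1, 1) := by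
  refine seg_io fun x y hx hy hxy => ?_
  simp only [Int.cast_one, Int.cast_zero, mul_zero, zero_add, mul_one, Int.cast_ofNat]
  right
  have h1 : 0 < x + y * 2 := by linarith
  refine ⟨h1.ne', hxy.ne', ?_⟩
  have h2 : 0 < x + y * 2 - y := by linarith
  rw [XR_apply, XF_2 (by positivity) (by rw [div_le_div_iff₀ h1 two_pos]; linarith)]
  rw [div_eq_div_iff ?_ hxy.ne']
  · field_simp
    ring
  · have : 1 - y / (x + y * 2) = (x + y) / (x + y * 2) := by field_simp; ring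
    rw [this]
    positivity

theorem segX3 : Seg XX (1, 2) (1, 1) (1, 1) (2, 1) := by
  refine seg_io fun x y hx hy hxy => ?_
  simp only [Int.cast_one, mul_one, Int.cast_ofNat]
  right
  have h1 : 0 < x * 2 + y := by linarith
  refine ⟨h1.ne', hxy.ne', ?_⟩
  rw [XR_apply, XF_3 (by rw [div_le_div_iff₀ two_pos h1]; linarith)
    (by rw [div_le_one h1]; linarith)]
  rw [div_eq_div_iff ?_ hxy.ne']
  · field_simp
    ring
  · positivity

theorem segX4 : Seg XX (1, 1) (1, 0) (2, 1) (1, 0) := by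
  refine seg_io fun x y hx hy hxy => ?_
  simp only [Int.cast_one, mul_one, Int.cast_ofNat, Int.cast_zero, mul_zero, add_zero]
  rcases hx.lt_or_eq with h | h
  · right
    refine ⟨h.ne', h.ne', ?_⟩
    rw [XR_apply, XF_4 (by rw [le_div_iff₀ h]; linarith)]
    field_simp
    ring
  · left
    exact ⟨h.symm, h.symm⟩

theorem segP1 : Seg (io PR) (-1, 0) (0, 1) (-1, 0) (-1, 1) := by
  refine seg_io fun x y hx hy hxy => ?_
  simp only [Int.cast_neg, Int.cast_one, Int.cast_zero, mul_zero, zero_add, mul_one, mul_neg,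
    add_zero]
  rcases hy.lt_or_eq with h | h
  · right
    refine ⟨h.ne', h.ne', ?_⟩
    rw [PR_apply, PF_1 (div_nonpos_of_nonpos_of_nonneg (by linarith) hy)]
    field_simp
    ring
  · left
    exact ⟨h.symm, h.symm⟩

theorem segP3 : Seg (io PR) (15, 1) (16, 1) (-1, 16) (0, 1) := by
  refine seg_io fun x y hx hy hxy => ?_
  simp only [Int.cast_neg, Int.cast_one, Int.cast_zero, mul_zero, mul_one, mul_neg,
    add_zero, Int.cast_ofNat]
  right
  have h1 : 0 < x * 16 + y := by linarith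
  refine ⟨hxy.ne', h1.ne', ?_⟩
  rw [PR_apply, PF_3 (by rw [le_div_iff₀ hxy]; linarith) (by rw [div_le_iff₀ hxy]; linarith)]
  rw [div_eq_div_iff ?_ h1.ne']
  · field_simp
    ring
  · have : 241 - 15 * ((x * 15 + y * 16) / (x + y)) = (x * 16 + y) / (x + y) := by
      field_simp; ring
    rw [this]
    positivity

theorem segP4 : Seg (io PR) (16, 1) (1, 0) (0, 1) (1, 0) := by
  refine seg_io fun x y hx hy hxy => ?_
  simp only [Int.cast_one, mul_one, Int.cast_ofNat, Int.cast_zero, mul_zero, add_zero, zero_add]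
  rcases hx.lt_or_eq with h | h
  · right
    refine ⟨h.ne', h.ne', ?_⟩
    rw [PR_apply, PF_4 (by rw [le_div_iff₀ h]; linarith)]
    field_simp
    ring
  · left
    exact ⟨h.symm, h.symm⟩

theorem seg_gam {u u' : V} (hD : u.1 * u'.2 - u.2 * u'.1 ≠ 0) :
    Seg gam u u' (-u.2, u.1) (-u'.2, u'.1) := by
  intro x y hx hy hxy
  rw [gam_pt]
  · push_cast
    congr 1
    ring
  · by_contra hcon
    push Not at hcon
    obtain ⟨h1, h2⟩ := hcon
    have hD' : (u.1 * u'.2 - u.2 * u'.1 : ℝ) ≠ 0 := by exact_mod_cast hD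
    have hx0 : x = 0 := by
      have : x * (u.1 * u'.2 - u.2 * u'.1 : ℝ) = 0 := by
        linear_combination (u'.2 : ℝ) * h1 - (u'.1 : ℝ) * h2
      exact (mul_eq_zero.mp this).resolve_right hD'
    have hy0 : y = 0 := by
      have : y * (u.1 * u'.2 - u.2 * u'.1 : ℝ) = 0 := by
        linear_combination (u.1 : ℝ) * h2 - (u.2 : ℝ) * h1
      exact (mul_eq_zero.mp this).resolve_right hD'
    subst hx0 hy0
    simp at hxy

theorem segR1 : Seg rot (-1, 0) (0, 1) (0, 1) (1, 1) := by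
  have := (segP1.comp (seg_gam (u := (-1, 0)) (u' := (-1, 1)) (by norm_num))).neg_right
  simpa [rot] using this

theorem segR3 : Seg rot (15, 1) (16, 1) (16, 1) (1, 0) := by
  have := (segP3.comp (seg_gam (u := (-1, 16)) (u' := (0, 1)) (by norm_num))).neg_right
  simpa [rot] using this

theorem segR4 : Seg rot (16, 1) (1, 0) (1, 0) (0, -1) := by
  have := (segP4.comp (seg_gam (u := (0, 1)) (u' := (1, 0)) (by norm_num))).neg_right
  simpa [rot] using this

theorem rot_zone {t : ℝ} (h0 : 0 ≤ t) (h1 : t ≤ 15) : rot (t : Cir) = ((t + 1 : ℝ) : Cir) := by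
  change gam (io PR (t : Cir)) = _
  have ht : t + 1 ≠ 0 := by linarith
  rw [io_coe, PR_apply, PF_2 h0 h1, ← pt_ne ht, gam_pt _ _ (Or.inl (by norm_num)), ← pt_neg,
    neg_neg, neg_neg, pt_one]

theorem segR2 {u u' : V} (h1 : 0 ≤ u.1) (h2 : u.1 ≤ 15 * u.2) (h3 : 0 < u.2)
    (h1' : 0 ≤ u'.1) (h2' : u'.1 ≤ 15 * u'.2) (h3' : 0 < u'.2) :
    Seg rot u u' (u.1 + u.2, u.2) (u'.1 + u'.2, u'.2) := by
  intro x y hx hy hxy
  have c1 : (0 : ℝ) ≤ u.1 := by exact_mod_cast h1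
  have c2 : (u.1 : ℝ) ≤ 15 * u.2 := by exact_mod_cast h2
  have c3 : (1 : ℝ) ≤ u.2 := by exact_mod_cast h3
  have c1' : (0 : ℝ) ≤ u'.1 := by exact_mod_cast h1'
  have c2' : (u'.1 : ℝ) ≤ 15 * u'.2 := by exact_mod_cast h2'
  have c3' : (1 : ℝ) ≤ u'.2 := by exact_mod_cast h3'
  have hd : 0 < x * u.2 + y * u'.2 := by nlinarith
  rw [pt_ne hd.ne', rot_zone (by positivity) (by rw [div_le_iff₀ hd]; nlinarith)]
  push_cast
  rw [pt_ne hd.ne']
  congr 1
  field_simp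
  ring

theorem segR2' {u u' : V} (w w' : V) (h1 : 0 ≤ u.1) (h2 : u.1 ≤ 15 * u.2) (h3 : 0 < u.2)
    (h1' : 0 ≤ u'.1) (h2' : u'.1 ≤ 15 * u'.2) (h3' : 0 < u'.2) (e1 : w = (u.1 + u.2, u.2))
    (e2 : w' = (u'.1 + u'.2, u'.2)) : Seg rot u u' w w' := by
  subst e1 e2
  exact segR2 h1 h2 h3 h1' h2' h3'

/-! ### the elements `c3`, `c4` -/

noncomputable def c3 : HC := tau * (tau * (XX⁻¹ * (tau⁻¹ * (tau⁻¹ * XX))))
noncomputable def c4 : HC := tau * (tau * (tau * (XX⁻¹ * (tau⁻¹ * (tau⁻¹ * (tau⁻¹ * XX))))))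

theorem seg_c3 {u u' w w' z z' y y' : V} (h1 : Seg XX u u' w w')
    (h2 : Seg XX z z' (w.1 - 2 * w.2, w.2) (w'.1 - 2 * w'.2, w'.2))
    (h3 : y = (z.1 + 2 * z.2, z.2)) (h4 : y' = (z'.1 + 2 * z'.2, z'.2)) :
    Seg c3 u u' y y' := by
  have h2' : Seg XX⁻¹ (w.1 - w.2 - w.2, w.2) (w'.1 - w'.2 - w'.2, w'.2) z z' := by
    refine Seg.inv ?_
    convert h2 using 2 <;> ring
  have e3 : y = (z.1 + z.2 + z.2, z.2) := by rw [h3]; congr 1; ring
  have e4 : y' = (z'.1 + z'.2 + z'.2, z'.2) := by rw [h4]; congr 1; ring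
  exact ((((h1.comp (seg_tau_inv _ _ _ _ rfl rfl)).comp (seg_tau_inv _ _ _ _ rfl rfl)).comp
    h2').comp (seg_tau' _ _ _ _ rfl rfl)).comp (seg_tau' _ _ _ _ e3 e4)

theorem seg_c4 {u u' w w' z z' y y' : V} (h1 : Seg XX u u' w w')
    (h2 : Seg XX z z' (w.1 - 3 * w.2, w.2) (w'.1 - 3 * w'.2, w'.2))
    (h3 : y = (z.1 + 3 * z.2, z.2)) (h4 : y' = (z'.1 + 3 * z'.2, z'.2)) :
    Seg c4 u u' y y' := by
  have h2' : Seg XX⁻¹ (w.1 - w.2 - w.2 - w.2, w.2) (w'.1 - w'.2 - w'.2 - w'.2, w'.2) z z' := by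
    refine Seg.inv ?_
    convert h2 using 2 <;> ring
  have e3 : y = (z.1 + z.2 + z.2 + z.2, z.2) := by rw [h3]; congr 1; ring
  have e4 : y' = (z'.1 + z'.2 + z'.2 + z'.2, z'.2) := by rw [h4]; congr 1; ring
  exact (((((h1.comp (seg_tau_inv _ _ _ _ rfl rfl)).comp (seg_tau_inv _ _ _ _ rfl rfl)).comp
    (seg_tau_inv _ _ _ _ rfl rfl)).comp
    h2').comp (seg_tau' _ _ _ _ rfl rfl)).comp (seg_tau' _ _ _ _ rfl rfl) |>.comp
      (seg_tau' _ _ _ _ e3 e4)

/-- `XX` is the identity on negative reals. -/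
theorem segX1' {u u' : V} (a b a' b' : ℕ) (hab : 0 < a + b) (hab' : 0 < a' + b')
    (e1 : u = (-(a : ℤ), (b : ℤ))) (e2 : u' = (-(a' : ℤ), (b' : ℤ))) : Seg XX u u' u u' := by
  refine segX1.sub' a b a' b' _ _ _ _ hab hab' ?_ ?_ ?_ ?_ <;> simp [e1, e2]

/-- `XX` is a translation on reals greater than one. -/
theorem segX4' {u u' w w' : V} (a b a' b' : ℕ) (hab : 0 < a + b) (hab' : 0 < a' + b')
    (e1 : u = ((a : ℤ) + b, (a : ℤ))) (e2 : u' = ((a' : ℤ) + b', (a' : ℤ)))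
    (e3 : w = (2 * (a : ℤ) + b, (a : ℤ))) (e4 : w' = (2 * (a' : ℤ) + b', (a' : ℤ))) :
    Seg XX u u' w w' := by
  refine segX4.sub' a b a' b' _ _ _ _ hab hab' ?_ ?_ ?_ ?_ <;> simp [e1, e2, e3, e4, mul_comm]

theorem c3_0 : Seg c3 (-1, 0) (0, 1) (-1, 0) (0, 1) := by
  refine seg_c3 segX1 (z := (-1, 0)) (z' := (-2, 1)) ?_ rfl rfl
  exact segX1' 1 0 2 1 (by norm_num) (by norm_num) rfl rfl
theorem c3_1 : Seg c3 (0, 1) (1, 2) (0, 1) (1, 1) := by
  refine seg_c3 segX2 (z := (-2, 1)) (z' := (-1, 1)) ?_ rfl rfl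
  exact segX1' 2 1 1 1 (by norm_num) (by norm_num) rfl rfl
theorem c3_2 : Seg c3 (1, 2) (1, 1) (1, 1) (2, 1) := by
  refine seg_c3 segX3 (z := (-1, 1)) (z' := (0, 1)) ?_ rfl rfl
  exact segX1' 1 1 0 1 (by norm_num) (by norm_num) rfl rfl
theorem c3_3 : Seg c3 (1, 1) (2, 1) (2, 1) (5, 2) := by
  refine seg_c3 (segX4' (w := (2, 1)) (w' := (3, 1)) 1 0 1 1 (by norm_num) (by norm_num)
    rfl rfl rfl rfl) (z := (0, 1)) (z' := (1, 2)) ?_ rfl rfl
  exact segX2
theorem c3_4 : Seg c3 (2, 1) (3, 1) (5, 2) (3, 1) := by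
  refine seg_c3 (segX4' (w := (3, 1)) (w' := (4, 1)) 1 1 1 2 (by norm_num) (by norm_num)
    rfl rfl rfl rfl) (z := (1, 2)) (z' := (1, 1)) ?_ rfl rfl
  exact segX3
theorem c3_5 : Seg c3 (3, 1) (1, 0) (3, 1) (1, 0) := by
  refine seg_c3 (segX4' (w := (4, 1)) (w' := (1, 0)) 1 2 0 1 (by norm_num) (by norm_num)
    rfl rfl rfl rfl) (z := (1, 1)) (z' := (1, 0)) ?_ rfl rfl
  exact segX4

theorem c4_0 : Seg c4 (-1, 0) (0, 1) (-1, 0) (0, 1) := by
  refine seg_c4 segX1 (z := (-1, 0)) (z' := (-3, 1)) ?_ rfl rfl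
  exact segX1' 1 0 3 1 (by norm_num) (by norm_num) rfl rfl
theorem c4_1 : Seg c4 (0, 1) (1, 2) (0, 1) (1, 1) := by
  refine seg_c4 segX2 (z := (-3, 1)) (z' := (-2, 1)) ?_ rfl rfl
  exact segX1' 3 1 2 1 (by norm_num) (by norm_num) rfl rfl
theorem c4_2 : Seg c4 (1, 2) (1, 1) (1, 1) (2, 1) := by
  refine seg_c4 segX3 (z := (-2, 1)) (z' := (-1, 1)) ?_ rfl rfl
  exact segX1' 2 1 1 1 (by norm_num) (by norm_num) rfl rfl
theorem c4_3 : Seg c4 (1, 1) (2, 1) (2, 1) (3, 1) := by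
  refine seg_c4 (segX4' (w := (2, 1)) (w' := (3, 1)) 1 0 1 1 (by norm_num) (by norm_num)
    rfl rfl rfl rfl) (z := (-1, 1)) (z' := (0, 1)) ?_ rfl rfl
  exact segX1' 1 1 0 1 (by norm_num) (by norm_num) rfl rfl
theorem c4_4 : Seg c4 (2, 1) (3, 1) (3, 1) (7, 2) := by
  refine seg_c4 (segX4' (w := (3, 1)) (w' := (4, 1)) 1 1 1 2 (by norm_num) (by norm_num)
    rfl rfl rfl rfl) (z := (0, 1)) (z' := (1, 2)) ?_ rfl rfl
  exact segX2
theorem c4_5 : Seg c4 (3, 1) (4, 1) (7, 2) (4, 1) := by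
  refine seg_c4 (segX4' (w := (4, 1)) (w' := (5, 1)) 1 2 1 3 (by norm_num) (by norm_num)
    rfl rfl rfl rfl) (z := (1, 2)) (z' := (1, 1)) ?_ rfl rfl
  exact segX3
theorem c4_6 : Seg c4 (4, 1) (1, 0) (4, 1) (1, 0) := by
  refine seg_c4 (segX4' (w := (5, 1)) (w' := (1, 0)) 1 3 0 1 (by norm_num) (by norm_num)
    rfl rfl rfl rfl) (z := (1, 1)) (z' := (1, 0)) ?_ rfl rfl
  exact segX4

/-! ### the two relations -/

theorem seg_rot3 {u u' w w' z z' y y' : V} (h1 : Seg rot u u' w w') (h2 : Seg rot w w' z z')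
    (h3 : Seg rot z z' y y') : Seg (rot * (rot * rot)) u u' y y' := (h1.comp h2).comp h3

/-- Both sides of a relation agree on a cone. -/
def Same (h k : HC) (u u' : V) : Prop := ∃ w w' : V, Seg h u u' w w' ∧ Seg k u u' w w'

theorem Same.agree {h k : HC} {u u' : V} (hs : Same h k u u')
    {t : ℝ} (c1 : 0 ≤ (u'.1 : ℝ) - u'.2 * t) (c2 : 0 ≤ u.2 * t - u.1)
    (hD : 0 < (u'.1 : ℝ) * u.2 - u'.2 * u.1) : h (t : Cir) = k (t : Cir) := by
  obtain ⟨w, w', h1, h2⟩ := hs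
  exact h1.agree h2 c1 c2 hD

theorem Same.infty {h k : HC} {u : V} (hs : Same h k u (1, 0)) : h ∞ = k ∞ := by
  obtain ⟨w, w', h1, h2⟩ := hs
  have e1 := h1.eval_right
  have e2 := h2.eval_right
  simp only [Int.cast_one, Int.cast_zero, pt_zero] at e1 e2
  rw [e1, e2]

theorem segR1n : Seg rot (1, 0) (0, -1) (0, 1) (1, 1) := by
  simpa using segR1.neg_left

theorem segR1a : Seg rot (-1, 0) (-1, 1) (0, 1) (1, 2) :=
  segR1.sub' 1 0 1 1 _ _ _ _ (by norm_num) (by norm_num) rfl rfl rfl rfl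
theorem segR1b : Seg rot (-1, 1) (0, 1) (1, 2) (1, 1) :=
  segR1.sub' 1 1 0 1 _ _ _ _ (by norm_num) (by norm_num) rfl rfl rfl rfl
theorem segR4a : Seg rot (16, 1) (17, 1) (1, 0) (1, -1) :=
  segR4.sub' 1 0 1 1 _ _ _ _ (by norm_num) (by norm_num) rfl rfl rfl rfl
theorem segR4b : Seg rot (17, 1) (1, 0) (1, -1) (0, -1) :=
  segR4.sub' 1 1 0 1 _ _ _ _ (by norm_num) (by norm_num) rfl rfl rfl rfl
theorem segR1an : Seg rot (1, 0) (1, -1) (0, 1) (1, 2) := by
  simpa using segR1a.neg_left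
theorem segR1bn : Seg rot (1, -1) (0, -1) (1, 2) (1, 1) := by
  simpa using segR1b.neg_left

/-- the part common to both relations, to the right of 13 -/
theorem tail_segs (c : HC) (k : HC)
    (hk1 : Seg k (13, 1) (14, 1) (14, 1) (15, 1)) (hk2 : Seg k (14, 1) (15, 1) (15, 1) (16, 1))
    (hk3 : Seg k (15, 1) (16, 1) (16, 1) (17, 1)) (hk4 : Seg k (16, 1) (1, 0) (17, 1) (1, 0))
    (hc1 : Seg c (16, 1) (1, 0) (16, 1) (1, 0)) (hc2 : Seg c (1, 0) (0, -1) (1, 0) (0, -1))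
    (hc3 : Seg c (0, 1) (1, 2) (0, 1) (1, 1)) (hc4 : Seg c (1, 2) (1, 1) (1, 1) (2, 1)) :
    Same (c * (rot * (rot * k))) (rot * (rot * rot)) (13, 1) (14, 1) ∧
    Same (c * (rot * (rot * k))) (rot * (rot * rot)) (14, 1) (15, 1) ∧
    Same (c * (rot * (rot * k))) (rot * (rot * rot)) (15, 1) (16, 1) ∧
    Same (c * (rot * (rot * k))) (rot * (rot * rot)) (16, 1) (1, 0) := by
  have r13 : Seg rot (13, 1) (14, 1) (14, 1) (15, 1) := segR2 (by norm_num) (by norm_num)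
    (by norm_num) (by norm_num) (by norm_num) (by norm_num)
  have r14 : Seg rot (14, 1) (15, 1) (15, 1) (16, 1) := segR2 (by norm_num) (by norm_num)
    (by norm_num) (by norm_num) (by norm_num) (by norm_num)
  have r0 : Seg rot (0, 1) (1, 1) (1, 1) (2, 1) := segR2 (by norm_num) (by norm_num)
    (by norm_num) (by norm_num) (by norm_num) (by norm_num)
  refine ⟨⟨_, _, ((hk1.comp r14).comp segR3).comp hc1, (r13.comp r14).comp segR3⟩,
    ⟨_, _, ((hk2.comp segR3).comp segR4).comp hc2, (r14.comp segR3).comp segR4⟩,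
    ⟨_, _, ((hk3.comp segR4a).comp segR1an).comp hc3, (segR3.comp segR4).comp segR1n⟩,
    ⟨_, _, ((hk4.comp segR4b).comp segR1bn).comp hc4, (segR4.comp segR1n).comp r0⟩⟩

theorem rel2 : c3 * (rot * (rot * tau)) = rot * (rot * rot) := by
  obtain ⟨t1, t2, t3, t4⟩ := tail_segs c3 tau (seg_tau' _ _ _ _ rfl rfl) (seg_tau' _ _ _ _ rfl rfl)
    (seg_tau' _ _ _ _ rfl rfl) (seg_tau' _ _ _ _ rfl rfl)
    (c3_5.sub' 1 13 0 1 _ _ _ _ (by norm_num) (by norm_num) rfl rfl rfl rfl)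
    (by simpa using c3_0.neg_left.neg_right) c3_1 c3_2
  have r0 : Seg rot (0, 1) (1, 1) (1, 1) (2, 1) := segR2 (by norm_num) (by norm_num)
    (by norm_num) (by norm_num) (by norm_num) (by norm_num)
  have r1 : Seg rot (1, 1) (2, 1) (2, 1) (3, 1) := segR2 (by norm_num) (by norm_num)
    (by norm_num) (by norm_num) (by norm_num) (by norm_num)
  have s1 : Same (c3 * (rot * (rot * tau))) (rot * (rot * rot)) (-1, 0) (-1, 1) :=
    ⟨_, _, (((seg_tau' (-1, 0) (-1, 1) (-1, 0) (0, 1) rfl rfl).comp segR1).comp r0).comp c3_3,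
      (segR1a.comp (segR2' (1, 1) (3, 2) (by norm_num) (by norm_num) (by norm_num) (by norm_num)
        (by norm_num) (by norm_num) rfl rfl)).comp (segR2' (2, 1) (5, 2) (by norm_num)
        (by norm_num) (by norm_num) (by norm_num) (by norm_num) (by norm_num) rfl rfl)⟩
  have s2 : Same (c3 * (rot * (rot * tau))) (rot * (rot * rot)) (-1, 1) (0, 1) :=
    ⟨_, _, (((seg_tau' (-1, 1) (0, 1) (0, 1) (1, 1) rfl rfl).comp r0).comp r1).comp c3_4,
      (segR1b.comp (segR2' (3, 2) (2, 1) (by norm_num) (by norm_num) (by norm_num) (by norm_num)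
        (by norm_num) (by norm_num) rfl rfl)).comp (segR2' (5, 2) (3, 1) (by norm_num)
        (by norm_num) (by norm_num) (by norm_num) (by norm_num) (by norm_num) rfl rfl)⟩
  have s3 : Same (c3 * (rot * (rot * tau))) (rot * (rot * rot)) (0, 1) (13, 1) := by
    refine ⟨(3, 1), (16, 1), (((seg_tau' (0, 1) (13, 1) (1, 1) (14, 1) rfl rfl).comp
      (segR2' (2, 1) (15, 1) ?_ ?_ ?_ ?_ ?_ ?_ rfl rfl)).comp
      (segR2' (3, 1) (16, 1) ?_ ?_ ?_ ?_ ?_ ?_ rfl rfl)).comp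
      (c3_5.sub' 1 0 1 13 _ _ _ _ (by norm_num) (by norm_num) rfl rfl rfl rfl),
      ((segR2' (1, 1) (14, 1) ?_ ?_ ?_ ?_ ?_ ?_ rfl rfl).comp
      (segR2' (2, 1) (15, 1) ?_ ?_ ?_ ?_ ?_ ?_ rfl rfl)).comp
      (segR2' (3, 1) (16, 1) ?_ ?_ ?_ ?_ ?_ ?_ rfl rfl)⟩ <;> norm_num
  ext z
  induction z using OnePoint.rec with
  | infty => exact t4.infty
  | coe t =>
    rcases le_total t (-1) with h | h
    · exact s1.agree (by simp; linarith) (by simp) (by simp)
    rcases le_total t 0 with h' | h'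
    · exact s2.agree (by simp; linarith) (by simp; linarith) (by simp)
    rcases le_total t 13 with h2 | h2
    · exact s3.agree (by simp; linarith) (by simp; linarith) (by simp)
    rcases le_total t 14 with h3 | h3
    · exact t1.agree (by simp; linarith) (by simp; linarith) (by norm_num)
    rcases le_total t 15 with h4 | h4
    · exact t2.agree (by simp; linarith) (by simp; linarith) (by norm_num)
    rcases le_total t 16 with h5 | h5
    · exact t3.agree (by simp; linarith) (by simp; linarith) (by norm_num)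
    · exact t4.agree (by simp) (by simp; linarith) (by norm_num)

theorem rel3 : c4 * (rot * (rot * XX)) = rot * (rot * rot) := by
  obtain ⟨t1, t2, t3, t4⟩ := tail_segs c4 XX
    (segX4' 1 12 1 13 (by norm_num) (by norm_num) rfl rfl rfl rfl)
    (segX4' 1 13 1 14 (by norm_num) (by norm_num) rfl rfl rfl rfl)
    (segX4' 1 14 1 15 (by norm_num) (by norm_num) rfl rfl rfl rfl)
    (segX4' 1 15 0 1 (by norm_num) (by norm_num) rfl rfl rfl rfl)
    (c4_6.sub' 1 12 0 1 _ _ _ _ (by norm_num) (by norm_num) rfl rfl rfl rfl)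
    (by simpa using c4_0.neg_left.neg_right) c4_1 c4_2
  have r0 : Seg rot (0, 1) (1, 1) (1, 1) (2, 1) := segR2 (by norm_num) (by norm_num)
    (by norm_num) (by norm_num) (by norm_num) (by norm_num)
  have r1 : Seg rot (1, 1) (2, 1) (2, 1) (3, 1) := segR2 (by norm_num) (by norm_num)
    (by norm_num) (by norm_num) (by norm_num) (by norm_num)
  have r2 : Seg rot (2, 1) (3, 1) (3, 1) (4, 1) := segR2 (by norm_num) (by norm_num)
    (by norm_num) (by norm_num) (by norm_num) (by norm_num)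
  have s1 : Same (c4 * (rot * (rot * XX))) (rot * (rot * rot)) (-1, 0) (0, 1) :=
    ⟨_, _, ((segX1.comp segR1).comp r0).comp c4_3, (segR1.comp r0).comp r1⟩
  have s2 : Same (c4 * (rot * (rot * XX))) (rot * (rot * rot)) (0, 1) (1, 2) := by
    refine ⟨_, _, ((segX2.comp r0).comp r1).comp c4_4,
      ((segR2' (1, 1) (3, 2) ?_ ?_ ?_ ?_ ?_ ?_ rfl rfl).comp
      (segR2' (2, 1) (5, 2) ?_ ?_ ?_ ?_ ?_ ?_ rfl rfl)).comp
      (segR2' (3, 1) (7, 2) ?_ ?_ ?_ ?_ ?_ ?_ rfl rfl)⟩ <;> norm_num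
  have s3 : Same (c4 * (rot * (rot * XX))) (rot * (rot * rot)) (1, 2) (1, 1) := by
    refine ⟨_, _, ((segX3.comp r1).comp r2).comp c4_5,
      ((segR2' (3, 2) (2, 1) ?_ ?_ ?_ ?_ ?_ ?_ rfl rfl).comp
      (segR2' (5, 2) (3, 1) ?_ ?_ ?_ ?_ ?_ ?_ rfl rfl)).comp
      (segR2' (7, 2) (4, 1) ?_ ?_ ?_ ?_ ?_ ?_ rfl rfl)⟩ <;> norm_num
  have s4 : Same (c4 * (rot * (rot * XX))) (rot * (rot * rot)) (1, 1) (13, 1) := by
    refine ⟨(4, 1), (16, 1), (((segX4' (u := (1, 1)) (u' := (13, 1)) (w := (2, 1))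
      (w' := (14, 1)) 1 0 1 12 (by norm_num) (by norm_num) rfl rfl rfl rfl).comp
      (segR2' (3, 1) (15, 1) ?_ ?_ ?_ ?_ ?_ ?_ rfl rfl)).comp
      (segR2' (4, 1) (16, 1) ?_ ?_ ?_ ?_ ?_ ?_ rfl rfl)).comp
      (c4_6.sub' 1 0 1 12 _ _ _ _ (by norm_num) (by norm_num) rfl rfl rfl rfl),
      ((segR2' (2, 1) (14, 1) ?_ ?_ ?_ ?_ ?_ ?_ rfl rfl).comp
      (segR2' (3, 1) (15, 1) ?_ ?_ ?_ ?_ ?_ ?_ rfl rfl)).comp
      (segR2' (4, 1) (16, 1) ?_ ?_ ?_ ?_ ?_ ?_ rfl rfl)⟩ <;> norm_num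
  ext z
  induction z using OnePoint.rec with
  | infty => exact t4.infty
  | coe t =>
    rcases le_total t 0 with h | h
    · exact s1.agree (by simp; linarith) (by simp) (by simp)
    rcases le_total t (1/2) with h' | h'
    · exact s2.agree (by simp; linarith) (by simp; linarith) (by simp)
    rcases le_total t 1 with h1 | h1
    · exact s3.agree (by simp; linarith) (by simp; linarith) (by norm_num)
    rcases le_total t 13 with h2 | h2
    · exact s4.agree (by simp; linarith) (by simp; linarith) (by norm_num)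
    rcases le_total t 14 with h3 | h3
    · exact t1.agree (by simp; linarith) (by simp; linarith) (by norm_num)
    rcases le_total t 15 with h4 | h4
    · exact t2.agree (by simp; linarith) (by simp; linarith) (by norm_num)
    rcases le_total t 16 with h5 | h5
    · exact t3.agree (by simp; linarith) (by simp; linarith) (by norm_num)
    · exact t4.agree (by simp) (by simp; linarith) (by norm_num)

end Pool.Agent.Helper53
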