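import Pool.Agent.Helper53.TGen
import Pool.Agent.Helper53.Comm

set_option autoImplicit false

namespace Pool.Agent.Helper53

open OnePoint Filter Topology Matrix

/-- a real whose image under an integral matrix is rational or infinite is rational -/
theorem rational_of_pt {g : SpecialLinearGroup (Fin 2) ℤ} {t : ℝ} {x y : ℚ} (hxy : x ≠ 0 ∨ y ≠ 0)
    (h : ((g 0 0 : ℤ) * t + (g 0 1 : ℤ)) * y = ((g 1 0 : ℤ) * t + (g 1 1 : ℤ)) * x) :
    ∃ q : ℚ, (q : ℝ) = t := by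
  have hg := gdetR g
  have hgq : ((g 0 0 : ℤ) : ℚ) * (g 1 1 : ℤ) - (g 0 1 : ℤ) * (g 1 0 : ℤ) = 1 := by
    exact_mod_cast gdet g
  have hne : ((g 0 0 : ℤ) : ℚ) * y - (g 1 0 : ℤ) * x ≠ 0 := by
    intro h0
    have h0' : ((g 0 0 : ℤ) : ℝ) * y - (g 1 0 : ℤ) * x = 0 := by exact_mod_cast h0
    have h1 : ((g 0 1 : ℤ) : ℝ) * y - (g 1 1 : ℤ) * x = 0 := by
      linear_combination h - t * h0'
    have hx : (x : ℝ) = 0 := by
      linear_combination (-(x : ℝ)) * hg + ((g 0 1 : ℤ) : ℝ) * h0' - ((g 0 0 : ℤ) : ℝ) * h1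
    have hy : (y : ℝ) = 0 := by
      linear_combination (-(y : ℝ)) * hg + ((g 1 1 : ℤ) : ℝ) * h0' - ((g 1 0 : ℤ) : ℝ) * h1
    have hx' : x = 0 := by exact_mod_cast hx
    have hy' : y = 0 := by exact_mod_cast hy
    rcases hxy with h | h
    · exact h hx'
    · exact h hy'
  refine ⟨(((g 1 1 : ℤ) : ℚ) * x - (g 0 1 : ℤ) * y) / (((g 0 0 : ℤ) : ℚ) * y - (g 1 0 : ℤ) * x), ?_⟩
  have hne' : ((g 0 0 : ℤ) : ℝ) * y - (g 1 0 : ℤ) * x ≠ 0 := by exact_mod_cast hne
  push_cast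
  rw [div_eq_iff hne']
  linear_combination -h

theorem mul_mem_PPSL {f h : HC} (hf : f ∈ PPSL) (hh : h ∈ PPSL) : h * f ∈ PPSL := by
  classical
  obtain ⟨B, hB⟩ := hf
  obtain ⟨C, hC⟩ := hh
  have hinj : Function.Injective (fun q : ℚ => f ((q : ℝ) : Cir)) := by
    intro a b hab
    have := f.injective hab
    have := OnePoint.coe_injective this
    exact_mod_cast this
  set T : Finset Cir := insert ∞ (C.image (fun q : ℚ => ((q : ℝ) : Cir))) with hT
  set B' : Finset ℚ := T.preimage (fun q : ℚ => f ((q : ℝ) : Cir)) hinj.injOn with hB'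
  refine ⟨B ∪ B', ?_⟩
  intro I hI hav
  obtain ⟨g1, hg1⟩ := hB I hI (fun q hq => hav q (Finset.mem_union_left _ hq))
  -- image never infinite
  have hratI : ∀ t ∈ I, f (t : Cir) ∉ T := by
    intro t ht hmem
    have key : ∃ q : ℚ, (q : ℝ) = t := by
      have e := hg1 t ht
      rw [smul_real] at e
      rw [hT, Finset.mem_insert, Finset.mem_image] at hmem
      rcases hmem with h | ⟨c, _, hc⟩
      · rw [h, eq_comm, pt_eq_infty_iff] at e
        exact rational_of_pt (g := g1) (x := 1) (y := 0) (Or.inl one_ne_zero) (by simp [e])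
      · rw [← hc, eq_comm, pt_eq_coe_iff] at e
        exact rational_of_pt (g := g1) (x := c) (y := 1) (Or.inr one_ne_zero) (by
          push_cast; linear_combination e.2)
    obtain ⟨q, rfl⟩ := key
    refine hav q (Finset.mem_union_right _ ?_) ht
    rw [hB', Finset.mem_preimage]
    exact hmem
  have hden : ∀ t ∈ I, ((g1 1 0 : ℤ) : ℝ) * t + (g1 1 1 : ℤ) ≠ 0 := by
    intro t ht h0
    apply hratI t ht
    rw [hg1 t ht, smul_real, pt_eq_infty_iff.mpr h0, hT]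
    exact Finset.mem_insert_self _ _
  set φ : ℝ → ℝ := fun t => (((g1 0 0 : ℤ) : ℝ) * t + (g1 0 1 : ℤ)) / (((g1 1 0 : ℤ) : ℝ) * t + (g1 1 1 : ℤ)) with hφ
  have hfφ : ∀ t ∈ I, f (t : Cir) = ((φ t : ℝ) : Cir) := by
    intro t ht
    rw [hg1 t ht, smul_real, pt_ne (hden t ht)]
  have hcont : ContinuousOn φ I := by
    refine ContinuousOn.div (by fun_prop) (by fun_prop) hden
  have hJ : (φ '' I).OrdConnected := by
    have h1 : IsPreconnected I := isPreconnected_iff_ordConnected.mpr hI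
    exact (h1.image φ hcont).ordConnected
  obtain ⟨g2, hg2⟩ := hC (φ '' I) hJ (by
    rintro q hq ⟨t, ht, e⟩
    apply hratI t ht
    rw [hfφ t ht, e, hT]
    exact Finset.mem_insert_of_mem (Finset.mem_image_of_mem _ hq))
  refine ⟨g2 * g1, ?_⟩
  intro t ht
  rw [Homeomorph.mul_apply, map_mul, mul_smul, ← hg1 t ht, hfφ t ht]
  exact hg2 _ ⟨t, ht, rfl⟩

theorem split_lt {I : Set ℝ} (hI : I.OrdConnected) {b : ℝ} (hb : b ∉ I) :
    (∀ t ∈ I, t < b) ∨ (∀ t ∈ I, b < t) := by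
  by_contra hcon
  push Not at hcon
  obtain ⟨⟨x, hx, hx'⟩, ⟨y, hy, hy'⟩⟩ := hcon
  exact hb (hI.out hy hx ⟨hy', hx'⟩)

theorem ppsl_of_three {h : HC} (a b c : ℚ)
    (H1 : ∃ g : SpecialLinearGroup (Fin 2) ℤ, ∀ t : ℝ, t < a →
      h (t : Cir) = SpecialLinearGroup.mapGL ℝ g • (t : Cir))
    (H2 : ∃ g : SpecialLinearGroup (Fin 2) ℤ, ∀ t : ℝ, a < t → t < b →
      h (t : Cir) = SpecialLinearGroup.mapGL ℝ g • (t : Cir))
    (H3 : ∃ g : SpecialLinearGroup (Fin 2) ℤ, ∀ t : ℝ, b < t → t < c →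
      h (t : Cir) = SpecialLinearGroup.mapGL ℝ g • (t : Cir))
    (H4 : ∃ g : SpecialLinearGroup (Fin 2) ℤ, ∀ t : ℝ, c < t →
      h (t : Cir) = SpecialLinearGroup.mapGL ℝ g • (t : Cir)) : h ∈ PPSL := by
  classical
  refine ⟨{a, b, c}, ?_⟩
  intro I hI hav
  rcases split_lt hI (hav a (by simp)) with h1 | h1
  · obtain ⟨g, hg⟩ := H1
    exact ⟨g, fun t ht => hg t (h1 t ht)⟩
  rcases split_lt hI (hav b (by simp)) with h2 | h2
  · obtain ⟨g, hg⟩ := H2
    exact ⟨g, fun t ht => hg t (h1 t ht) (h2 t ht)⟩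
  rcases split_lt hI (hav c (by simp)) with h3 | h3
  · obtain ⟨g, hg⟩ := H3
    exact ⟨g, fun t ht => hg t (h2 t ht) (h3 t ht)⟩
  · obtain ⟨g, hg⟩ := H4
    exact ⟨g, fun t ht => hg t (h3 t ht)⟩

/-- linear on a unimodular cone implies integral Moebius. -/
theorem smul_of_seg {h : HC} {u u' w w' : V} (hs : Seg h u u' w w') (hd : dt u' u = 1)
    (hd' : dt w' w = 1) : ∃ g : SpecialLinearGroup (Fin 2) ℤ, ∀ t : ℝ,
      0 ≤ (u'.1 : ℝ) - u'.2 * t → 0 ≤ (u.2 : ℝ) * t - u.1 →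
      h (t : Cir) = SpecialLinearGroup.mapGL ℝ g • (t : Cir) := by
  have hD : (u'.1 * u.2 - u'.2 * u.1 : ℝ) = 1 := by unfold dt at hd; exact_mod_cast hd
  refine ⟨⟨!![-u'.2 * w.1 + u.2 * w'.1, u'.1 * w.1 - u.1 * w'.1;
    -u'.2 * w.2 + u.2 * w'.2, u'.1 * w.2 - u.1 * w'.2], ?_⟩, ?_⟩
  · rw [Matrix.det_fin_two_of]
    unfold dt at hd hd'
    linear_combination (u'.1 * u.2 - u'.2 * u.1) * hd' + hd
  · intro t c1 c2
    rw [smul_real]
    simp only [Matrix.of_apply, Matrix.cons_val', Matrix.cons_val_zero,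
      Matrix.cons_val_one, Matrix.cons_val_fin_one]
    have key := hs ((u'.1 : ℝ) - u'.2 * t) (u.2 * t - u.1) c1 c2 (by
      rcases c1.lt_or_eq with h | h
      · linarith
      · rcases c2.lt_or_eq with h' | h'
        · linarith
        · exfalso
          have : (u'.1 : ℝ) * u.2 - u'.2 * u.1 = 0 := by
            linear_combination (-(u.2 : ℝ)) * h - (u'.2 : ℝ) * h'
          linarith)
    have e1 : pt ((((u'.1 : ℝ) - u'.2 * t)) * u.1 + (u.2 * t - u.1) * u'.1)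
        ((((u'.1 : ℝ) - u'.2 * t)) * u.2 + (u.2 * t - u.1) * u'.2) = (t : Cir) := by
      rw [pt_eq_coe_iff]
      have : ((u'.1 : ℝ) - u'.2 * t) * u.2 + (u.2 * t - u.1) * u'.2 = 1 := by
        linear_combination hD
      rw [this]
      constructor
      · norm_num
      · linear_combination t * hD
    rw [e1] at key
    rw [key]
    push_cast
    congr 1 <;> ring

theorem trans_smul (n : ℤ) : ∃ g : SpecialLinearGroup (Fin 2) ℤ, ∀ t : ℝ,
    (((t + n : ℝ)) : Cir) = SpecialLinearGroup.mapGL ℝ g • (t : Cir) := by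
  refine ⟨⟨!![1, n; 0, 1], by simp [Matrix.det_fin_two_of]⟩, ?_⟩
  intro t
  rw [smul_real]
  simp [pt]

theorem tau_coe (t : ℝ) : tau (t : Cir) = ((t + 1 : ℝ) : Cir) := rfl

theorem tau_mem : tau ∈ PPSL := by
  refine ⟨∅, fun I _ _ => ?_⟩
  obtain ⟨g, hg⟩ := trans_smul 1
  refine ⟨g, fun t _ => ?_⟩
  rw [← hg t, tau_coe]
  simp

theorem tau_inv_mem : tau⁻¹ ∈ PPSL := by
  refine ⟨∅, fun I _ _ => ?_⟩
  obtain ⟨g, hg⟩ := trans_smul (-1)
  refine ⟨g, fun t _ => ?_⟩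
  rw [← hg t]
  apply tau.injective
  rw [Homeomorph.inv_apply, Homeomorph.apply_symm_apply, tau_coe]
  simp

theorem XX_mem : XX ∈ PPSL := by
  refine ppsl_of_three 0 (1/2) 1 ?_ ?_ ?_ ?_
  · obtain ⟨g, hg⟩ := smul_of_seg segX1 (by decide) (by decide)
    refine ⟨g, fun t ht => hg t ?_ ?_⟩ <;> push_cast at * <;> linarith
  · obtain ⟨g, hg⟩ := smul_of_seg segX2 (by decide) (by decide)
    refine ⟨g, fun t ht ht' => hg t ?_ ?_⟩ <;> push_cast at * <;> linarith
  · obtain ⟨g, hg⟩ := smul_of_seg segX3 (by decide) (by decide)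
    refine ⟨g, fun t ht ht' => hg t ?_ ?_⟩ <;> push_cast at * <;> linarith
  · obtain ⟨g, hg⟩ := smul_of_seg segX4 (by decide) (by decide)
    refine ⟨g, fun t ht => hg t ?_ ?_⟩ <;> push_cast at * <;> linarith

theorem XX_inv_mem : XX⁻¹ ∈ PPSL := by
  refine ppsl_of_three 0 1 2 ?_ ?_ ?_ ?_
  · obtain ⟨g, hg⟩ := smul_of_seg segX1.inv (by decide) (by decide)
    refine ⟨g, fun t ht => hg t ?_ ?_⟩ <;> push_cast at * <;> linarith
  · obtain ⟨g, hg⟩ := smul_of_seg segX2.inv (by decide) (by decide)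
    refine ⟨g, fun t ht ht' => hg t ?_ ?_⟩ <;> push_cast at * <;> linarith
  · obtain ⟨g, hg⟩ := smul_of_seg segX3.inv (by decide) (by decide)
    refine ⟨g, fun t ht ht' => hg t ?_ ?_⟩ <;> push_cast at * <;> linarith
  · obtain ⟨g, hg⟩ := smul_of_seg segX4.inv (by decide) (by decide)
    refine ⟨g, fun t ht => hg t ?_ ?_⟩ <;> push_cast at * <;> linarith

theorem rot_mem : rot ∈ PPSL := by
  refine ppsl_of_three 0 15 16 ?_ ?_ ?_ ?_
  · obtain ⟨g, hg⟩ := smul_of_seg segR1 (by decide) (by decide)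
    refine ⟨g, fun t ht => hg t ?_ ?_⟩ <;> push_cast at * <;> linarith
  · obtain ⟨g, hg⟩ := trans_smul 1
    refine ⟨g, fun t ht ht' => ?_⟩
    push_cast at ht ht'
    rw [← hg t, rot_zone ht.le ht'.le]
    simp
  · obtain ⟨g, hg⟩ := smul_of_seg segR3 (by decide) (by decide)
    refine ⟨g, fun t ht ht' => hg t ?_ ?_⟩ <;> push_cast at * <;> linarith
  · obtain ⟨g, hg⟩ := smul_of_seg segR4 (by decide) (by decide)
    refine ⟨g, fun t ht => hg t ?_ ?_⟩ <;> push_cast at * <;> linarith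

theorem rot_inv_mem : rot⁻¹ ∈ PPSL := by
  refine ppsl_of_three 0 1 16 ?_ ?_ ?_ ?_
  · obtain ⟨g, hg⟩ := smul_of_seg segR4.inv.neg_left (by decide) (by decide)
    refine ⟨g, fun t ht => hg t ?_ ?_⟩ <;> push_cast at * <;> linarith
  · obtain ⟨g, hg⟩ := smul_of_seg segR1.inv (by decide) (by decide)
    refine ⟨g, fun t ht ht' => hg t ?_ ?_⟩ <;> push_cast at * <;> linarith
  · obtain ⟨g, hg⟩ := trans_smul (-1)
    refine ⟨g, fun t ht ht' => ?_⟩
    push_cast at ht ht'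
    rw [← hg t]
    apply rot.injective
    rw [Homeomorph.inv_apply, Homeomorph.apply_symm_apply]
    push_cast
    rw [rot_zone (by linarith) (by linarith)]
    simp
  · obtain ⟨g, hg⟩ := smul_of_seg segR3.inv (by decide) (by decide)
    refine ⟨g, fun t ht => hg t ?_ ?_⟩ <;> push_cast at * <;> linarith

theorem one_mem_PPSL : (1 : HC) ∈ PPSL := by
  refine ⟨∅, fun I _ _ => ⟨1, fun t _ => ?_⟩⟩
  simp

theorem closure_le {h : HC} (hh : h ∈ Subgroup.closure {tau, XX}) : h ∈ PPSL := by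
  have : h ∈ PPSL ∧ h⁻¹ ∈ PPSL := by
    induction hh using Subgroup.closure_induction with
    | mem x hx =>
      rcases hx with rfl | hx
      · exact ⟨tau_mem, tau_inv_mem⟩
      · rw [Set.mem_singleton_iff] at hx
        subst hx
        exact ⟨XX_mem, XX_inv_mem⟩
    | one => exact ⟨one_mem_PPSL, by rw [inv_one]; exact one_mem_PPSL⟩
    | mul x y _ _ hx hy =>
      exact ⟨mul_mem_PPSL hy.1 hx.1, by rw [_root_.mul_inv_rev]; exact mul_mem_PPSL hx.2 hy.2⟩
    | inv x _ hx => exact ⟨hx.2, by rw [inv_inv]; exact hx.1⟩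
  exact this.1

theorem LinFrom.eval {h : HC} : ∀ {L L' : List V} {u w : V}, LinFrom h u L w L' →
    ∀ v ∈ L, ∃ v' ∈ L', h (pt v.1 v.2) = pt v'.1 v'.2
  | [], _, _, _, _, v, hv => by simp at hv
  | _ :: _, [], _, _, hl, _, _ => by simp [LinFrom] at hl
  | a :: L, b :: L', u, w, hl, v, hv => by
    obtain ⟨h1, h2⟩ := hl
    rcases List.mem_cons.mp hv with rfl | hv
    · exact ⟨b, by simp, h1.eval_right⟩
    · obtain ⟨v', hv', e⟩ := h2.eval v hv
      exact ⟨v', by simp [hv'], e⟩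

theorem mem_Kf : ∀ (n : ℕ) (m : ℤ) (v : V), v ∈ Kf m n → v.2 = 1
  | 0, m, v, hv => by simp [Kf] at hv
  | n + 1, m, v, hv => by
    rcases List.mem_cons.mp hv with rfl | hv
    · rfl
    · exact mem_Kf n (m + 1) v hv

/-- Every element of `PPSL` is generated by `tau`, `XX` and the rotation. -/
theorem mem_closure_of_PPSL {f : HC} (hf : f ∈ PPSL) :
    f ∈ Subgroup.closure {tau, XX, rot} := by
  classical
  have hle : Subgroup.closure {tau, XX} ≤ Subgroup.closure {tau, XX, rot} :=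
    Subgroup.closure_mono (by intro x hx; rcases hx with rfl | hx <;> simp_all)
  by_cases hinf : f ∞ = ∞
  · exact hle (fix_infty hinf hf)
  have hf0 := hf
  obtain ⟨B, hB⟩ := hf
  -- an integer larger than all breakpoints
  obtain ⟨p, hp⟩ : ∃ p : ℤ, ∀ b ∈ B, (b : ℝ) ≤ p := by
    induction B using Finset.induction_on with
    | empty => exact ⟨0, by simp⟩
    | insert b B _ ih =>
      clear ih
      obtain ⟨M, hM⟩ := (insert b B).bddAbove
      refine ⟨⌈M⌉, fun c hc => ?_⟩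
      have h1 : c ≤ M := hM hc
      have h2 : M ≤ ⌈M⌉ := Int.le_ceil M
      have h3 : c ≤ (⌈M⌉ : ℚ) := h1.trans h2
      exact_mod_cast h3
  obtain ⟨g, hg⟩ := hB {t | (p : ℝ) < t} (by
    constructor
    intro x hx y hy z hz
    simp only [Set.mem_ofPred_eq] at *
    linarith [hz.1]) (by
    intro q hq hmem
    simp only [Set.mem_ofPred_eq] at hmem
    linarith [hp q hq])
  have hs := seg_of_interval (f := f) (g := g) (u := (p, 1)) (u' := (1, 0)) (by simp [dt])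
    (by simp) (by simp) (fun t _ ht => hg t (by
      simp only [Int.cast_one, one_mul] at ht
      simp only [Set.mem_ofPred_eq]
      linarith))
  have e := hs.eval_right
  simp only [Int.cast_one, Int.cast_zero, pt_zero, gv, mul_one, mul_zero, add_zero] at e
  have hg10 : ((g 1 0 : ℤ) : ℝ) ≠ 0 := by
    intro h0
    rw [h0, pt_zero] at e
    exact hinf e
  rw [pt_ne hg10] at e
  set q : ℚ := ((g 0 0 : ℤ) : ℚ) / (g 1 0 : ℤ) with hq
  have hqr : (q : ℝ) = ((g 0 0 : ℤ) : ℝ) / (g 1 0 : ℤ) := by rw [hq]; push_cast; rfl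
  rw [← hqr] at e
  obtain ⟨L, hL, hqL⟩ := exists_chain {q}
  obtain ⟨h, hh, hlin⟩ := normal_form L.length L rfl hL
  obtain ⟨v', hv', e'⟩ := hlin.eval (vq q) (hqL q (by simp))
  have hv2 := mem_Kf _ _ _ hv'
  have hvqpos : ((vq q).2 : ℝ) ≠ 0 := by
    have := vq_pos q
    exact_mod_cast this.ne'
  have e3 : pt ((vq q).1 : ℝ) ((vq q).2 : ℝ) = ((q : ℝ) : Cir) := by
    rw [pt_eq_coe_iff]
    exact ⟨hvqpos, vq_real q⟩
  rw [e3, hv2] at e'
  simp only [Int.cast_one, pt_one] at e'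
  set k : HC := tau ^ (-v'.1) * h with hk
  have hkmem : k ∈ Subgroup.closure {tau, XX} :=
    Subgroup.mul_mem _ (Subgroup.zpow_mem _ (Subgroup.subset_closure (by simp)) _) hh
  have hkq : k ((q : ℝ) : Cir) = ((0 : ℝ) : Cir) := by
    rw [hk, Homeomorph.mul_apply, e']
    have := (seg_tau_zpow (-v'.1) (v'.1, 1) (1, 0)).eval_left
    simpa [pt_one] using this
  have hfix : (rot⁻¹ * (k * f)) ∞ = ∞ := by
    rw [Homeomorph.mul_apply, Homeomorph.mul_apply, e, hkq, ← rot_infty, Homeomorph.inv_apply,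
      Homeomorph.symm_apply_apply]
  have hmem : rot⁻¹ * (k * f) ∈ PPSL :=
    mul_mem_PPSL (mul_mem_PPSL hf0 (closure_le hkmem)) rot_inv_mem
  have h1 := hle (fix_infty hfix hmem)
  have h2 : f = k⁻¹ * (rot * (rot⁻¹ * (k * f))) := by group
  rw [h2]
  exact Subgroup.mul_mem _ (Subgroup.inv_mem _ (hle hkmem))
    (Subgroup.mul_mem _ (Subgroup.subset_closure (by simp)) h1)

end Pool.Agent.Helper53
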