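import Pool.Agent.Helper53.PPSL

set_option autoImplicit false

namespace Pool.Agent.Helper53

open OnePoint Filter Topology Matrix

/-- Homeomorphisms of the circle that are piecewise in `SL(2, Z)`, with rational breakpoints:
outside a finite set of rational numbers (and infinity), the map agrees on every interval of the
real line with a fractional linear map. -/
def PPSL : Set (OnePoint ℝ ≃ₜ OnePoint ℝ) :=
  {f | ∃ B : Finset ℚ, ∀ I : Set ℝ, I.OrdConnected → (∀ q ∈ B, (q : ℝ) ∉ I) →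
    ∃ g : Matrix.SpecialLinearGroup (Fin 2) ℤ, ∀ t ∈ I,
      f (t : OnePoint ℝ) = Matrix.SpecialLinearGroup.mapGL ℝ g • (t : OnePoint ℝ)}

theorem smul_real (g : SpecialLinearGroup (Fin 2) ℤ) (t : ℝ) :
    SpecialLinearGroup.mapGL ℝ g • (t : Cir) =
      pt ((g 0 0 : ℤ) * t + (g 0 1 : ℤ)) ((g 1 0 : ℤ) * t + (g 1 1 : ℤ)) := by
  rw [OnePoint.smul_some_eq_ite]
  simp [pt]

theorem gdet (g : SpecialLinearGroup (Fin 2) ℤ) : g 0 0 * g 1 1 - g 0 1 * g 1 0 = 1 := by
  have := g.det_coe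
  rwa [Matrix.det_fin_two] at this

theorem gdetR (g : SpecialLinearGroup (Fin 2) ℤ) :
    ((g 0 0 : ℤ) : ℝ) * (g 1 1 : ℤ) - (g 0 1 : ℤ) * (g 1 0 : ℤ) = 1 := by
  exact_mod_cast gdet g

/-- matrix times vector -/
def gv (g : SpecialLinearGroup (Fin 2) ℤ) (u : V) : V :=
  (g 0 0 * u.1 + g 0 1 * u.2, g 1 0 * u.1 + g 1 1 * u.2)

theorem dt_gv (g : SpecialLinearGroup (Fin 2) ℤ) (u v : V) : dt (gv g u) (gv g v) = dt u v := by
  have := gdet g
  unfold dt gv
  simp only
  linear_combination (u.1 * v.2 - u.2 * v.1) * this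

theorem cont_pt {x y : ℝ} (h : x ≠ 0 ∨ y ≠ 0) :
    ContinuousAt (fun p : ℝ × ℝ => pt p.1 p.2) (x, y) := by
  have key : ∀ {x y : ℝ}, y ≠ 0 → ContinuousAt (fun p : ℝ × ℝ => pt p.1 p.2) (x, y) := by
    intro x y hy
    have h1 : ContinuousAt (fun p : ℝ × ℝ => ((p.1 / p.2 : ℝ) : Cir)) (x, y) :=
      OnePoint.continuous_coe.continuousAt.comp
        (ContinuousAt.div continuousAt_fst continuousAt_snd hy)
    refine h1.congr ?_
    have : ∀ᶠ p : ℝ × ℝ in 𝓝 (x, y), p.2 ≠ 0 :=
      continuousAt_snd.eventually_ne hy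
    filter_upwards [this] with p hp
    rw [pt_ne hp]
  by_cases hy : y = 0
  · have hx : x ≠ 0 := by
      rcases h with h | h
      · exact h
      · exact absurd hy h
    have h1 : ContinuousAt (fun p : ℝ × ℝ => gam (pt p.2 (-p.1))) (x, y) := by
      refine gam.continuous.continuousAt.comp ?_
      have h2 : ContinuousAt (fun p : ℝ × ℝ => pt p.1 p.2) (y, -x) := key (neg_ne_zero.mpr hx)
      have h3 : ContinuousAt (fun p : ℝ × ℝ => (p.2, -p.1)) (x, y) := by fun_prop
      exact ContinuousAt.comp (f := fun p : ℝ × ℝ => (p.2, -p.1)) (x := (x, y)) h2 h3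
    refine h1.congr ?_
    have : ∀ᶠ p : ℝ × ℝ in 𝓝 (x, y), p.1 ≠ 0 :=
      continuousAt_fst.eventually_ne hx
    filter_upwards [this] with p hp
    rw [gam_pt _ _ (Or.inr (neg_ne_zero.mpr hp)), neg_neg]
  · exact key hy

theorem vec_ne {u u' : V} (hd : dt u' u = 1) {x y : ℝ} (h : x ≠ 0 ∨ y ≠ 0) :
    (x * u.1 + y * u'.1 ≠ 0) ∨ (x * u.2 + y * u'.2 ≠ 0) := by
  by_contra hcon
  push Not at hcon
  obtain ⟨h1, h2⟩ := hcon
  have hD : (u'.1 * u.2 - u'.2 * u.1 : ℝ) = 1 := by unfold dt at hd; exact_mod_cast hd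
  have hx : x = 0 := by
    linear_combination (-x) * hD - (u'.2 : ℝ) * h1 + (u'.1 : ℝ) * h2
  have hy : y = 0 := by
    linear_combination (-y) * hD + (u.2 : ℝ) * h1 - (u.1 : ℝ) * h2
  rcases h with h | h
  · exact h hx
  · exact h hy

theorem seg_of_interval {f : HC} {g : SpecialLinearGroup (Fin 2) ℤ} {u u' : V}
    (hd : dt u' u = 1) (hu : 0 ≤ u.2) (hu' : 0 ≤ u'.2)
    (H : ∀ t : ℝ, 0 < (u'.1 : ℝ) - u'.2 * t → 0 < (u.2 : ℝ) * t - u.1 →
      f (t : Cir) = SpecialLinearGroup.mapGL ℝ g • (t : Cir)) :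
    Seg f u u' (gv g u) (gv g u') := by
  have hD : (u'.1 * u.2 - u'.2 * u.1 : ℝ) = 1 := by unfold dt at hd; exact_mod_cast hd
  have cu : (0 : ℝ) ≤ u.2 := by exact_mod_cast hu
  have cu' : (0 : ℝ) ≤ u'.2 := by exact_mod_cast hu'
  -- interior points
  have hint : ∀ x y : ℝ, 0 < x → 0 < y →
      f (pt (x * u.1 + y * u'.1) (x * u.2 + y * u'.2)) =
        pt (x * (gv g u).1 + y * (gv g u').1) (x * (gv g u).2 + y * (gv g u').2) := by
    intro x y hx hy
    have hpos : 0 < x * u.2 + y * u'.2 := by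
      have h1 : 0 ≤ x * (u.2 : ℝ) + y * u'.2 := by positivity
      rcases h1.lt_or_eq with h | h
      · exact h
      · exfalso
        have a1 : x * (u.2 : ℝ) = 0 := by
          have := mul_nonneg hx.le cu
          have := mul_nonneg hy.le cu'
          linarith
        have a2 : y * (u'.2 : ℝ) = 0 := by
          have := mul_nonneg hx.le cu
          have := mul_nonneg hy.le cu'
          linarith
        have b1 : (u.2 : ℝ) = 0 := (mul_eq_zero.mp a1).resolve_left hx.ne'
        have b2 : (u'.2 : ℝ) = 0 := (mul_eq_zero.mp a2).resolve_left hy.ne'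
        rw [b1, b2] at hD
        simp at hD
    set D := x * (u.2 : ℝ) + y * u'.2 with hDdef
    rw [pt_ne hpos.ne', H, smul_real]
    · rw [← pt_smul hpos.ne']
      congr 1
      · simp only [gv]; push_cast; field_simp; rw [hDdef]; ring
      · simp only [gv]; push_cast; field_simp; rw [hDdef]; ring
    · have : (u'.1 : ℝ) - u'.2 * ((x * u.1 + y * u'.1) / D) = x / D := by
        field_simp
        rw [hDdef]
        linear_combination x * hD
      rw [this]
      positivity
    · have : (u.2 : ℝ) * ((x * u.1 + y * u'.1) / D) - u.1 = y / D := by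
        field_simp
        rw [hDdef]
        linear_combination y * hD
      rw [this]
      positivity
  intro x y hx hy hxy
  have hne : x ≠ 0 ∨ y ≠ 0 := by
    by_contra hcon
    push Not at hcon
    rw [hcon.1, hcon.2] at hxy
    simp at hxy
  have hdg : dt (gv g u') (gv g u) = 1 := by rw [dt_gv, hd]
  have l1 : Tendsto (fun e : ℝ => f (pt ((x + e) * u.1 + (y + e) * u'.1)
      ((x + e) * u.2 + (y + e) * u'.2))) (𝓝[>] 0)
      (𝓝 (f (pt (x * u.1 + y * u'.1) (x * u.2 + y * u'.2)))) := by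
    refine Tendsto.mono_left ?_ nhdsWithin_le_nhds
    have hc := cont_pt (vec_ne hd hne)
    have hm : ContinuousAt (fun e : ℝ => ((x + e) * (u.1 : ℝ) + (y + e) * u'.1,
      (x + e) * (u.2 : ℝ) + (y + e) * u'.2)) 0 := by fun_prop
    have hc' : ContinuousAt (fun p : ℝ × ℝ => pt p.1 p.2)
      ((fun e : ℝ => ((x + e) * (u.1 : ℝ) + (y + e) * u'.1,
      (x + e) * (u.2 : ℝ) + (y + e) * u'.2)) 0) := by simpa using hc
    have h0 := ContinuousAt.comp (f := fun e : ℝ => ((x + e) * (u.1 : ℝ) + (y + e) * u'.1,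
      (x + e) * (u.2 : ℝ) + (y + e) * u'.2)) (g := fun p : ℝ × ℝ => pt p.1 p.2) (x := (0 : ℝ)) hc' hm
    have := ContinuousAt.comp (g := f) (f := (fun p : ℝ × ℝ => pt p.1 p.2) ∘ fun e : ℝ =>
      ((x + e) * (u.1 : ℝ) + (y + e) * u'.1,
      (x + e) * (u.2 : ℝ) + (y + e) * u'.2)) (x := (0 : ℝ)) (f.continuous.continuousAt) h0
    have h2 := this.tendsto
    simpa [Function.comp_def] using h2
  have l2 : Tendsto (fun e : ℝ => pt ((x + e) * (gv g u).1 + (y + e) * (gv g u').1)
      ((x + e) * (gv g u).2 + (y + e) * (gv g u').2)) (𝓝[>] 0)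
      (𝓝 (pt (x * (gv g u).1 + y * (gv g u').1) (x * (gv g u).2 + y * (gv g u').2))) := by
    refine Tendsto.mono_left ?_ nhdsWithin_le_nhds
    have hc := cont_pt (vec_ne hdg hne)
    have hm : ContinuousAt (fun e : ℝ => ((x + e) * ((gv g u).1 : ℝ) + (y + e) * (gv g u').1,
      (x + e) * ((gv g u).2 : ℝ) + (y + e) * (gv g u').2)) 0 := by fun_prop
    have hc' : ContinuousAt (fun p : ℝ × ℝ => pt p.1 p.2)
      ((fun e : ℝ => ((x + e) * ((gv g u).1 : ℝ) + (y + e) * (gv g u').1,
      (x + e) * ((gv g u).2 : ℝ) + (y + e) * (gv g u').2)) 0) := by simpa using hc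
    have := ContinuousAt.comp (f := fun e : ℝ => ((x + e) * ((gv g u).1 : ℝ) + (y + e) * (gv g u').1,
      (x + e) * ((gv g u).2 : ℝ) + (y + e) * (gv g u').2)) (g := fun p : ℝ × ℝ => pt p.1 p.2)
      (x := (0 : ℝ)) hc' hm
    have h2 := this.tendsto
    simpa [Function.comp_def] using h2
  have heq : ∀ᶠ e : ℝ in 𝓝[>] 0, f (pt ((x + e) * u.1 + (y + e) * u'.1)
      ((x + e) * u.2 + (y + e) * u'.2)) = pt ((x + e) * (gv g u).1 + (y + e) * (gv g u').1)
      ((x + e) * (gv g u).2 + (y + e) * (gv g u').2) := by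
    filter_upwards [self_mem_nhdsWithin] with e he
    have he' : 0 < e := he
    exact hint _ _ (by linarith) (by linarith)
  exact tendsto_nhds_unique (l1.congr' heq) l2

theorem pt_eq_pt {x y x' y' : ℤ} (h1 : IsCoprime x y) (h2 : IsCoprime x' y')
    (h : pt x y = pt x' y') : (x = x' ∧ y = y') ∨ (x = -x' ∧ y = -y') := by
  have hcross : x * y' = x' * y := by
    by_cases hy : (y : ℝ) = 0
    · rw [hy, pt_zero, eq_comm, pt_eq_infty_iff] at h
      have e1 : y = 0 := by exact_mod_cast hy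
      have e2 : y' = 0 := by exact_mod_cast h
      rw [e1, e2]; ring
    · by_cases hy' : (y' : ℝ) = 0
      · rw [hy', pt_zero, pt_eq_infty_iff] at h
        exact absurd h hy
      · rw [pt_ne hy, pt_ne hy'] at h
        have h3 := OnePoint.coe_injective h
        rw [div_eq_div_iff hy hy'] at h3
        exact_mod_cast h3
  have d1 : x ∣ x' := by
    refine h1.dvd_of_dvd_mul_right ?_
    exact ⟨y', hcross.symm⟩
  have d2 : x' ∣ x := by
    refine h2.dvd_of_dvd_mul_right ?_
    exact ⟨y, hcross⟩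
  have d3 : y ∣ y' := by
    refine h1.symm.dvd_of_dvd_mul_left ?_
    exact ⟨x', by rw [hcross]; ring⟩
  have d4 : y' ∣ y := by
    refine h2.symm.dvd_of_dvd_mul_left ?_
    exact ⟨x, by rw [← hcross]; ring⟩
  have a1 : x.natAbs = x'.natAbs := Nat.dvd_antisymm (Int.natAbs_dvd_natAbs.mpr d1)
    (Int.natAbs_dvd_natAbs.mpr d2)
  have a2 : y.natAbs = y'.natAbs := Nat.dvd_antisymm (Int.natAbs_dvd_natAbs.mpr d3)
    (Int.natAbs_dvd_natAbs.mpr d4)
  rcases Int.natAbs_eq_natAbs_iff.mp a1 with b1 | b1 <;>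
  rcases Int.natAbs_eq_natAbs_iff.mp a2 with b2 | b2
  · exact Or.inl ⟨b1, b2⟩
  · subst b1
    have h0 : x * (2 * y') = 0 := by rw [b2] at hcross; linarith
    rcases mul_eq_zero.mp h0 with h0 | h0
    · right; exact ⟨by rw [h0]; simp, b2⟩
    · left; exact ⟨rfl, by omega⟩
  · subst b2
    have h0 : y * (2 * x') = 0 := by rw [b1] at hcross; linarith
    rcases mul_eq_zero.mp h0 with h0 | h0
    · right; exact ⟨b1, by rw [h0]; simp⟩
    · left; exact ⟨by omega, rfl⟩
  · exact Or.inr ⟨b1, b2⟩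

/-- sign normalization -/
theorem seg_normalize {f : HC} {g : SpecialLinearGroup (Fin 2) ℤ} {u u' w : V}
    (hd : dt u' u = 1) (hs : Seg f u u' (gv g u) (gv g u')) (hw : f (pt u.1 u.2) = pt w.1 w.2)
    (hcw : IsCoprime w.1 w.2) : ∃ w', Seg f u u' w w' ∧ dt w' w = 1 := by
  have hcu : IsCoprime (gv g u).1 (gv g u).2 := by
    refine ⟨-(gv g u').2, (gv g u').1, ?_⟩
    have : dt (gv g u') (gv g u) = 1 := by rw [dt_gv, hd]
    unfold dt at this
    linarith
  have e1 : pt (gv g u).1 (gv g u).2 = pt w.1 w.2 := by rw [← hw, hs.eval_left]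
  have hdg : dt (gv g u') (gv g u) = 1 := by rw [dt_gv, hd]
  rcases pt_eq_pt hcu hcw e1 with ⟨h1, h2⟩ | ⟨h1, h2⟩
  · have : gv g u = w := Prod.ext h1 h2
    rw [this] at hs hdg
    exact ⟨_, hs, hdg⟩
  · have hs' := hs.neg_right
    have : ((-(gv g u).1, -(gv g u).2) : V) = w := by
      ext
      · simp only; rw [h1]; ring
      · simp only; rw [h2]; ring
    rw [this] at hs'
    refine ⟨_, hs', ?_⟩
    unfold dt at hdg ⊢
    simp only
    rw [h1, h2] at hdg
    linarith

theorem coprime_of_dt {w w' : V} (h : dt w' w = 1) : IsCoprime w'.1 w'.2 := by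
  refine ⟨w.2, -w.1, ?_⟩
  unfold dt at h
  linarith

theorem dt_vq_pos {q : ℚ} {u : V} : 0 < (u.2 : ℝ) * q - u.1 ↔ 0 < dt (vq q) u := by
  have h1 := vq_real q
  have h2 : (0 : ℝ) < (vq q).2 := by exact_mod_cast vq_pos q
  have e : ((dt (vq q) u : ℤ) : ℝ) = (vq q).2 * ((u.2 : ℝ) * q - u.1) := by
    unfold dt
    push_cast
    rw [h1]; ring
  have e2 : (0 < dt (vq q) u) ↔ (0 : ℝ) < ((dt (vq q) u : ℤ) : ℝ) := by
    exact_mod_cast Iff.rfl
  rw [e2, e]
  constructor
  · intro h; positivity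
  · intro h; exact (mul_pos_iff_of_pos_left h2).mp h

theorem build {f : HC} (hf : f ∞ = ∞) {B : Finset ℚ}
    (hB : ∀ I : Set ℝ, I.OrdConnected → (∀ q ∈ B, (q : ℝ) ∉ I) →
      ∃ g : SpecialLinearGroup (Fin 2) ℤ, ∀ t ∈ I,
      f (t : Cir) = SpecialLinearGroup.mapGL ℝ g • (t : Cir)) :
    ∀ (L : List V) (u w : V), ChFrom u L → 0 ≤ u.2 → (∀ b ∈ B, 0 < dt (vq b) u → vq b ∈ L) →
      (w = (-1, 0) ∨ 0 < w.2) → f (pt u.1 u.2) = pt w.1 w.2 → IsCoprime w.1 w.2 →
      ∃ Q, LinFrom f u L w Q ∧ ChFrom w Q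
  | [], u, w, hc, hu, hb, hw, hfu, hcw => by
    have hu1 : u.2 = 1 := hc
    have hd : dt (1, 0) u = 1 := by unfold dt; simp [hu1]
    obtain ⟨g, hg⟩ := hB {t | 0 < (u.2 : ℝ) * t - u.1} (by
      constructor
      intro x hx y hy z hz
      simp only [Set.mem_ofPred_eq] at *
      rw [hu1] at *
      push_cast at *
      linarith [hz.1]) (by
      intro q hq hmem
      simp only [Set.mem_ofPred_eq] at hmem
      rw [dt_vq_pos] at hmem
      have := hb q hq hmem
      simp at this)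
    have hs := seg_of_interval (f := f) (g := g) hd hu (by simp) (fun t _ ht => hg t ht)
    obtain ⟨w', hs', hd'⟩ := seg_normalize hd hs hfu hcw
    have e := hs'.eval_right
    simp only [Int.cast_one, Int.cast_zero, pt_zero, hf] at e
    have hw2 : w'.2 = 0 := by
      rw [eq_comm, pt_eq_infty_iff] at e
      exact_mod_cast e
    have h1 : w'.1 * w.2 = 1 := by
      unfold dt at hd'
      rw [hw2] at hd'
      linarith
    have hw2pos : 0 < w.2 := by
      rcases hw with rfl | hw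
      · simp at h1
      · exact hw
    have h2 : w.2 = 1 := by
      rcases Int.eq_one_or_neg_one_of_mul_eq_one' h1 with h | h <;> omega
    have h3 : w'.1 = 1 := by rw [h2] at h1; linarith
    have : w' = (1, 0) := Prod.ext h3 hw2
    subst this
    exact ⟨[], hs', h2⟩
  | u' :: L, u, w, hc, hu, hb, hw, hfu, hcw => by
    obtain ⟨hd, hu', hc'⟩ := hc
    have cu : (0 : ℝ) ≤ u.2 := by exact_mod_cast hu
    have cu' : (0 : ℝ) < u'.2 := by exact_mod_cast hu'
    obtain ⟨g, hg⟩ := hB {t | 0 < (u'.1 : ℝ) - u'.2 * t ∧ 0 < (u.2 : ℝ) * t - u.1} (by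
      constructor
      intro x hx y hy z hz
      simp only [Set.mem_ofPred_eq] at *
      constructor
      · nlinarith [hz.2, hy.1, mul_le_mul_of_nonneg_left hz.2 cu'.le]
      · nlinarith [hz.1, hx.2, mul_le_mul_of_nonneg_left hz.1 cu]) (by
      intro q hq hmem
      simp only [Set.mem_ofPred_eq] at hmem
      obtain ⟨hm1, hm2⟩ := hmem
      rw [dt_vq_pos] at hm2
      have hneg : ¬ (0 < dt (vq q) u') := by
        rw [← dt_vq_pos]
        linarith
      have hm1' : dt (vq q) u' ≠ 0 := by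
        intro h0
        have h1 := vq_real q
        have h2 : (0 : ℝ) < (vq q).2 := by exact_mod_cast vq_pos q
        have e : ((dt (vq q) u' : ℤ) : ℝ) = (vq q).2 * ((u'.2 : ℝ) * q - u'.1) := by
          unfold dt
          push_cast
          rw [h1]; ring
        rw [h0] at e
        simp only [Int.cast_zero] at e
        have : (u'.2 : ℝ) * q - u'.1 = 0 := by
          rcases mul_eq_zero.mp e.symm with h | h
          · exact absurd h h2.ne'
          · exact h
        linarith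
      rcases List.mem_cons.mp (hb q hq hm2) with h | h
      · apply hm1'
        rw [h]
        unfold dt; ring
      · exact hneg (chain_lt L u' _ hc' hu' h))
    have hs := seg_of_interval (f := f) (g := g) hd hu hu'.le (fun t h1 h2 => hg t ⟨h1, h2⟩)
    obtain ⟨w', hs', hd'⟩ := seg_normalize hd hs hfu hcw
    have hw'0 : w'.2 ≠ 0 := by
      intro h0
      have e := hs'.eval_right
      have : pt (w'.1 : ℝ) (w'.2 : ℝ) = ∞ := by rw [pt_eq_infty_iff, h0]; simp
      rw [this, ← hf] at e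
      have := f.injective e
      rw [pt_eq_infty_iff] at this
      exact cu'.ne' this
    have hw'pos : 0 < w'.2 := by
      rcases hw with rfl | hw
      · unfold dt at hd'
        simp only at hd'
        omega
      · by_contra hcon
        have hneg : w'.2 < 0 := lt_of_le_of_ne (not_lt.mp hcon) hw'0
        have c1 : (0 : ℝ) < -w'.2 := by
          have : ((w'.2 : ℤ) : ℝ) < 0 := by exact_mod_cast hneg
          linarith
        have c2 : (0 : ℝ) < w.2 := by exact_mod_cast hw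
        have e := hs' (-w'.2) w.2 c1.le c2.le (by linarith)
        have : pt (-(w'.2 : ℝ) * w.1 + w.2 * w'.1) (-(w'.2 : ℝ) * w.2 + w.2 * w'.2) = ∞ := by
          rw [pt_eq_infty_iff]; ring
        rw [this, ← hf] at e
        have := f.injective e
        rw [pt_eq_infty_iff] at this
        have : 0 < -(w'.2 : ℝ) * u.2 + w.2 * u'.2 := by positivity
        linarith
    obtain ⟨Q, hQ1, hQ2⟩ := build hf hB L u' w' hc' hu'.le (by
      intro b hbB hbu'
      have h1 : 0 < dt (vq b) u := by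
        have key : dt (vq b) u * u'.2 = dt (vq b) u' * u.2 + dt u' u * (vq b).2 := by
          unfold dt; ring
        have hb2 := vq_pos b
        have : 0 < dt (vq b) u * u'.2 := by
          rw [key, hd]
          have := mul_nonneg hbu'.le hu
          omega
        exact (mul_pos_iff_of_pos_right hu').mp this
      rcases List.mem_cons.mp (hb b hbB h1) with h | h
      · exfalso
        rw [h] at hbu'
        unfold dt at hbu'
        linarith
      · exact h) (Or.inr hw'pos) hs'.eval_right (coprime_of_dt hd')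
    exact ⟨w' :: Q, ⟨hs', hQ1⟩, hd', hw'pos, hQ2⟩

/-- Elements of `PPSL` fixing infinity are generated by `tau` and `XX`. -/
theorem fix_infty {f : HC} (hf : f ∞ = ∞) (hT : f ∈ PPSL) :
    f ∈ Subgroup.closure {tau, XX} := by
  obtain ⟨B, hB⟩ := hT
  obtain ⟨L, hL, hBL⟩ := exists_chain B
  have hpt : pt ((-1 : ℤ) : ℝ) ((0 : ℤ) : ℝ) = ∞ := by simp [pt]
  obtain ⟨Q, hQ1, hQ2⟩ := build hf hB L (-1, 0) (-1, 0) hL (by simp) (fun b hb _ => hBL b hb)
    (Or.inl rfl) (by rw [hpt, hf]) ⟨-1, 0, by norm_num⟩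
  obtain ⟨h1, hh1, hl1⟩ := normal_form L.length L rfl hL
  obtain ⟨h2, hh2, hl2⟩ := normal_form Q.length Q rfl hQ2
  rw [← hQ1.length] at hl2
  have hlin := hl1.comp hl2.inv
  have : f = h2⁻¹ * h1 := eq_of_lin hL hQ1 hlin
  rw [this]
  exact Subgroup.mul_mem _ (Subgroup.inv_mem _ hh2) hh1

end Pool.Agent.Helper53
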