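import Mathlib

set_option autoImplicit false

open MeasureTheory Metric Set Topology
open scoped ENNReal NNReal BoundedContinuousFunction

namespace Helper53.Torus

/-- Euclidean three-space. -/
abbrev E3 : Type := EuclideanSpace ℝ (Fin 3)

/-- The flat circle `{c + r (cos t · u + sin t · w) : t ∈ [0, 2π)}`. -/
def flatCircle (c u w : E3) (r : ℝ) : Set E3 :=
  {x | ∃ t ∈ Ico (0 : ℝ) (2 * Real.pi), x = c + r • (Real.cos t • u + Real.sin t • w)}

/-- The solid `α`-neighbourhood `{x : dist(x, S) ≤ α}` of a set `S`. -/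
def solid (S : Set E3) (α : ℝ) : Set E3 := {x | infDist x S ≤ α}

/-- `T` is a regular torus: `T = {x : dist(x, S) ≤ α}` for a flat circle `S` of radius `r ≥ 0`
(spanned by orthonormal `u`, `w`) and a real number `α > 0`. -/
def IsRegularTorus (T : Set E3) : Prop :=
  ∃ (c u w : E3) (r α : ℝ), ‖u‖ = 1 ∧ ‖w‖ = 1 ∧ inner ℝ u w = 0 ∧ 0 ≤ r ∧ 0 < α ∧
    T = solid (flatCircle c u w r) α

/-! ### The Kneser type inequality -/

theorem antilip {S : Set E3} {s : E3 → E3} (hs : ∀ x, s x ∈ S ∧ infDist x S = dist x (s x))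
    {lam : ℝ≥0} (hl : 1 ≤ lam) :
    AntilipschitzWith lam (fun x => s x + (lam : ℝ)⁻¹ • (x - s x)) := by
  have hl' : (1 : ℝ) ≤ lam := by exact_mod_cast hl
  have hlpos : (0 : ℝ) < lam := by linarith
  apply AntilipschitzWith.of_le_mul_dist
  intro x y
  rw [dist_eq_norm, dist_eq_norm]
  have key : 0 ≤ inner ℝ (x - y) (s x - s y) := by
    have h1 : ‖x - s x‖ ^ 2 ≤ ‖x - s y‖ ^ 2 := by
      have : dist x (s x) ≤ dist x (s y) := by
        rw [← (hs x).2]; exact infDist_le_dist_of_mem (hs y).1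
      rw [dist_eq_norm, dist_eq_norm] at this
      exact pow_le_pow_left₀ (norm_nonneg _) this 2
    have h2 : ‖y - s y‖ ^ 2 ≤ ‖y - s x‖ ^ 2 := by
      have : dist y (s y) ≤ dist y (s x) := by
        rw [← (hs y).2]; exact infDist_le_dist_of_mem (hs x).1
      rw [dist_eq_norm, dist_eq_norm] at this
      exact pow_le_pow_left₀ (norm_nonneg _) this 2
    simp only [norm_sub_sq_real] at h1 h2
    rw [inner_sub_left, inner_sub_right, inner_sub_right]
    linarith
  have e1 : (lam : ℝ) • ((s x + (lam : ℝ)⁻¹ • (x - s x)) - (s y + (lam : ℝ)⁻¹ • (y - s y)))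
      = (x - y) + ((lam : ℝ) - 1) • (s x - s y) := by
    have : (lam : ℝ) • (lam : ℝ)⁻¹ • (x - s x) = x - s x := by
      rw [smul_smul, mul_inv_cancel₀ hlpos.ne', one_smul]
    have h3 : (lam : ℝ) • (lam : ℝ)⁻¹ • (y - s y) = y - s y := by
      rw [smul_smul, mul_inv_cancel₀ hlpos.ne', one_smul]
    rw [smul_sub, smul_add, smul_add, this, h3, sub_smul, one_smul, smul_sub]
    abel
  have e2 : (lam : ℝ) * ‖(s x + (lam : ℝ)⁻¹ • (x - s x)) - (s y + (lam : ℝ)⁻¹ • (y - s y))‖
      = ‖(x - y) + ((lam : ℝ) - 1) • (s x - s y)‖ := by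
    rw [← e1, norm_smul, Real.norm_of_nonneg hlpos.le]
  rw [e2]
  apply le_of_sq_le_sq _ (norm_nonneg _)
  rw [norm_add_sq_real, inner_smul_right]
  have : 0 ≤ ((lam : ℝ) - 1) * inner ℝ (x - y) (s x - s y) := mul_nonneg (by linarith) key
  nlinarith [sq_nonneg ‖((lam : ℝ) - 1) • (s x - s y)‖]

theorem hausdorff_solid_le {S : Set E3} (hS : IsCompact S) (hne : S.Nonempty) {t : ℝ}
    {lam : ℝ≥0} (hl : 1 ≤ lam) :
    (μH[3] : Measure E3) (solid S (lam * t)) ≤ (lam : ℝ≥0∞) ^ (3 : ℝ) * μH[3] (solid S t) := by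
  have hex : ∀ x : E3, ∃ s, s ∈ S ∧ infDist x S = dist x s := fun x => by
    obtain ⟨s, hs, h⟩ := hS.exists_infDist_eq_dist hne x
    exact ⟨s, hs, h⟩
  choose s hs using hex
  have hl' : (1 : ℝ) ≤ lam := by exact_mod_cast hl
  have hlpos : (0 : ℝ) < lam := by linarith
  have h1 := (antilip hs hl).le_hausdorffMeasure_image (d := 3) (by norm_num) (solid S (lam * t))
  refine h1.trans ?_
  gcongr
  rintro _ ⟨x, hx, rfl⟩
  simp only [solid, mem_ofPred_eq] at hx ⊢
  refine (infDist_le_dist_of_mem (hs x).1).trans ?_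
  rw [dist_eq_norm, add_sub_cancel_left, norm_smul, norm_inv, Real.norm_of_nonneg hlpos.le,
    ← dist_eq_norm, ← (hs x).2, inv_mul_le_iff₀ hlpos]
  exact hx

theorem volume_solid_le {S : Set E3} (hS : IsCompact S) (hne : S.Nonempty) {t : ℝ}
    {lam : ℝ≥0} (hl : 1 ≤ lam) :
    volume (solid S (lam * t)) ≤ (lam : ℝ≥0∞) ^ (3 : ℝ) * volume (solid S t) := by
  have hfr : (Module.finrank ℝ E3 : ℝ) = 3 := by simp
  have : (μH[3] : Measure E3).IsAddHaarMeasure := by
    have h := isAddHaarMeasure_hausdorffMeasure (E := E3)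
    rwa [hfr] at h
  have h : ∀ A : Set E3, volume A =
      (Measure.addHaarScalarFactor (volume : Measure E3) μH[3] : ℝ≥0∞) * μH[3] A := by
    intro A
    conv_lhs => rw [Measure.isAddLeftInvariant_eq_smul (volume : Measure E3) μH[3]]
    simp only [Measure.smul_apply, ENNReal.smul_def, smul_eq_mul]
  rw [h, h]
  calc _ ≤ (Measure.addHaarScalarFactor (volume : Measure E3) μH[3] : ℝ≥0∞) * 
        ((lam : ℝ≥0∞) ^ (3 : ℝ) * μH[3] (solid S t)) := by
          gcongr
          exact hausdorff_solid_le hS hne hl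
    _ = _ := by ring

/-! ### The four-parameter family -/

/-- Circle with centre `(p 0, 0, p 1)` and radius `|p 2|` in the horizontal plane. -/
noncomputable def circ (p : Fin 4 → ℝ) : Set E3 :=
  range fun t : ℝ => p 0 • EuclideanSpace.single (0 : Fin 3) (1 : ℝ)
    + p 1 • EuclideanSpace.single (2 : Fin 3) (1 : ℝ)
    + p 2 • (Real.cos t • EuclideanSpace.single (0 : Fin 3) (1 : ℝ)
      + Real.sin t • EuclideanSpace.single (1 : Fin 3) (1 : ℝ))

/-- The solid torus with parameters `p`. -/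
noncomputable def tor (p : Fin 4 → ℝ) : Set E3 := solid (circ p) (p 3)

theorem isClosed_solid (S : Set E3) (α : ℝ) : IsClosed (solid S α) :=
  isClosed_le (continuous_infDist_pt S) continuous_const

theorem circ_nonempty (p : Fin 4 → ℝ) : (circ p).Nonempty := range_nonempty _

/-- Every real number can be replaced by one in `[0, 2π)` with the same cosine and sine. -/
theorem exists_angle (t : ℝ) : ∃ y ∈ Ico (0 : ℝ) (2 * Real.pi), Real.cos y = Real.cos t ∧
    Real.sin y = Real.sin t := by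
  refine ⟨toIcoMod Real.two_pi_pos 0 t, toIcoMod_mem_Ico' Real.two_pi_pos t, ?_, ?_⟩
  · rw [toIcoMod, zsmul_eq_mul]
    exact Real.cos_sub_int_mul_two_pi t _
  · rw [toIcoMod, zsmul_eq_mul]
    exact Real.sin_sub_int_mul_two_pi t _

/-- The parametrisation of `circ p`. -/
noncomputable def cpt (p : Fin 4 → ℝ) (t : ℝ) : E3 :=
  p 0 • EuclideanSpace.single (0 : Fin 3) (1 : ℝ)
    + p 1 • EuclideanSpace.single (2 : Fin 3) (1 : ℝ)
    + p 2 • (Real.cos t • EuclideanSpace.single (0 : Fin 3) (1 : ℝ)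
      + Real.sin t • EuclideanSpace.single (1 : Fin 3) (1 : ℝ))

theorem continuous_cpt (p : Fin 4 → ℝ) : Continuous (cpt p) := by
  unfold cpt
  fun_prop

theorem circ_eq_image (p : Fin 4 → ℝ) : circ p = cpt p '' Icc 0 (2 * Real.pi) := by
  apply subset_antisymm
  · rintro _ ⟨t, rfl⟩
    obtain ⟨y, hy, hc, hs⟩ := exists_angle t
    refine ⟨y, ⟨hy.1, hy.2.le⟩, ?_⟩
    simp only [cpt, hc, hs]
  · rintro _ ⟨t, _, rfl⟩
    exact ⟨t, rfl⟩

theorem isCompact_circ (p : Fin 4 → ℝ) : IsCompact (circ p) := by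
  rw [circ_eq_image]
  exact isCompact_Icc.image (continuous_cpt p)

theorem norm_cs (t : ℝ) : ‖Real.cos t • EuclideanSpace.single (0 : Fin 3) (1 : ℝ)
      + Real.sin t • EuclideanSpace.single (1 : Fin 3) (1 : ℝ)‖ = 1 := by
  rw [EuclideanSpace.norm_eq]
  simp [Fin.sum_univ_three]

theorem dist_cpt (p q : Fin 4 → ℝ) (t : ℝ) : dist (cpt p t) (cpt q t) ≤ 3 * dist p q := by
  have e : cpt p t - cpt q t = (p 0 - q 0) • EuclideanSpace.single (0 : Fin 3) (1 : ℝ)
    + (p 1 - q 1) • EuclideanSpace.single (2 : Fin 3) (1 : ℝ)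
    + (p 2 - q 2) • (Real.cos t • EuclideanSpace.single (0 : Fin 3) (1 : ℝ)
      + Real.sin t • EuclideanSpace.single (1 : Fin 3) (1 : ℝ)) := by
    simp only [cpt, sub_smul]
    abel
  have hi : ∀ i, |p i - q i| ≤ dist p q := fun i => by
    rw [← Real.dist_eq]; exact dist_le_pi_dist p q i
  rw [dist_eq_norm, e]
  calc _ ≤ ‖(p 0 - q 0) • EuclideanSpace.single (0 : Fin 3) (1 : ℝ)‖
    + ‖(p 1 - q 1) • EuclideanSpace.single (2 : Fin 3) (1 : ℝ)‖
    + ‖(p 2 - q 2) • (Real.cos t • EuclideanSpace.single (0 : Fin 3) (1 : ℝ)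
      + Real.sin t • EuclideanSpace.single (1 : Fin 3) (1 : ℝ))‖ := norm_add₃_le
    _ = |p 0 - q 0| + |p 1 - q 1| + |p 2 - q 2| := by
      rw [norm_smul, norm_smul, norm_smul, norm_cs]
      simp
    _ ≤ _ := by linarith [hi 0, hi 1, hi 2]

theorem norm_cpt_le (p : Fin 4 → ℝ) (t : ℝ) : ‖cpt p t‖ ≤ 3 * ‖p‖ := by
  have h := dist_cpt p 0 t
  have h0 : cpt 0 t = 0 := by simp [cpt]
  rwa [h0, dist_zero_right, dist_zero_right] at h

theorem tor_subset (p q : Fin 4 → ℝ) : tor p ⊆ solid (circ q) (q 3 + 4 * dist p q) := by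
  intro x hx
  simp only [tor, solid, mem_ofPred_eq] at hx ⊢
  obtain ⟨y, hy, hxy⟩ := (isCompact_circ p).exists_infDist_eq_dist (circ_nonempty p) x
  obtain ⟨t, rfl⟩ := hy
  have h1 : infDist x (circ q) ≤ dist x (cpt q t) := infDist_le_dist_of_mem ⟨t, rfl⟩
  have h2 : dist x (cpt q t) ≤ dist x (cpt p t) + dist (cpt p t) (cpt q t) := dist_triangle _ _ _
  have h3 := dist_cpt p q t
  have h4 : dist x (cpt p t) = infDist x (circ p) := hxy.symm
  have h5 : p 3 - q 3 ≤ dist p q := by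
    have := dist_le_pi_dist p q 3
    rw [Real.dist_eq] at this
    exact (le_abs_self _).trans this
  linarith

theorem solid_subset_ball (q : Fin 4 → ℝ) (α : ℝ) :
    solid (circ q) α ⊆ closedBall 0 (α + 3 * ‖q‖) := by
  intro x hx
  simp only [solid, mem_ofPred_eq] at hx
  obtain ⟨y, hy, hxy⟩ := (isCompact_circ q).exists_infDist_eq_dist (circ_nonempty q) x
  obtain ⟨t, rfl⟩ := hy
  have h1 : dist x (cpt q t) = infDist x (circ q) := hxy.symm
  have h2 : dist x 0 ≤ dist x (cpt q t) + dist (cpt q t) 0 := dist_triangle _ _ _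
  rw [dist_zero_right (cpt q t)] at h2
  have := norm_cpt_le q t
  rw [mem_closedBall]
  linarith

/-- The region of parameters where we have uniform control. -/
def box (n : ℕ) : Set (Fin 4 → ℝ) := {p | ‖p‖ ≤ n ∧ 1 / ((n : ℝ) + 1) ≤ p 3}

theorem volume_diff_le (n : ℕ) : ∃ C : ℝ, 0 ≤ C ∧ ∀ p ∈ box n, ∀ q ∈ box n,
    volume (tor p \ tor q) ≤ ENNReal.ofReal (C * dist p q) := by
  set N : ℝ := (n : ℝ) + 1 with hN
  have hNpos : 0 < N := by positivity
  set V : ℝ := (volume (closedBall (0 : E3) (4 * N))).toReal with hV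
  set U : ℝ := 8 * N ^ 2 with hU
  refine ⟨4 * N * (U ^ 2 + 3 * U + 3) * V, by positivity, ?_⟩
  intro p hp q hq
  set d := dist p q with hd
  have hd0 : 0 ≤ d := dist_nonneg
  have hq3 : 1 / N ≤ q 3 := hq.2
  have hq3pos : 0 < q 3 := lt_of_lt_of_le (by positivity) hq3
  have hnN : (n : ℝ) ≤ N := by rw [hN]; linarith
  have hq3' : q 3 ≤ N := by
    have := norm_le_pi_norm q 3
    rw [Real.norm_eq_abs] at this
    have h2 := le_abs_self (q 3)
    have h3 := hq.1
    linarith
  have hd2 : d ≤ 2 * N := by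
    have h1 : d ≤ ‖p‖ + ‖q‖ := by rw [hd, dist_eq_norm]; exact norm_sub_le _ _
    have h3 := hq.1
    have h4 := hp.1
    linarith
  set u : ℝ := 4 * d / q 3 with hu
  have hu0 : 0 ≤ u := by positivity
  have hu1 : u ≤ 4 * d * N := by
    rw [hu, div_le_iff₀ hq3pos]
    have : 1 ≤ N * q 3 := by
      rw [div_le_iff₀ hNpos] at hq3
      linarith
    nlinarith
  have huU : u ≤ U := by
    rw [hU]; nlinarith
  set lam : ℝ≥0 := ⟨1 + u, by positivity⟩ with hlam
  have hlam1 : 1 ≤ lam := by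
    rw [← NNReal.coe_le_coe, hlam]
    show (1 : ℝ) ≤ 1 + u
    linarith
  have hlamq : (lam : ℝ) * q 3 = q 3 + 4 * d := by
    show (1 + u) * q 3 = q 3 + 4 * d
    rw [hu]; field_simp
  have hsub : tor p ⊆ solid (circ q) (lam * q 3) := by
    rw [hlamq]; exact tor_subset p q
  have hfin : volume (tor q) ≠ ∞ := by
    refine ne_top_of_le_ne_top ?_ (measure_mono (solid_subset_ball q (q 3)))
    exact measure_closedBall_lt_top.ne
  have hVq : (volume (tor q)).toReal ≤ V := by
    rw [hV]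
    apply ENNReal.toReal_mono measure_closedBall_lt_top.ne
    apply measure_mono
    refine (solid_subset_ball q (q 3)).trans (closedBall_subset_closedBall ?_)
    have := hq.1
    linarith
  have h1 : volume (tor p \ tor q) ≤ volume (solid (circ q) (lam * q 3)) - volume (tor q) := by
    have hs : tor q ⊆ solid (circ q) (lam * q 3) := by
      intro x hx
      simp only [tor, solid, mem_ofPred_eq] at hx ⊢
      have : (q 3) ≤ lam * q 3 := by rw [hlamq]; linarith
      linarith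
    rw [← measure_sdiff hs (isClosed_solid (circ q) (q 3)).nullMeasurableSet hfin]
    exact measure_mono (sdiff_subset_sdiff_left hsub)
  have h2 := volume_solid_le (isCompact_circ q) (circ_nonempty q) (t := q 3) hlam1
  have h3 : volume (tor p \ tor q) ≤
      (lam : ℝ≥0∞) ^ (3 : ℝ) * volume (tor q) - volume (tor q) := by
    refine h1.trans ?_
    exact tsub_le_tsub_right h2 _
  refine h3.trans ?_
  have e1 : volume (tor q) = ENNReal.ofReal (volume (tor q)).toReal := by
    rw [ENNReal.ofReal_toReal hfin]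
  have e2 : (lam : ℝ≥0∞) ^ (3 : ℝ) = ENNReal.ofReal ((1 + u) ^ 3) := by
    have : (lam : ℝ≥0∞) = ENNReal.ofReal (1 + u) := by
      rw [hlam, ENNReal.ofReal, ENNReal.coe_inj]
      ext
      simp only [Real.coe_toNNReal']
      rw [max_eq_left (by positivity)]
      rfl
    rw [this, ENNReal.ofReal_rpow_of_nonneg (by positivity) (by norm_num)]
    congr 1
    norm_cast
  rw [e1, e2, ← ENNReal.ofReal_mul (by positivity), ← ENNReal.ofReal_sub _ (by positivity)]
  apply ENNReal.ofReal_le_ofReal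
  set v := (volume (tor q)).toReal
  have hv0 : 0 ≤ v := ENNReal.toReal_nonneg
  have e3 : (1 + u) ^ 3 * v - v = u * (u ^ 2 + 3 * u + 3) * v := by ring
  rw [e3]
  have h5 : u ^ 2 + 3 * u + 3 ≤ U ^ 2 + 3 * U + 3 := by nlinarith
  calc u * (u ^ 2 + 3 * u + 3) * v ≤ (4 * d * N) * (U ^ 2 + 3 * U + 3) * V := by
        gcongr
    _ = _ := by ring

/-! ### The basic radial measures -/

/-- Normalised Lebesgue measure on the ball of radius `l + 1` about the origin. -/
noncomputable def nu (l : ℕ) : Measure E3 :=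
  (volume (ball (0 : E3) (l + 1)))⁻¹ • volume.restrict (ball (0 : E3) (l + 1))

theorem vol_ball_pos (l : ℕ) : volume (ball (0 : E3) ((l : ℝ) + 1)) ≠ 0 :=
  (measure_ball_pos _ _ (by positivity)).ne'

theorem vol_ball_fin (l : ℕ) : volume (ball (0 : E3) ((l : ℝ) + 1)) ≠ ∞ := measure_ball_lt_top.ne

instance (l : ℕ) : IsProbabilityMeasure (nu l) := by
  constructor
  rw [nu, Measure.smul_apply, Measure.restrict_apply_univ, smul_eq_mul]
  exact ENNReal.inv_mul_cancel (vol_ball_pos l) (vol_ball_fin l)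

/-- The uniform bound for the densities of the `nu l`. -/
noncomputable def kap : ℝ≥0∞ := (volume (ball (0 : E3) 1))⁻¹

theorem kap_ne_top : kap ≠ ∞ := by
  rw [kap, ENNReal.inv_ne_top]
  exact (measure_ball_pos _ _ one_pos).ne'

theorem nu_le (l : ℕ) (A : Set E3) : nu l A ≤ kap * volume A := by
  rw [nu, Measure.smul_apply, smul_eq_mul, kap]
  have h1 : ball (0 : E3) 1 ⊆ ball (0 : E3) ((l : ℝ) + 1) :=
    ball_subset_ball (by linarith [Nat.cast_nonneg (α := ℝ) l])
  have h2 := measure_mono (μ := (volume : Measure E3)) h1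
  gcongr
  exact Measure.restrict_le_self

/-- The deviation from `1/2`. -/
noncomputable def g (l : ℕ) (p : Fin 4 → ℝ) : ℝ := (nu l (tor p)).toReal - 1 / 2

theorem abs_g_le (l : ℕ) (p : Fin 4 → ℝ) : |g l p| ≤ 1 / 2 := by
  have h0 : 0 ≤ (nu l (tor p)).toReal := ENNReal.toReal_nonneg
  have h1 : (nu l (tor p)).toReal ≤ 1 := by
    have := ENNReal.toReal_mono ENNReal.one_ne_top (prob_le_one (μ := nu l) (s := tor p))
    simpa using this
  rw [abs_le, g]
  constructor <;> linarith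

theorem g_lip (n : ℕ) : ∃ C : ℝ, 0 ≤ C ∧ ∀ l, ∀ p ∈ box n, ∀ q ∈ box n,
    |g l p - g l q| ≤ C * dist p q := by
  obtain ⟨C, hC0, hC⟩ := volume_diff_le n
  refine ⟨kap.toReal * C, by positivity, ?_⟩
  have key : ∀ l, ∀ p ∈ box n, ∀ q ∈ box n,
      (nu l (tor p)).toReal ≤ (nu l (tor q)).toReal + kap.toReal * C * dist p q := by
    intro l p hp q hq
    have h1 : nu l (tor p) ≤ nu l (tor q) + nu l (tor p \ tor q) := by
      refine (measure_mono ?_).trans (measure_union_le _ _)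
      intro x hx
      by_cases h : x ∈ tor q
      · exact Or.inl h
      · exact Or.inr ⟨hx, h⟩
    have h2 : nu l (tor p \ tor q) ≤ kap * ENNReal.ofReal (C * dist p q) := by
      refine (nu_le l _).trans ?_
      gcongr
      exact hC p hp q hq
    have h3 : nu l (tor p) ≤ nu l (tor q) + kap * ENNReal.ofReal (C * dist p q) :=
      h1.trans (add_le_add le_rfl h2)
    have h4 : kap * ENNReal.ofReal (C * dist p q) ≠ ∞ :=
      ENNReal.mul_ne_top kap_ne_top ENNReal.ofReal_ne_top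
    have h5 := ENNReal.toReal_mono (ENNReal.add_ne_top.2 ⟨measure_ne_top _ _, h4⟩) h3
    rw [ENNReal.toReal_add (measure_ne_top _ _) h4, ENNReal.toReal_mul,
      ENNReal.toReal_ofReal (mul_nonneg hC0 dist_nonneg)] at h5
    linarith
  intro l p hp q hq
  have h1 := key l p hp q hq
  have h2 := key l q hq p hp
  rw [dist_comm q p] at h2
  rw [abs_le, g, g]
  constructor <;> linarith

theorem exists_g_ne (p : Fin 4 → ℝ) : ∃ l, g l p ≠ 0 := by
  by_contra hcon
  push Not at hcon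
  have hfin : volume (tor p) ≠ ∞ := by
    refine ne_top_of_le_ne_top ?_ (measure_mono (solid_subset_ball p (p 3)))
    exact measure_closedBall_lt_top.ne
  have h1 : ∀ l : ℕ, volume (ball (0 : E3) ((l : ℝ) + 1)) ≤ 2 * volume (tor p) := by
    intro l
    have h2 : (nu l (tor p)).toReal = 1 / 2 := by
      have := hcon l
      rw [g] at this; linarith
    have h3 : nu l (tor p) = 2⁻¹ := by
      rw [← ENNReal.ofReal_toReal (measure_ne_top (nu l) (tor p)), h2, one_div,
        ENNReal.ofReal_inv_of_pos two_pos]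
      simp
    have h4 : nu l (tor p) ≤ (volume (ball (0 : E3) ((l : ℝ) + 1)))⁻¹ * volume (tor p) := by
      rw [nu, Measure.smul_apply, smul_eq_mul]
      gcongr
      exact Measure.restrict_le_self
    rw [h3] at h4
    have h5 : volume (ball (0 : E3) ((l : ℝ) + 1)) * 2⁻¹ ≤ volume (tor p) := by
      calc _ ≤ volume (ball (0 : E3) ((l : ℝ) + 1)) *
          ((volume (ball (0 : E3) ((l : ℝ) + 1)))⁻¹ * volume (tor p)) := by gcongr
        _ = volume (tor p) := by
          rw [← mul_assoc, ENNReal.mul_inv_cancel (vol_ball_pos l) (vol_ball_fin l), one_mul]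
    calc volume (ball (0 : E3) ((l : ℝ) + 1))
        = 2 * (volume (ball (0 : E3) ((l : ℝ) + 1)) * 2⁻¹) := by
          rw [mul_comm, mul_assoc, ENNReal.inv_mul_cancel two_ne_zero ENNReal.ofNat_ne_top, mul_one]
      _ ≤ _ := by gcongr
  have hmono : Monotone fun l : ℕ => ball (0 : E3) ((l : ℝ) + 1) := by
    intro a b hab
    exact ball_subset_ball (by simpa using hab)
  have hun : (⋃ l : ℕ, ball (0 : E3) ((l : ℝ) + 1)) = univ := by
    rw [eq_univ_iff_forall]
    intro x
    obtain ⟨l, hl⟩ := exists_nat_gt ‖x‖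
    rw [mem_iUnion]
    refine ⟨l, ?_⟩
    rw [mem_ball_zero_iff]; linarith
  have h2 : volume (univ : Set E3) ≤ 2 * volume (tor p) := by
    rw [← hun, hmono.measure_iUnion]
    exact iSup_le h1
  rw [measure_univ_of_isAddLeftInvariant] at h2
  exact (ENNReal.mul_ne_top ENNReal.ofNat_ne_top hfin) (top_le_iff.1 h2)

/-! ### Genericity -/

/-- The Banach space of weights. -/
abbrev W : Type := Fin 5 → (ℕ →ᵇ ℝ)

/-- The defect of the `i`-th measure on the torus with parameter `p`. -/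
noncomputable def F (t : W) (p : Fin 4 → ℝ) (i : Fin 5) : ℝ :=
  ∑' l : ℕ, t i l * ((1 / 2) ^ l * g l p)

theorem coord_le (t : W) (i : Fin 5) (l : ℕ) : |t i l| ≤ ‖t‖ :=
  ((t i).norm_coe_le_norm l).trans (norm_le_pi_norm t i)

theorem hasSum_half : HasSum (fun l : ℕ => ((1 : ℝ) / 2) ^ l) 2 := hasSum_geometric_two

theorem term_le (t : W) (p : Fin 4 → ℝ) (i : Fin 5) (l : ℕ) :
    ‖t i l * ((1 / 2) ^ l * g l p)‖ ≤ ‖t‖ * (1 / 2) * (1 / 2) ^ l := by
  rw [norm_mul, norm_mul, norm_pow, Real.norm_eq_abs, Real.norm_eq_abs (g l p)]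
  have h1 := coord_le t i l
  have h2 := abs_g_le l p
  have h3 : ‖(1 / 2 : ℝ)‖ = 1 / 2 := by norm_num
  rw [h3]
  calc |t i l| * ((1 / 2) ^ l * |g l p|) ≤ ‖t‖ * ((1 / 2) ^ l * (1 / 2)) := by gcongr
    _ = _ := by ring

theorem summable_bd (c : ℝ) : Summable fun l : ℕ => c * (1 / 2 : ℝ) ^ l :=
  hasSum_half.summable.mul_left c

theorem summable_term (t : W) (p : Fin 4 → ℝ) (i : Fin 5) :
    Summable fun l : ℕ => t i l * ((1 / 2) ^ l * g l p) :=
  Summable.of_norm_bounded (summable_bd _) (term_le t p i)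

theorem abs_F_le (t : W) (p : Fin 4 → ℝ) (i : Fin 5) : |F t p i| ≤ ‖t‖ := by
  have h := tsum_of_norm_bounded (hasSum_half.mul_left (‖t‖ * (1 / 2))) (term_le t p i)
  rw [← Real.norm_eq_abs, F]
  linarith

theorem F_add (t s : W) (p : Fin 4 → ℝ) (i : Fin 5) : F (t + s) p i = F t p i + F s p i := by
  rw [F, F, F, ← (summable_term t p i).tsum_add (summable_term s p i)]
  congr 1
  ext l
  simp only [Pi.add_apply, BoundedContinuousFunction.coe_add]
  ring

theorem F_sub (t s : W) (p : Fin 4 → ℝ) (i : Fin 5) : F (t - s) p i = F t p i - F s p i := by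
  have := F_add (t - s) s p i
  rw [sub_add_cancel] at this
  linarith

theorem F_lip {n : ℕ} {C : ℝ} (hC : ∀ l, ∀ p ∈ box n, ∀ q ∈ box n,
    |g l p - g l q| ≤ C * dist p q) (t : W) {p q : Fin 4 → ℝ} (hp : p ∈ box n) (hq : q ∈ box n)
    (i : Fin 5) : |F t p i - F t q i| ≤ 2 * ‖t‖ * C * dist p q := by
  rw [F, F, ← (summable_term t p i).tsum_sub (summable_term t q i), ← Real.norm_eq_abs]
  have hb : ∀ l : ℕ, ‖t i l * ((1 / 2) ^ l * g l p) - t i l * ((1 / 2) ^ l * g l q)‖
      ≤ ‖t‖ * (C * dist p q) * (1 / 2) ^ l := by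
    intro l
    have e : t i l * ((1 / 2) ^ l * g l p) - t i l * ((1 / 2) ^ l * g l q)
      = t i l * ((1 / 2) ^ l * (g l p - g l q)) := by ring
    rw [e, norm_mul, norm_mul, norm_pow, Real.norm_eq_abs, Real.norm_eq_abs (g l p - g l q)]
    have h1 := coord_le t i l
    have h2 := hC l p hp q hq
    have h3 : ‖(1 / 2 : ℝ)‖ = 1 / 2 := by norm_num
    rw [h3]
    calc |t i l| * ((1 / 2) ^ l * |g l p - g l q|) ≤ ‖t‖ * ((1 / 2) ^ l * (C * dist p q)) := by
          gcongr
      _ = _ := by ring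
  refine (tsum_of_norm_bounded (hasSum_half.mul_left (‖t‖ * (C * dist p q))) hb).trans ?_
  linarith

/-- The compact parameter sets. -/
def KK (j n : ℕ) : Set (Fin 4 → ℝ) := {p | p ∈ box n ∧ 1 / ((n : ℝ) + 1) ≤ |g j p|}

theorem continuousOn_g (j n : ℕ) : ContinuousOn (g j) (box n) := by
  obtain ⟨C, hC0, hC⟩ := g_lip n
  have : LipschitzOnWith ⟨C, hC0⟩ (g j) (box n) := by
    apply LipschitzOnWith.of_dist_le_mul
    intro p hp q hq
    rw [Real.dist_eq]
    exact hC j p hp q hq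
  exact this.continuousOn

theorem isCompact_box (n : ℕ) : IsCompact (box n) := by
  have h : box n = closedBall 0 n ∩ {p | 1 / ((n : ℝ) + 1) ≤ p 3} := by
    ext p
    simp [box]
  rw [h]
  exact (isCompact_closedBall _ _).inter_right
    (isClosed_le continuous_const (continuous_apply _))

theorem isCompact_KK (j n : ℕ) : IsCompact (KK j n) := by
  have h : KK j n = box n ∩ (fun p => |g j p|) ⁻¹' (Ici (1 / ((n : ℝ) + 1))) := by
    ext p
    simp [KK]
  have hc : IsClosed (KK j n) := by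
    rw [h]
    exact (continuousOn_g j n).abs.preimage_isClosed_of_isClosed (isCompact_box n).isClosed
      isClosed_Ici
  exact (isCompact_box n).of_isClosed_subset hc fun p hp => hp.1

/-- The bad weights. -/
def Bad (j n : ℕ) : Set W := {t | ∃ p ∈ KK j n, ∀ i, F t p i = 0}

theorem isClosed_Bad (j n : ℕ) : IsClosed (Bad j n) := by
  obtain ⟨C, hC0, hC⟩ := g_lip n
  have : CompactSpace (KK j n) := isCompact_iff_compactSpace.1 (isCompact_KK j n)
  have hcont : ∀ i, Continuous fun z : KK j n × W => F z.2 z.1 i := by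
    intro i
    rw [continuous_iff_continuousAt]
    rintro ⟨p, t⟩
    rw [ContinuousAt, tendsto_iff_dist_tendsto_zero]
    have hb : ∀ z : KK j n × W, dist (F z.2 z.1 i) (F t p i) ≤
        dist z.2 t + 2 * ‖t‖ * C * dist z.1 p := by
      intro z
      rw [Real.dist_eq]
      have h1 : F z.2 z.1 i - F t p i = F (z.2 - t) z.1 i + (F t z.1 i - F t p i) := by
        rw [F_sub]; ring
      rw [h1]
      refine (abs_add_le _ _).trans (add_le_add ?_ ?_)
      · rw [dist_eq_norm]; exact abs_F_le _ _ _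
      · exact F_lip hC t z.1.2.1 p.2.1 i
    refine squeeze_zero (fun _ => dist_nonneg) hb ?_
    have hc : Continuous fun z : KK j n × W => dist z.2 t + 2 * ‖t‖ * C * dist z.1 p := by
      fun_prop
    have := hc.tendsto (p, t)
    simpa using this
  have hcl : IsClosed {z : KK j n × W | ∀ i, F z.2 z.1 i = 0} := by
    rw [ofPred_forall]
    exact isClosed_iInter fun i => isClosed_eq (hcont i) continuous_const
  have himg : Bad j n = Prod.snd '' {z : KK j n × W | ∀ i, F z.2 z.1 i = 0} := by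
    ext t
    constructor
    · rintro ⟨p, hp, h⟩
      exact ⟨(⟨p, hp⟩, t), h, rfl⟩
    · rintro ⟨⟨p, t'⟩, h, rfl⟩
      exact ⟨p.1, p.2, h⟩
  rw [himg]
  exact isClosedMap_snd_of_compactSpace _ hcl

/-- The weight supported at `j` with value `s i` in the `i`-th slot. -/
noncomputable def single (j : ℕ) (s : Fin 5 → ℝ) : W := fun i =>
  BoundedContinuousFunction.ofNormedAddCommGroup (fun l => if l = j then s i else 0)
    continuous_of_discreteTopology |s i| (fun l => by
      split_ifs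
      · exact le_of_eq (Real.norm_eq_abs _)
      · simp)

theorem single_apply (j : ℕ) (s : Fin 5 → ℝ) (i : Fin 5) (l : ℕ) :
    single j s i l = if l = j then s i else 0 := rfl

theorem norm_single_le (j : ℕ) (s : Fin 5 → ℝ) : ‖single j s‖ ≤ ‖s‖ := by
  rw [pi_norm_le_iff_of_nonneg (norm_nonneg _)]
  intro i
  rw [BoundedContinuousFunction.norm_le (norm_nonneg _)]
  intro l
  rw [single_apply]
  split_ifs
  · exact norm_le_pi_norm s i
  · simp

theorem F_single (j : ℕ) (s : Fin 5 → ℝ) (p : Fin 4 → ℝ) (i : Fin 5) :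
    F (single j s) p i = s i * ((1 / 2) ^ j * g j p) := by
  rw [F, tsum_eq_single j]
  · rw [single_apply, if_pos rfl]
  · intro l hl
    rw [single_apply, if_neg hl, zero_mul]

theorem dense_compl_Bad (j n : ℕ) : Dense (Bad j n)ᶜ := by
  obtain ⟨C, hC0, hC⟩ := g_lip n
  rw [Metric.dense_iff]
  intro t ε hε
  set N : ℝ := (n : ℝ) + 1 with hN
  have hNpos : 0 < N := by positivity
  set Φ : (Fin 4 → ℝ) → (Fin 5 → ℝ) := fun p i => - F t p i / ((1 / 2) ^ j * g j p) with hΦ
  have hgpos : ∀ p ∈ KK j n, 1 / N ≤ |g j p| := fun p hp => hp.2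
  have hlip : LipschitzOnWith (Real.toNNReal (2 ^ j * (N * (2 * ‖t‖ * C) + N ^ 2 * (‖t‖ * C))))
      Φ (KK j n) := by
    apply LipschitzOnWith.of_dist_le_mul
    intro p hp q hq
    rw [Real.coe_toNNReal _ (by positivity)]
    rw [dist_pi_le_iff (by positivity)]
    intro i
    rw [Real.dist_eq, hΦ]
    have gp := hgpos p hp
    have gq := hgpos q hq
    have gp0 : g j p ≠ 0 := by
      intro h; rw [h, abs_zero] at gp
      have : 0 < 1 / N := by positivity
      linarith
    have gq0 : g j q ≠ 0 := by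
      intro h; rw [h, abs_zero] at gq
      have : 0 < 1 / N := by positivity
      linarith
    have e : - F t p i / ((1 / 2) ^ j * g j p) - - F t q i / ((1 / 2) ^ j * g j q)
        = 2 ^ j * (-(F t p i - F t q i) * (g j p)⁻¹ + F t q i * (g j p - g j q)
          * ((g j p)⁻¹ * (g j q)⁻¹)) := by
      have h2 : ((1 : ℝ) / 2) ^ j = (2 ^ j)⁻¹ := by rw [one_div, inv_pow]
      rw [h2]
      field_simp
      ring
    rw [e, abs_mul, abs_of_pos (by positivity : (0 : ℝ) < 2 ^ j)]
    suffices hsuf : |-(F t p i - F t q i) * (g j p)⁻¹ + F t q i * (g j p - g j q)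
          * ((g j p)⁻¹ * (g j q)⁻¹)| ≤ (N * (2 * ‖t‖ * C) + N ^ 2 * (‖t‖ * C)) * dist p q by
      calc _ ≤ 2 ^ j * ((N * (2 * ‖t‖ * C) + N ^ 2 * (‖t‖ * C)) * dist p q) :=
            mul_le_mul_of_nonneg_left hsuf (by positivity : (0 : ℝ) ≤ 2 ^ j)
        _ = _ := by ring
    have hip : |(g j p)⁻¹| ≤ N := by
      rw [abs_inv]
      have gp' : N⁻¹ ≤ |g j p| := by rw [← one_div]; exact gp
      exact inv_le_of_inv_le₀ hNpos gp'
    have hiq : |(g j q)⁻¹| ≤ N := by
      rw [abs_inv]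
      have gq' : N⁻¹ ≤ |g j q| := by rw [← one_div]; exact gq
      exact inv_le_of_inv_le₀ hNpos gq'
    have h1 := F_lip hC t hp.1 hq.1 i
    have h2 := hC j p hp.1 q hq.1
    have h3 := abs_F_le t q i
    calc |-(F t p i - F t q i) * (g j p)⁻¹ + F t q i * (g j p - g j q) * ((g j p)⁻¹ * (g j q)⁻¹)|
        ≤ |-(F t p i - F t q i) * (g j p)⁻¹| +
          |F t q i * (g j p - g j q) * ((g j p)⁻¹ * (g j q)⁻¹)| := abs_add_le _ _
      _ = |F t p i - F t q i| * |(g j p)⁻¹| +
          |F t q i| * |g j p - g j q| * (|(g j p)⁻¹| * |(g j q)⁻¹|) := by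
          rw [abs_mul, abs_neg, abs_mul, abs_mul, abs_mul]
      _ ≤ (2 * ‖t‖ * C * dist p q) * N + ‖t‖ * (C * dist p q) * (N * N) := by
          gcongr
      _ = _ := by ring
  have hdim : dimH (Φ '' KK j n) < Module.finrank ℝ (Fin 5 → ℝ) := by
    refine (hlip.dimH_image_le).trans_lt ?_
    refine (dimH_mono (subset_univ _)).trans_lt ?_
    rw [Real.dimH_univ_pi_fin, Module.finrank_fin_fun]
    norm_num
  have hd := dense_compl_of_dimH_lt_finrank hdim
  obtain ⟨s, hs1, hs2⟩ := (Metric.dense_iff.1 hd) 0 ε hε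
  rw [mem_ball_zero_iff] at hs1
  refine ⟨t + single j s, ?_, ?_⟩
  · rw [mem_ball, dist_eq_norm, add_sub_cancel_left]
    exact (norm_single_le j s).trans_lt hs1
  · rintro ⟨p, hp, h⟩
    apply hs2
    refine ⟨p, hp, ?_⟩
    have gp := hgpos p hp
    have gp0 : g j p ≠ 0 := by
      intro h; rw [h, abs_zero] at gp
      have : 0 < 1 / N := by positivity
      linarith
    ext i
    have hi := h i
    rw [F_add, F_single] at hi
    rw [hΦ]
    show - F t p i / ((1 / 2) ^ j * g j p) = s i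
    rw [div_eq_iff (by positivity)]
    linarith

theorem exists_good : ∃ t : W, (∀ i l, 1 / 2 < t i l ∧ t i l < 3 / 2) ∧
    ∀ p : Fin 4 → ℝ, 0 < p 3 → ¬ ∀ i, F t p i = 0 := by
  have hd : Dense (⋂ z : ℕ × ℕ, (Bad z.1 z.2)ᶜ) :=
    dense_iInter_of_isOpen (fun z => (isClosed_Bad _ _).isOpen_compl)
      (fun z => dense_compl_Bad _ _)
  obtain ⟨t, ht1, ht2⟩ := (Metric.dense_iff.1 hd)
    (fun _ => BoundedContinuousFunction.const ℕ (1 : ℝ)) (1 / 2) (by norm_num)
  refine ⟨t, ?_, ?_⟩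
  · intro i l
    rw [mem_ball, dist_eq_norm] at ht1
    set c : W := fun _ => BoundedContinuousFunction.const ℕ (1 : ℝ) with hc
    have h := (coord_le (t - c) i l).trans_lt ht1
    have h2 : (t - c) i l = t i l - 1 := rfl
    rw [h2, abs_lt] at h
    constructor <;> linarith [h.1, h.2]
  · intro p hp h
    obtain ⟨j, hj⟩ := exists_g_ne p
    obtain ⟨n1, hn1⟩ := exists_nat_gt ‖p‖
    obtain ⟨n2, hn2⟩ := exists_nat_one_div_lt hp
    obtain ⟨n3, hn3⟩ := exists_nat_one_div_lt (abs_pos.2 hj)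
    set n := n1 + n2 + n3 with hn
    have c1 : (n1 : ℝ) ≤ n := by rw [hn]; push_cast; linarith [Nat.cast_nonneg (α := ℝ) n2, Nat.cast_nonneg (α := ℝ) n3]
    have c2 : (n2 : ℝ) ≤ n := by rw [hn]; push_cast; linarith [Nat.cast_nonneg (α := ℝ) n1, Nat.cast_nonneg (α := ℝ) n3]
    have c3 : (n3 : ℝ) ≤ n := by rw [hn]; push_cast; linarith [Nat.cast_nonneg (α := ℝ) n1, Nat.cast_nonneg (α := ℝ) n2]
    have d2 : 1 / ((n : ℝ) + 1) ≤ 1 / ((n2 : ℝ) + 1) := by
      apply one_div_le_one_div_of_le <;> [positivity; linarith]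
    have d3 : 1 / ((n : ℝ) + 1) ≤ 1 / ((n3 : ℝ) + 1) := by
      apply one_div_le_one_div_of_le <;> [positivity; linarith]
    have hmem : p ∈ KK j n := ⟨⟨by linarith, by linarith⟩, by linarith⟩
    have := mem_iInter.1 ht2 (j, n)
    exact this ⟨p, hmem, h⟩

/-! ### Reduction of a general regular torus to the four-parameter family -/

theorem flatCircle_eq (c u w : E3) (r : ℝ) :
    flatCircle c u w r = {x | ∃ t : ℝ, x = c + r • (Real.cos t • u + Real.sin t • w)} := by
  ext x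
  constructor
  · rintro ⟨t, _, h⟩
    exact ⟨t, h⟩
  · rintro ⟨t, h⟩
    obtain ⟨y, hy, hc, hs⟩ := exists_angle t
    exact ⟨y, hy, by rw [hc, hs]; exact h⟩

theorem rotate_pair (c u w : E3) (hu : ‖u‖ = 1) (hw : ‖w‖ = 1) (huw : inner ℝ u w = 0) (r : ℝ) :
    ∃ u' w' : E3, ‖u'‖ = 1 ∧ ‖w'‖ = 1 ∧ inner ℝ u' w' = 0 ∧ inner ℝ w' c = 0 ∧
      flatCircle c u w r = flatCircle c u' w' r := by
  obtain ⟨θ, hθ⟩ : ∃ θ : ℝ, Real.cos θ * inner ℝ w c - Real.sin θ * inner ℝ u c = 0 := by
    by_cases h : (inner ℝ u c : ℝ) = 0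
    · refine ⟨Real.pi / 2, ?_⟩
      rw [h, Real.cos_pi_div_two]; ring
    · refine ⟨Real.arctan (inner ℝ w c / inner ℝ u c), ?_⟩
      have h1 := Real.tan_arctan (inner ℝ w c / inner ℝ u c : ℝ)
      have h2 := Real.cos_arctan_pos (inner ℝ w c / inner ℝ u c : ℝ)
      rw [Real.tan_eq_sin_div_cos, div_eq_div_iff h2.ne' h] at h1
      linarith
  have huu : inner ℝ u u = (1 : ℝ) := by rw [real_inner_self_eq_norm_sq, hu]; norm_num
  have hww : inner ℝ w w = (1 : ℝ) := by rw [real_inner_self_eq_norm_sq, hw]; norm_num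
  have hwu : inner ℝ w u = (0 : ℝ) := by rw [real_inner_comm]; exact huw
  have hcs := Real.cos_sq_add_sin_sq θ
  refine ⟨Real.cos θ • u + Real.sin θ • w, (-Real.sin θ) • u + Real.cos θ • w, ?_, ?_, ?_, ?_, ?_⟩
  · rw [← sq_eq_sq₀ (norm_nonneg _) zero_le_one, ← real_inner_self_eq_norm_sq]
    simp only [inner_add_left, inner_add_right, inner_smul_left, inner_smul_right, huu, hww, huw,
      hwu, RCLike.conj_to_real]
    linarith
  · rw [← sq_eq_sq₀ (norm_nonneg _) zero_le_one, ← real_inner_self_eq_norm_sq]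
    simp only [inner_add_left, inner_add_right, inner_smul_left, inner_smul_right, huu, hww, huw,
      hwu, RCLike.conj_to_real]
    linarith
  · simp only [inner_add_left, inner_add_right, inner_smul_left, inner_smul_right, huu, hww, huw,
      hwu, RCLike.conj_to_real]
    ring
  · simp only [inner_add_left, inner_smul_left, RCLike.conj_to_real]
    linarith
  · rw [flatCircle_eq, flatCircle_eq]
    ext x
    constructor
    · rintro ⟨t, h⟩
      refine ⟨t - θ, ?_⟩
      rw [h]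
      congr 2
      rw [smul_add, smul_add, smul_smul, smul_smul, smul_smul, smul_smul]
      have e1 : Real.cos t = Real.cos (t - θ) * Real.cos θ + Real.sin (t - θ) * -Real.sin θ := by
        rw [← sub_eq_zero]
        have := Real.cos_add (t - θ) θ
        rw [sub_add_cancel] at this
        linarith
      have e2 : Real.sin t = Real.cos (t - θ) * Real.sin θ + Real.sin (t - θ) * Real.cos θ := by
        have := Real.sin_add (t - θ) θ
        rw [sub_add_cancel] at this
        linarith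
      rw [e1, e2, add_smul, add_smul]
      abel
    · rintro ⟨t, h⟩
      refine ⟨t + θ, ?_⟩
      rw [h]
      congr 2
      rw [smul_add, smul_add, smul_smul, smul_smul, smul_smul, smul_smul]
      rw [Real.cos_add, Real.sin_add, sub_smul, add_smul, mul_neg, neg_smul]
      abel

theorem exists_isometry (c u w : E3) (hu : ‖u‖ = 1) (hw : ‖w‖ = 1) (huw : inner ℝ u w = 0)
    (hwc : inner ℝ w c = 0) : ∃ (R : E3 ≃ₗᵢ[ℝ] E3) (a b : ℝ),
      R u = EuclideanSpace.single (0 : Fin 3) (1 : ℝ) ∧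
      R w = EuclideanSpace.single (1 : Fin 3) (1 : ℝ) ∧
      R c = a • EuclideanSpace.single (0 : Fin 3) (1 : ℝ)
        + b • EuclideanSpace.single (2 : Fin 3) (1 : ℝ) := by
  have hwu : inner ℝ w u = (0 : ℝ) := by rw [real_inner_comm]; exact huw
  have horth : Orthonormal ℝ (({0, 1} : Set (Fin 3)).domRestrict ![u, w, 0]) := by
    constructor
    · rintro ⟨i, hi⟩
      rcases hi with rfl | rfl
      · exact hu
      · exact hw
    · rintro ⟨i, hi⟩ ⟨j, hj⟩ hij
      rcases hi with rfl | rfl <;> rcases hj with rfl | rfl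
      · exact absurd rfl hij
      · exact huw
      · exact hwu
      · exact absurd rfl hij
  obtain ⟨b, hb⟩ := horth.exists_orthonormalBasis_extension_of_card_eq (by simp)
  have hb0 : b 0 = u := by simpa using hb 0 (by simp)
  have hb1 : b 1 = w := by simpa using hb 1 (by simp)
  refine ⟨b.repr, inner ℝ u c, inner ℝ (b 2) c, ?_, ?_, ?_⟩
  · rw [← hb0]; exact b.repr_self 0
  · rw [← hb1]; exact b.repr_self 1
  · ext i
    rw [b.repr_apply_apply]
    fin_cases i
    · simp [hb0]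
    · simp [hb1, hwc]
    · simp

theorem nu_preimage (l : ℕ) (R : E3 ≃ₗᵢ[ℝ] E3) (A : Set E3) (hA : MeasurableSet A) :
    nu l (R ⁻¹' A) = nu l A := by
  have h1 : R ⁻¹' (ball (0 : E3) ((l : ℝ) + 1)) = ball (0 : E3) ((l : ℝ) + 1) := by
    rw [LinearIsometryEquiv.preimage_ball]; simp
  rw [nu, Measure.smul_apply, Measure.smul_apply, Measure.restrict_apply hA,
    Measure.restrict_apply (R.continuous.measurable hA)]
  conv_lhs => rw [← h1, ← preimage_inter]
  rw [h1, (R.measurePreserving.measure_preimage (hA.inter measurableSet_ball).nullMeasurableSet)]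

theorem regular_reduce {T : Set E3} (hT : IsRegularTorus T) :
    ∃ p : Fin 4 → ℝ, 0 < p 3 ∧ ∀ l, nu l T = nu l (tor p) := by
  obtain ⟨c, u, w, r, α, hu, hw, huw, hr, hα, rfl⟩ := hT
  obtain ⟨u', w', hu', hw', huw', hwc, hS⟩ := rotate_pair c u w hu hw huw r
  obtain ⟨R, a, b, hRu, hRw, hRc⟩ := exists_isometry c u' w' hu' hw' huw' hwc
  refine ⟨![a, b, r, α], hα, fun l => ?_⟩
  have himg : R '' flatCircle c u w r = circ ![a, b, r, α] := by
    rw [hS, flatCircle_eq]
    ext x
    constructor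
    · rintro ⟨_, ⟨t, rfl⟩, rfl⟩
      refine ⟨t, ?_⟩
      simp only [map_add, map_smul, hRu, hRw, hRc]
      simp
    · rintro ⟨t, rfl⟩
      refine ⟨c + r • (Real.cos t • u' + Real.sin t • w'), ⟨t, rfl⟩, ?_⟩
      simp only [map_add, map_smul, hRu, hRw, hRc]
      simp
  have hpre : solid (flatCircle c u w r) α = R ⁻¹' (tor ![a, b, r, α]) := by
    ext x
    simp only [solid, tor, mem_ofPred_eq, mem_preimage]
    rw [← himg, infDist_image R.isometry]
    simp
  rw [hpre]
  exact nu_preimage l R _ (isClosed_solid (circ ![a, b, r, α]) _).measurableSet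

/-! ### The measures -/

/-- The radial measure with weights `t`. -/
noncomputable def mu (t : ℕ →ᵇ ℝ) : Measure E3 :=
  Measure.sum fun l : ℕ => ENNReal.ofReal (t l * (1 / 2) ^ l) • nu l

theorem mu_apply (t : ℕ →ᵇ ℝ) (A : Set E3) :
    mu t A = ∑' l : ℕ, ENNReal.ofReal (t l * (1 / 2) ^ l) * nu l A := by
  rw [mu, Measure.sum_apply_of_countable]
  simp only [Measure.smul_apply, smul_eq_mul]

theorem summable_w (t : ℕ →ᵇ ℝ) : Summable fun l : ℕ => t l * (1 / 2 : ℝ) ^ l := by
  refine Summable.of_norm_bounded (summable_bd ‖t‖) fun l => ?_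
  rw [norm_mul, norm_pow]
  have h3 : ‖(1 / 2 : ℝ)‖ = 1 / 2 := by norm_num
  rw [h3]
  have := t.norm_coe_le_norm l
  gcongr

theorem tsum_w_ne_top (t : ℕ →ᵇ ℝ) (ht : ∀ l, 0 < t l) :
    ∑' l : ℕ, ENNReal.ofReal (t l * (1 / 2) ^ l) ≠ ∞ := by
  rw [← ENNReal.ofReal_tsum_of_nonneg (fun l => mul_nonneg (ht l).le (by positivity))
    (summable_w t)]
  exact ENNReal.ofReal_ne_top

theorem mu_le (t : ℕ →ᵇ ℝ) (A : Set E3) :
    mu t A ≤ (∑' l : ℕ, ENNReal.ofReal (t l * (1 / 2) ^ l)) * kap * volume A := by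
  rw [mu_apply, mul_assoc, ← ENNReal.tsum_mul_right]
  exact ENNReal.tsum_le_tsum fun l => mul_le_mul_right (nu_le l A) _

theorem mu_univ (t : ℕ →ᵇ ℝ) : mu t univ = ∑' l : ℕ, ENNReal.ofReal (t l * (1 / 2) ^ l) := by
  rw [mu_apply]
  simp

theorem mu_ac (t : ℕ →ᵇ ℝ) : mu t ≪ volume := by
  intro A hA
  have := mu_le t A
  rw [hA, mul_zero] at this
  exact le_antisymm this zero_le

theorem ac_mu (t : ℕ →ᵇ ℝ) (ht : ∀ l, 0 < t l) : volume ≪ mu t := by
  intro A hA
  rw [mu_apply, ENNReal.tsum_eq_zero] at hA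
  have h1 : ∀ l : ℕ, volume (A ∩ ball (0 : E3) ((l : ℝ) + 1)) = 0 := by
    intro l
    have h2 := hA l
    rw [mul_eq_zero] at h2
    rcases h2 with h2 | h2
    · rw [ENNReal.ofReal_eq_zero] at h2
      have : 0 < t l * (1 / 2) ^ l := mul_pos (ht l) (by positivity)
      linarith
    · rw [nu, Measure.smul_apply, smul_eq_mul, mul_eq_zero] at h2
      rcases h2 with h2 | h2
      · rw [ENNReal.inv_eq_zero] at h2
        exact absurd h2 (vol_ball_fin l)
      · rwa [Measure.restrict_apply' measurableSet_ball] at h2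
  have hun : A = ⋃ l : ℕ, A ∩ ball (0 : E3) ((l : ℝ) + 1) := by
    ext x
    simp only [mem_iUnion, mem_inter_iff, mem_ball_zero_iff, exists_and_left]
    constructor
    · intro h
      obtain ⟨l, hl⟩ := exists_nat_gt ‖x‖
      exact ⟨h, l, by linarith⟩
    · exact fun h => h.1
  rw [hun]
  exact measure_iUnion_null h1

theorem mu_map (t : ℕ →ᵇ ℝ) (R : E3 ≃ₗᵢ[ℝ] E3) : (mu t).map R = mu t := by
  ext A hA
  rw [Measure.map_apply R.continuous.measurable hA, mu_apply, mu_apply]
  congr 1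
  ext l
  rw [nu_preimage l R A hA]

theorem F_of_bisect (t : W) (ht : ∀ i l, 0 < t i l) (T : Set E3) (p : Fin 4 → ℝ)
    (hT : ∀ l, nu l T = nu l (tor p)) (i : Fin 5) (h : mu (t i) T = mu (t i) univ / 2) :
    F t p i = 0 := by
  have h1 : (mu (t i) T).toReal = ∑' l : ℕ, t i l * (1 / 2) ^ l * (nu l (tor p)).toReal := by
    rw [mu_apply, ENNReal.tsum_toReal_eq fun l =>
      ENNReal.mul_ne_top ENNReal.ofReal_ne_top (measure_ne_top _ _)]
    congr 1
    ext l
    rw [ENNReal.toReal_mul, ENNReal.toReal_ofReal (mul_nonneg (ht i l).le (by positivity)), hT]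
  have h2 : (mu (t i) univ).toReal = ∑' l : ℕ, t i l * (1 / 2) ^ l := by
    rw [mu_univ, ENNReal.tsum_toReal_eq fun l => ENNReal.ofReal_ne_top]
    congr 1
    ext l
    rw [ENNReal.toReal_ofReal (mul_nonneg (ht i l).le (by positivity))]
  have h3 : (mu (t i) T).toReal = (mu (t i) univ).toReal / 2 := by
    rw [h, ENNReal.toReal_div]; simp
  have hs : Summable fun l : ℕ => t i l * (1 / 2) ^ l * (nu l (tor p)).toReal := by
    have := (summable_term t p i).add ((summable_w (t i)).mul_left (1 / 2))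
    refine this.congr fun l => ?_
    rw [g]; ring
  have hs2 : Summable fun l : ℕ => t i l * (1 / 2 : ℝ) ^ l * (1 / 2) :=
    (summable_w (t i)).mul_right _
  rw [F]
  calc ∑' l : ℕ, t i l * ((1 / 2) ^ l * g l p)
      = ∑' l : ℕ, (t i l * (1 / 2) ^ l * (nu l (tor p)).toReal - t i l * (1 / 2 : ℝ) ^ l * (1 / 2))
        := by
        congr 1
        ext l
        rw [g]; ring
    _ = (∑' l : ℕ, t i l * (1 / 2) ^ l * (nu l (tor p)).toReal)
        - ∑' l : ℕ, t i l * (1 / 2 : ℝ) ^ l * (1 / 2) := hs.tsum_sub hs2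
    _ = 0 := by
        rw [tsum_mul_right, ← h1, ← h2, h3]; ring

/-- **Main theorem.** There are five finite absolutely continuous measures on `ℝ³` (rotation
invariant, with bounded density and with the same null sets as Lebesgue measure) such that no
regular torus contains exactly half of each of them. -/
theorem main : ∃ μ : Fin 5 → Measure E3,
    (∀ i, IsFiniteMeasure (μ i)) ∧ (∀ i, μ i ≪ volume) ∧
    (∀ i, ∃ C : ℝ≥0, ∀ A : Set E3, μ i A ≤ C * volume A) ∧
    (∀ i, volume ≪ μ i) ∧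
    (∀ i, ∀ R : E3 ≃ₗᵢ[ℝ] E3, (μ i).map R = μ i) ∧
    ¬ ∃ T : Set E3, IsRegularTorus T ∧ ∀ i, μ i T = μ i univ / 2 := by
  obtain ⟨t, ht1, ht2⟩ := exists_good
  have hpos : ∀ i l, 0 < t i l := fun i l => by linarith [(ht1 i l).1]
  refine ⟨fun i => mu (t i), fun i => ⟨?_⟩, fun i => mu_ac _, fun i => ?_,
    fun i => ac_mu _ (hpos i), fun i R => mu_map _ R, ?_⟩
  · rw [mu_univ, lt_top_iff_ne_top]
    exact tsum_w_ne_top _ (hpos i)
  · have hne : (∑' l : ℕ, ENNReal.ofReal (t i l * (1 / 2) ^ l)) * kap ≠ ∞ :=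
      ENNReal.mul_ne_top (tsum_w_ne_top _ (hpos i)) kap_ne_top
    refine ⟨((∑' l : ℕ, ENNReal.ofReal (t i l * (1 / 2) ^ l)) * kap).toNNReal, fun A => ?_⟩
    rw [ENNReal.coe_toNNReal hne]
    exact mu_le _ A
  · rintro ⟨T, hT, h⟩
    obtain ⟨p, hp, hTp⟩ := regular_reduce hT
    exact ht2 p hp fun i => F_of_bisect t hpos T p hTp i (h i)

end Helper53.Torus
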